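import Pool.Agent.TH553.ST.Ext2
import Pool.Agent.TH553.ST.PW2

/-!
# From the Sato-Tate law over a number field to its extensions

`K` is a number field, `G` the Sato-Tate group over `K` of a family as in the problem and `x_v ∈ G` an
element of the class of the prime `v` of `K` (any element at the finitely many exceptional primes; this
changes the `L`-functions below by finitely many factors without zeros and poles in `Re s > 0`).  Suppose
that `G` is connected; then it is also the Sato-Tate group over every finite extension `F` of `K`, and for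
the class `y_w` of a prime `w` of `F` of residue degree one over the prime `v` of `K` we have
`y_w = x_v`.  Suppose that the `x_v` are equidistributed.  The theorem is about the classes `y_w` over the
extensions of `K`, of any degrees and with any Galois groups.

The criterion of Serre for the equidistribution of the `y_w` asks for the continuation of `L(π / F, s)` to
`Re s ≥ 1` without zeros and poles, for all irreducible representations `π ≠ 1` of `G`.  Let `r` be the
number of fields of which `F ⊗_K F` is the product (the rank of the permutation group of `F / K`,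
`2 ≤ r ≤ [F : K]` for `F ≠ K`).  The theorem, for the two fields `F` and `K` with the coefficients `1`
and `-1` and `Q = r - 1`, says:

* the sum of the squares of the orders of all `L(π / F, s)` at all points of `Re s = 1` at which they
  have a local meromorphic continuation, each with the weight `1` or `2`, is less than `r - 1`;
* for `r = 2` (doubly transitive Galois group, for instance the symmetric group) there are no zeros and
  poles at all, and the `y_w` are equidistributed if all `L(π / F, s)` have meromorphic continuations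
  to neighbourhoods of the points of `Re s = 1`;
* without any continuation, `|log |L(π / F, 1 + iτ + ε)||` is at most `√(r - 1 - δ) log (1 / ε)`.
-/

set_option autoImplicit false

namespace Pool.Agent.Results.MP_4c4ce6_nt.ExtensionsFromMeromorphy

open NumberField IsDedekindDomain Filter Topology MeasureTheory
open scoped TensorProduct ComplexConjugate

section

variable {F : Type} [Field F] [NumberField F]

/-- The average of `φ` over the primes of `F` of norm at most `N`. -/
noncomputable def avg (φ : HeightOneSpectrum (𝓞 F) → ℂ) (N : ℕ) : ℂ :=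
  (∑ᶠ w : {w : HeightOneSpectrum (𝓞 F) // Ideal.absNorm w.asIdeal ≤ N}, φ w.1) /
    (Nat.card {w : HeightOneSpectrum (𝓞 F) // Ideal.absNorm w.asIdeal ≤ N} : ℂ)

/-- The classes of the `y w` are equidistributed for `μ`. -/
def Equidistributed {G : Type} [Group G] [TopologicalSpace G] [MeasurableSpace G]
    (y : HeightOneSpectrum (𝓞 F) → G) (μ : Measure G) : Prop :=
  ∀ f : G → ℂ, Continuous f → (∀ g h, f (h * g * h⁻¹) = f g) →
    Tendsto (avg fun w => f (y w)) atTop (𝓝 (∫ g, f g ∂μ))

/-- `y w` is a conjugate of `x v` for all but finitely many primes `w` of `F` of residue degree one over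
the prime `v` of `K` below `w`. -/
def BaseChange {K : Type} [Field K] [NumberField K] [Algebra K F] {G : Type} [Group G]
    (x : HeightOneSpectrum (𝓞 K) → G) (y : HeightOneSpectrum (𝓞 F) → G) : Prop :=
  ∃ S : Finset (HeightOneSpectrum (𝓞 F)), ∀ w, w ∉ S → ∀ v : HeightOneSpectrum (𝓞 K),
    w.asIdeal.comap (algebraMap (𝓞 K) (𝓞 F)) = v.asIdeal →
    Ideal.absNorm w.asIdeal = Ideal.absNorm v.asIdeal → ∃ h : G, y w = h * x v * h⁻¹

/-- The number of fields whose product is `F ⊗_K F'`. -/
noncomputable def numFields (K F F' : Type) [Field K] [Field F] [Field F'] [Algebra K F]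
    [Algebra K F'] : ℕ := Nat.card (MaximalSpectrum (F ⊗[K] F'))

/-- The number `∑ c_i c_j numFields (F_i, F_j)`. -/
noncomputable def form (K : Type) [Field K] {ι : Type} [Fintype ι] (F : ι → Type)
    [∀ i, Field (F i)] [∀ i, Algebra K (F i)] (c : ι → ℝ) : ℝ :=
  ∑ i, ∑ j, c i * c j * (numFields K (F i) (F j) : ℝ)

end

section

variable {G : Type} [Group G] {n : ℕ}

/-- The character of `π`. -/
noncomputable def tr (π : G →* Matrix.unitaryGroup (Fin n) ℂ) (g : G) : ℂ :=
  (π g : Matrix (Fin n) (Fin n) ℂ).trace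

/-- The unitary representation `π` is continuous, irreducible (only the scalars commute with all
matrices `π g`) and not trivial. -/
structure IsNontrivialIrreducible [TopologicalSpace G]
    (π : G →* Matrix.unitaryGroup (Fin n) ℂ) : Prop where
  continuous : Continuous π
  schur : ∀ A : Matrix (Fin n) (Fin n) ℂ, (∀ g, (π g : Matrix (Fin n) (Fin n) ℂ) * A = A * π g) →
    ∃ c : ℂ, A = c • (1 : Matrix (Fin n) (Fin n) ℂ)
  nontrivial : ∃ g, π g ≠ 1

open Classical in
/-- The weight of the pair `π`, `τ`: it is `1` if `τ = 0` and the character of `π` is real, and `2` in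
all other cases. -/
noncomputable def weight (π : G →* Matrix.unitaryGroup (Fin n) ℂ) (τ : ℝ) : ℝ :=
  if τ = 0 ∧ ∀ g, conj (tr π g) = tr π g then 1 else 2

variable {F : Type} [Field F] [NumberField F]

/-- The Euler product `L(π / F, s) = ∏_w det(1 - q_w^{-s} π(y_w))⁻¹` over the primes `w` of `F`. -/
noncomputable def LFun (π : G →* Matrix.unitaryGroup (Fin n) ℂ) (y : HeightOneSpectrum (𝓞 F) → G)
    (s : ℂ) : ℂ :=
  ∏' w : HeightOneSpectrum (𝓞 F), (Matrix.det (1 - ((Ideal.absNorm w.asIdeal : ℂ) ^ (-s)) •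
    (π (y w) : Matrix (Fin n) (Fin n) ℂ)))⁻¹

/-- `log |L(π / F, 1 + iτ + ε)| / log (1/ε)`. -/
noncomputable def size (π : G →* Matrix.unitaryGroup (Fin n) ℂ) (y : HeightOneSpectrum (𝓞 F) → G)
    (τ ε : ℝ) : ℝ := Real.log ‖LFun π y (1 + τ * Complex.I + ε)‖ / Real.log (1 / ε)

/-- `Λ` is a meromorphic continuation of `L(π / F, s)` to a neighbourhood of `1 + iτ`. -/
def IsContinuation (π : G →* Matrix.unitaryGroup (Fin n) ℂ) (y : HeightOneSpectrum (𝓞 F) → G)
    (τ : ℝ) (Λ : ℂ → ℂ) : Prop :=
  MeromorphicAt Λ (1 + τ * Complex.I) ∧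
    ∀ᶠ s in 𝓝 ((1 : ℂ) + τ * Complex.I), (1 : ℝ) < s.re → Λ s = LFun π y s

end

/-- The pairs `π k`, `τ k` are pairwise different, also up to replacing `π`, `τ` by the complex conjugate
of `π` and `-τ`. -/
def Different {G : Type} [Group G] {κ : Type} {n : κ → ℕ}
    (π : ∀ k, G →* Matrix.unitaryGroup (Fin (n k)) ℂ) (τ : κ → ℝ) : Prop :=
  ∀ k l, k ≠ l → ¬ (τ k = τ l ∧ ∀ g, tr (π k) g = tr (π l) g) ∧
    ¬ (τ k = -τ l ∧ ∀ g, tr (π k) g = conj (tr (π l) g))

section Bridge

set_option linter.unusedSectionVars false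

open Pool.Agent.TH553.ST Pool.Agent.TH553.RS Pool.Agent.W540.BE

section

variable {K : Type} [Field K] [NumberField K]

theorem avg_eq (g : HeightOneSpectrum (𝓞 K) → ℂ) : avg g = mn g := by
  funext N
  have hs : ∀ v, v ∈ upto K N ↔ Ideal.absNorm v.asIdeal ≤ N := fun v => mem_upto
  let e : {v : HeightOneSpectrum (𝓞 K) // Ideal.absNorm v.asIdeal ≤ N} ≃ (upto K N) :=
    Equiv.subtypeEquivRight fun v => (hs v).symm
  have hfin : Finite {v : HeightOneSpectrum (𝓞 K) // Ideal.absNorm v.asIdeal ≤ N} :=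
    Finite.of_equiv _ e.symm
  unfold avg mn
  have h1 : (∑ᶠ v : {v : HeightOneSpectrum (𝓞 K) // Ideal.absNorm v.asIdeal ≤ N}, g v.1) =
      ∑ v ∈ upto K N, g v := by
    rw [← Finset.sum_coe_sort, ← finsum_eq_sum_of_fintype, ← finsum_comp_equiv e]
    rfl
  have h2 : Nat.card {v : HeightOneSpectrum (𝓞 K) // Ideal.absNorm v.asIdeal ≤ N} =
      (upto K N).card := by
    rw [Nat.card_congr e, Nat.card_eq_fintype_card, Fintype.card_coe]
  rw [h1, h2, Complex.real_smul, div_eq_inv_mul]
  push_cast
  rfl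

end

section

variable {K : Type} [Field K] [NumberField K]
variable {G : Type} [Group G] [TopologicalSpace G] [IsTopologicalGroup G] [CompactSpace G]
  [MeasurableSpace G] [BorelSpace G] {μ : Measure G} [IsProbabilityMeasure μ] [μ.IsHaarMeasure]
  {x : HeightOneSpectrum (𝓞 K) → G}

theorem law_of (h : Equidistributed x μ) : Law x μ := by
  intro f hf hcl
  have h1 := h (fun g => (f g : ℂ)) (Complex.continuous_ofReal.comp hf) fun g h => by rw [hcl]
  have h0 : ∫ g, (f g : ℂ) ∂μ = ((∫ g, f g ∂μ : ℝ) : ℂ) := integral_ofReal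
  rw [avg_eq, h0] at h1
  have h2 := (Complex.continuous_re.tendsto _).comp h1
  refine h2.congr fun N => ?_
  simp only [Function.comp]
  rw [re_mn]
  rfl

variable {ι : Type} [Fintype ι] {F : ι → Type} [∀ i, Field (F i)] [∀ i, NumberField (F i)]
  [∀ i, Algebra K (F i)] {y : ∀ i, HeightOneSpectrum (𝓞 (F i)) → G} {c : ι → ℝ} {i₀ : ι}

theorem hyp_of (hx : Equidistributed x μ) (hy : ∀ i, BaseChange x (y i)) (hc : c i₀ = 1)
    (hST : ∀ i, i ≠ i₀ → c i ≠ 0 → Equidistributed (y i) μ) : Hyp μ x y c i₀ :=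
  ⟨law_of hx, hy, hc, fun i h1 h2 => law_of (hST i h1 h2)⟩

theorem form_eq : form K F c = Qc K F c := rfl

variable {κ : Type} [Fintype κ] {n : κ → ℕ} {π : ∀ k, G →* Matrix.unitaryGroup (Fin (n k)) ℂ}
  {τ : κ → ℝ}

theorem fam_of (h : ∀ k, IsNontrivialIrreducible (π k)) (h' : Different π τ) : Fam μ π τ where
  cont k := (h k).continuous
  schur k := (h k).schur
  nt k := (h k).nontrivial
  ne k l hkl ht he := (h' k l hkl).1 ⟨ht, fun g => congrFun he g⟩
  ne' k l hkl ht he := (h' k l hkl).2 ⟨ht, fun g => congrFun he g⟩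

end

end Bridge

/-- **From the Sato-Tate law over `K` to its extensions.**  Let `K` be a number field, `G` a compact
connected group with Haar probability measure `μ` and `x_v ∈ G` for the primes `v` of `K`, such that the
classes of the `x_v` are equidistributed.  Let `F_i` be finitely many finite extensions of `K`, let
`y_i(w) ∈ G` for the primes `w` of `F_i` be a base change of `x`, let `c_i` be real numbers with `c_{i₀} = 1` for one
index `i₀`, suppose that the `y_i(w)` are equidistributed for all `i ≠ i₀` with `c_i ≠ 0`, and put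
`Q = ∑ c_i c_j numFields (F_i, F_j)`.

I.  For finitely many pairs of a nontrivial irreducible representation `π_k` of `G` and a real number
`τ_k`, pairwise different up to complex conjugation, let `X_k(ε) = log |L(π_k / F, 1 + iτ_k + ε)| / log (1/ε)` with `F = F_{i₀}`.
If `Q > 0`, then `∑ weight_k X_k(ε)² ≤ Q - δ` for some `δ > 0` and all small `ε > 0`.  If
there are meromorphic continuations to neighbourhoods of the `1 + iτ_k`, with orders `m_k` at these
points, then all `m_k` are zero or `∑ weight_k m_k² < Q`.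

II.  If `Q ≤ 1` and if for all nontrivial irreducible `π` and all `τ` there is a meromorphic continuation
of `L(π / F_{i₀}, s)` to a neighbourhood of `1 + iτ`, then the classes of the `y_{i₀}(w)` are
equidistributed.

Examples: if there are two indices, `F_{i₀} = F`, the other field is `K` and its coefficient is `-1`, then
`Q = numFields (F, F) - 1`; this is `1` if and only if the Galois group of the normal closure of
`F / K` is doubly transitive. -/
theorem result (K : Type) [Field K] [NumberField K]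
    (G : Type) [Group G] [TopologicalSpace G] [IsTopologicalGroup G] [CompactSpace G] [T2Space G]
    [ConnectedSpace G] [MeasurableSpace G] [BorelSpace G] (μ : Measure G)
    [IsProbabilityMeasure μ] [μ.IsHaarMeasure]
    (x : HeightOneSpectrum (𝓞 K) → G) (hx : Equidistributed x μ)
    (ι : Type) [Fintype ι] (F : ι → Type) [∀ i, Field (F i)] [∀ i, NumberField (F i)]
    [∀ i, Algebra K (F i)] (y : ∀ i, HeightOneSpectrum (𝓞 (F i)) → G)
    (hy : ∀ i, BaseChange x (y i)) (c : ι → ℝ) (i₀ : ι) (hc : c i₀ = 1)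
    (hST : ∀ i, i ≠ i₀ → c i ≠ 0 → Equidistributed (y i) μ) :
    (∀ (κ : Type) [Fintype κ] (n : κ → ℕ) (π : ∀ k, G →* Matrix.unitaryGroup (Fin (n k)) ℂ)
      (τ : κ → ℝ), (∀ k, IsNontrivialIrreducible (π k)) → Different π τ →
      (∀ k, ∀ᶠ ε : ℝ in 𝓝[>] 0, LFun (π k) (y i₀) (1 + τ k * Complex.I + ε) ≠ 0) ∧
      (0 < form K F c → ∃ δ : ℝ, 0 < δ ∧ ∀ᶠ ε : ℝ in 𝓝[>] 0,
        ∑ k, weight (π k) (τ k) * size (π k) (y i₀) (τ k) ε ^ 2 ≤ form K F c - δ) ∧
      ∀ Λ : κ → ℂ → ℂ, (∀ k, IsContinuation (π k) (y i₀) (τ k) (Λ k)) →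
        ∃ m : κ → ℤ, (∀ k, meromorphicOrderAt (Λ k) (1 + τ k * Complex.I) = m k) ∧
          ((∀ k, m k = 0) ∨ ∑ k, weight (π k) (τ k) * (m k : ℝ) ^ 2 < form K F c)) ∧
    (form K F c ≤ 1 →
      (∀ (n : ℕ) (π : G →* Matrix.unitaryGroup (Fin n) ℂ), IsNontrivialIrreducible π →
        ∀ τ : ℝ, ∃ Λ, IsContinuation π (y i₀) τ Λ) →
      Equidistributed (y i₀) μ) := by
  have H := hyp_of hx hy hc hST
  have key : ∀ (κ : Type) [Fintype κ] (n : κ → ℕ)
      (π : ∀ k, G →* Matrix.unitaryGroup (Fin (n k)) ℂ) (τ : κ → ℝ),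
      (∀ k, IsNontrivialIrreducible (π k)) → Different π τ →
      ∀ Λ : κ → ℂ → ℂ, (∀ k, IsContinuation (π k) (y i₀) (τ k) (Λ k)) →
        ∃ m : κ → ℤ, (∀ k, meromorphicOrderAt (Λ k) (1 + τ k * Complex.I) = m k) ∧
          ((∀ k, m k = 0) ∨ ∑ k, weight (π k) (τ k) * (m k : ℝ) ^ 2 < form K F c) := by
    intro κ _ n π τ h1 h2 Λ hΛ
    have Fm : Pool.Agent.TH553.ST.Fam μ π τ := fam_of h1 h2
    choose m hm1 hm2 using fun k => Pool.Agent.TH553.ST.order_L1 (hΛ k).1 (hΛ k).2
    refine ⟨m, hm1, ?_⟩
    by_cases h0 : ∀ k, m k = 0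
    · exact Or.inl h0
    · push Not at h0
      obtain ⟨k₀, hk₀⟩ := h0
      exact Or.inr (H.orders Fm hm2 hk₀)
  refine ⟨fun κ _ n π τ h1 h2 => ⟨fun k => (Pool.Agent.TH553.ST.size_L1 (π k) (y i₀) (τ k)).1,
    fun hQ => H.bessel_lt (fam_of h1 h2) hQ, key κ n π τ h1 h2⟩, fun hQ hcont => ?_⟩
  intro f hf hcl
  rw [avg_eq]
  refine Pool.Agent.TH553.ST.weyl (fun n π h1 h2 h3 => ?_) hf hcl
  have hirr : IsNontrivialIrreducible π := ⟨h1, h2, h3⟩
  refine Pool.Agent.TH553.ST.avg_L1 fun τ => ?_
  obtain ⟨Λ, hΛ⟩ := hcont n π hirr τ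
  refine ⟨Λ, hΛ.1, hΛ.2, ?_⟩
  obtain ⟨m, hm1, hm2⟩ := key Unit (fun _ => n) (fun _ => π) (fun _ => τ) (fun _ => hirr)
    (fun k l hkl => absurd (Subsingleton.elim k l) hkl) (fun _ => Λ) (fun _ => hΛ)
  rcases hm2 with h0 | hlt
  · rw [hm1 (), h0 ()]
  · have h4 : weight π τ * (m () : ℝ) ^ 2 < 1 := by
      have : ∑ _k : Unit, weight π τ * (m () : ℝ) ^ 2 = weight π τ * (m () : ℝ) ^ 2 := by simp
      rw [← this]
      exact lt_of_lt_of_le hlt hQ
    have h5 : 1 ≤ weight π τ := by
      unfold weight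
      split_ifs <;> norm_num
    have h6 : (m () : ℝ) ^ 2 < 1 := by
      have := sq_nonneg (m () : ℝ)
      nlinarith
    have h7 : m () = 0 := by
      have h8 : |(m () : ℝ)| < 1 := by
        rw [← sq_abs] at h6
        exact (sq_lt_one_iff₀ (abs_nonneg _)).1 h6
      exact Int.abs_lt_one_iff.1 (by exact_mod_cast h8)
    rw [hm1 (), h7]

end Pool.Agent.Results.MP_4c4ce6_nt.ExtensionsFromMeromorphy
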