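import Mathlib

/-!
# The law of large numbers for pairwise independent families

`K` is a number field, `A` a set of primes of `K` of density `δ > 0` (all primes, or a ray class), `X` a
compact metric space (the space of conjugacy classes of a compact group), and `x_i(v) ∈ X`, for `v` a prime
of `K` and `i` in a set of indices, are the Frobenius classes of families which satisfy the Sato-Tate
conjecture one by one and in pairs: the `(x_i(v), x_j(v))` are equidistributed for `μ_i × μ_j`.  For three
or more elliptic curves without complex multiplication, pairwise not isogenous, over a totally real field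
this is what is known; the equidistribution of the `r`-tuples `(x_1(v), ..., x_r(v))`, `r ≥ 3`, is the open
case of the conjecture for the direct sum.

The theorems: for symmetric functions `F` on `X ^ r` with Lipschitz constant one for the normalised distance
`(1 / r) ∑ d(y_i, z_i)` the average of `F(x_1(v), ..., x_r(v))` is within `ε` of the predicted value
`∫ F d(μ_1 × ... × μ_r)`, for all `r ≥ r₀(X, ε)`; and for an infinite sequence of families the strong law of
large numbers holds, with the exceptional primes of upper density at most `C(X, ε) / r₀`.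
-/

set_option autoImplicit false

namespace Pool.Agent.Results.MP_4c4ce6_nt.LawOfLargeNumbers

open NumberField IsDedekindDomain Filter Topology MeasureTheory

section
variable {K : Type} [Field K] [NumberField K]

/-- The average of `g` over the primes of `K` of norm at most `N`. -/
noncomputable def avg (g : HeightOneSpectrum (𝓞 K) → ℝ) (N : ℕ) : ℝ :=
  (∑ᶠ v : {v : HeightOneSpectrum (𝓞 K) // Ideal.absNorm v.asIdeal ≤ N}, g v.1) /
    (Nat.card {v : HeightOneSpectrum (𝓞 K) // Ideal.absNorm v.asIdeal ≤ N} : ℝ)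

/-- The average of `g · 1_A` over the primes of norm at most `N` tends to `L`. -/
def Mean (A : Set (HeightOneSpectrum (𝓞 K))) (g : HeightOneSpectrum (𝓞 K) → ℝ) (L : ℝ) : Prop :=
  Tendsto (avg (A.indicator g)) atTop (𝓝 L)

/-- The upper density of the set `A` of primes of `K` is at most `β`. -/
def UpperDensityLE (A : Set (HeightOneSpectrum (𝓞 K))) (β : ℝ) : Prop :=
  ∀ ε : ℝ, 0 < ε → ∀ᶠ N in atTop, avg (A.indicator fun _ => 1) N ≤ β + ε

/-- `A` has density `δ > 0`, and for `v ∈ A` the `x_i(v)` are equidistributed for `μ_i` and, for `i ≠ j`, the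
pairs `(x_i(v), x_j(v))` are equidistributed for the product of `μ_i` and `μ_j`. -/
structure PairsEquidistributed {X ι : Type} [TopologicalSpace X] [MeasurableSpace X]
    (A : Set (HeightOneSpectrum (𝓞 K))) (δ : ℝ) (μ : ι → Measure X)
    (x : ι → HeightOneSpectrum (𝓞 K) → X) : Prop where
  pos : 0 < δ
  density : Mean A (fun _ => 1) δ
  single : ∀ (i : ι) (f : X → ℝ), Continuous f →
    Mean A (fun v => f (x i v)) (δ * ∫ t, f t ∂(μ i))
  pair : ∀ i j : ι, i ≠ j → ∀ f g : X → ℝ, Continuous f → Continuous g →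
    Mean A (fun v => f (x i v) * g (x j v)) (δ * ((∫ t, f t ∂(μ i)) * ∫ t, g t ∂(μ j)))

end

/-- `F` is a symmetric function of `r` points of `X`, and `|F y - F z| ≤ (1 / r) ∑ d(y_i, z_i)`. -/
structure SymmetricLipschitz {X : Type} [MetricSpace X] {r : ℕ} (F : (Fin r → X) → ℝ) : Prop where
  symm : ∀ (σ : Equiv.Perm (Fin r)) (y : Fin r → X), F (fun i => y (σ i)) = F y
  lipschitz : ∀ y z : Fin r → X, |F y - F z| ≤ (∑ i, dist (y i) (z i)) / r

/-! ### an optimal matching -/

theorem matching {X : Type} [PseudoMetricSpace X] {r : ℕ} (y z : Fin r → X) (c : ℝ)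
    (h : ∀ f : X → ℝ, LipschitzWith 1 f → ∑ i, (f (y i) - f (z i)) ≤ c) :
    ∃ σ : Equiv.Perm (Fin r), ∑ i, dist (y i) (z (σ i)) ≤ c := by
  classical
  rcases Nat.eq_zero_or_pos r with hr | hr
  · subst hr
    refine ⟨1, ?_⟩
    have := h (fun _ => 0) (LipschitzWith.const' 0)
    simpa using this
  have hne : Nonempty (Fin r) := ⟨⟨0, hr⟩⟩
  obtain ⟨D, hD0, hD⟩ : ∃ D : ℝ, 0 ≤ D ∧ ∀ i j, dist (y i) (z j) ≤ D := by
    refine ⟨∑ i, ∑ j, dist (y i) (z j),
      Finset.sum_nonneg fun i _ => Finset.sum_nonneg fun j _ => dist_nonneg, fun i j => ?_⟩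
    refine le_trans ?_ (Finset.single_le_sum (f := fun i => ∑ j, dist (y i) (z j))
      (fun i _ => Finset.sum_nonneg fun j _ => dist_nonneg) (Finset.mem_univ i))
    exact Finset.single_le_sum (f := fun j => dist (y i) (z j)) (fun j _ => dist_nonneg)
      (Finset.mem_univ j)
  set feas : Set ((Fin r → ℝ) × (Fin r → ℝ)) := {p | ∀ i j, p.1 i - p.2 j ≤ dist (y i) (z j)}
    with hfeas
  set J : (Fin r → ℝ) × (Fin r → ℝ) → ℝ := fun p => ∑ i, p.1 i - ∑ i, p.2 i with hJ
  -- all differences are bounded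
  have hbd : ∀ p ∈ feas, 0 ≤ J p → ∀ i j, -(r * D) ≤ p.1 i - p.2 j := by
    intro p hp h0 i j
    have e : J p = ∑ k, (p.1 k - p.2 (Equiv.swap i j k)) := by
      rw [Finset.sum_sub_distrib, Equiv.sum_comp (Equiv.swap i j) p.2]
    rw [e, ← Finset.add_sum_erase _ _ (Finset.mem_univ i), Equiv.swap_apply_left] at h0
    have h1 : ∑ k ∈ Finset.univ.erase i, (p.1 k - p.2 (Equiv.swap i j k)) ≤
        ∑ _k ∈ Finset.univ.erase i, D :=
      Finset.sum_le_sum fun k _ => (hp k _).trans (hD _ _)
    have h2 : ∑ _k ∈ Finset.univ.erase i, D ≤ r * D := by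
      rw [Finset.sum_const, nsmul_eq_mul]
      refine mul_le_mul_of_nonneg_right ?_ hD0
      have : (Finset.univ.erase i).card ≤ (Finset.univ : Finset (Fin r)).card :=
        Finset.card_le_card (Finset.erase_subset _ _)
      rw [Finset.card_univ, Fintype.card_fin] at this
      exact_mod_cast this
    linarith
  have hbu : ∀ p ∈ feas, ∀ i j, p.1 i - p.2 j ≤ r * D := by
    intro p hp i j
    have h1 : (1 : ℝ) ≤ r := by exact_mod_cast hr
    have h2 := hp i j
    have h3 := hD i j
    nlinarith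
  set B : ℝ := 2 * (r * D) with hB
  have hrD : 0 ≤ r * D := by positivity
  set Q : Set ((Fin r → ℝ) × (Fin r → ℝ)) :=
    feas ∩ Set.Icc ((fun _ => -B), (fun _ => -B)) ((fun _ => B), (fun _ => B)) with hQ
  have hclosed : IsClosed feas := by
    have : feas = ⋂ i, ⋂ j, {p : (Fin r → ℝ) × (Fin r → ℝ) | p.1 i - p.2 j ≤ dist (y i) (z j)} := by
      ext p
      simp [hfeas]
    rw [this]
    refine isClosed_iInter fun i => isClosed_iInter fun j => isClosed_le ?_ continuous_const
    fun_prop
  have hQc : IsCompact Q := (isCompact_Icc).inter_left hclosed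
  have hJc : Continuous J := by
    simp only [hJ]
    fun_prop
  have h0Q : (0 : (Fin r → ℝ) × (Fin r → ℝ)) ∈ Q := by
    refine ⟨fun i j => ?_, ?_, ?_⟩
    · simp
    · exact ⟨fun i => by simp [hB]; positivity, fun i => by simp [hB]; positivity⟩
    · exact ⟨fun i => by simp [hB]; positivity, fun i => by simp [hB]; positivity⟩
  obtain ⟨p, hpQ, hpmax⟩ := hQc.exists_isMaxOn ⟨0, h0Q⟩ hJc.continuousOn
  have hJ0 : 0 ≤ J p := by
    have := hpmax h0Q
    simpa [hJ] using this
  have hglob : ∀ q ∈ feas, J q ≤ J p := by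
    intro q hq
    rcases lt_or_ge (J q) 0 with hlt | hge
    · exact hlt.le.trans hJ0
    set i0 : Fin r := ⟨0, hr⟩
    set t : ℝ := q.1 i0 with ht
    set q' : (Fin r → ℝ) × (Fin r → ℝ) := ((fun i => q.1 i - t), (fun i => q.2 i - t)) with hq'
    have hfq' : q' ∈ feas := by
      intro i j
      have := hq i j
      simp only [hq']
      linarith
    have hJq' : J q' = J q := by
      simp only [hJ, hq', Finset.sum_sub_distrib]
      ring
    have hQq' : q' ∈ Q := by
      refine ⟨hfq', ⟨fun i => ?_, fun i => ?_⟩, ⟨fun i => ?_, fun i => ?_⟩⟩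
      · have h1 := hbd q hq hge i i0
        have h2 := hbu q hq i0 i0
        simp only [hq', hB, ht]
        linarith
      · have h2 := hbu q hq i0 i
        simp only [hq', hB, ht]
        linarith
      · have h1 := hbu q hq i i0
        have h2 := hbd q hq hge i0 i0
        simp only [hq', hB, ht]
        linarith
      · have h2 := hbd q hq hge i0 i
        simp only [hq', hB, ht]
        linarith
    rw [← hJq']
    exact hpmax hQq'
  -- Hall
  obtain ⟨g, hginj, hg⟩ : ∃ g : Fin r → Fin r, Function.Injective g ∧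
      ∀ i, g i ∈ Finset.univ.filter (fun j => p.1 i - p.2 j = dist (y i) (z j)) := by
    rw [← Finset.all_card_le_biUnion_card_iff_exists_injective]
    intro s
    by_contra hcon
    push Not at hcon
    set Nb := s.biUnion (fun i => Finset.univ.filter (fun j => p.1 i - p.2 j = dist (y i) (z j)))
      with hNb
    have hslack : ∀ i ∈ s, ∀ j, j ∉ Nb → p.1 i - p.2 j < dist (y i) (z j) := by
      intro i hi j hj
      refine lt_of_le_of_ne (hpQ.1 i j) fun heq => hj ?_
      rw [hNb, Finset.mem_biUnion]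
      exact ⟨i, hi, by simp [heq]⟩
    obtain ⟨d, hd, hd0⟩ : ∃ d : ℝ, (∀ i, ∀ j, i ∈ s → j ∉ Nb → p.1 i - p.2 j + d ≤ dist (y i) (z j)) ∧
        0 < d := by
      have h1 : ∀ᶠ d : ℝ in 𝓝[>] 0, ∀ i, ∀ j, i ∈ s → j ∉ Nb →
          p.1 i - p.2 j + d ≤ dist (y i) (z j) := by
        rw [eventually_all]
        intro i
        rw [eventually_all]
        intro j
        by_cases hij : i ∈ s ∧ j ∉ Nb
        · have h2 := hslack i hij.1 j hij.2
          have h3 : ∀ᶠ d : ℝ in 𝓝[>] 0, d < dist (y i) (z j) - (p.1 i - p.2 j) :=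
            nhdsWithin_le_nhds (Iio_mem_nhds (by linarith))
          filter_upwards [h3] with d hd _ _
          linarith
        · exact Eventually.of_forall fun d h1 h2 => absurd ⟨h1, h2⟩ hij
      exact (h1.and self_mem_nhdsWithin).exists
    set q : (Fin r → ℝ) × (Fin r → ℝ) :=
      ((fun i => p.1 i + if i ∈ s then d else 0), (fun j => p.2 j + if j ∈ Nb then d else 0))
      with hq
    have hqf : q ∈ feas := by
      intro i j
      have h1 := hpQ.1 i j
      simp only [hq]
      by_cases hi : i ∈ s <;> by_cases hj : j ∈ Nb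
      · simp only [hi, hj, if_true]
        linarith
      · simp only [hi, hj, if_true, if_false]
        have := hd i j hi hj
        linarith
      · simp only [hi, hj, if_true, if_false]
        linarith
      · simp only [hi, hj, if_false]
        linarith
    have hJq : J q = J p + d * (s.card - Nb.card) := by
      simp only [hJ, hq, Finset.sum_add_distrib, Finset.sum_ite_mem, Finset.univ_inter,
        Finset.sum_const, nsmul_eq_mul]
      ring
    have h2 := hglob q hqf
    rw [hJq] at h2
    have h3 : (Nb.card : ℝ) < s.card := by exact_mod_cast hcon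
    nlinarith
  have hgb : Function.Bijective g := Finite.injective_iff_bijective.mp hginj
  refine ⟨Equiv.ofBijective g hgb, ?_⟩
  have e1 : ∑ i, dist (y i) (z (Equiv.ofBijective g hgb i)) = J p := by
    have : ∀ i, dist (y i) (z (Equiv.ofBijective g hgb i)) =
        p.1 i - p.2 (Equiv.ofBijective g hgb i) := fun i => by
      have := hg i
      simp only [Finset.mem_filter, Finset.mem_univ, true_and] at this
      exact this.symm
    rw [Finset.sum_congr rfl fun i _ => this i, Finset.sum_sub_distrib, Equiv.sum_comp]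
  rw [e1]
  set f : X → ℝ := fun x => Finset.univ.inf' Finset.univ_nonempty fun j => p.2 j + dist x (z j)
    with hf
  have hfl : LipschitzWith 1 f := by
    refine LipschitzWith.of_le_add fun a b => ?_
    obtain ⟨j, _, hj⟩ := Finset.exists_mem_eq_inf' Finset.univ_nonempty
      (fun j => p.2 j + dist b (z j))
    have h1 : f a ≤ p.2 j + dist a (z j) := Finset.inf'_le _ (Finset.mem_univ j)
    have h2 : f b = p.2 j + dist b (z j) := hj
    have h3 := dist_triangle a b (z j)
    linarith
  refine le_trans ?_ (h f hfl)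
  rw [hJ]
  simp only
  rw [← Finset.sum_sub_distrib]
  refine Finset.sum_le_sum fun i _ => ?_
  have h1 : p.1 i ≤ f (y i) := by
    refine Finset.le_inf' _ _ fun j _ => ?_
    have := hpQ.1 i j
    linarith
  have h2 : f (z i) ≤ p.2 i := by
    refine (Finset.inf'_le _ (Finset.mem_univ i)).trans ?_
    simp
  linarith

/-! ### a net of functions, deviations -/

theorem net (X : Type) [MetricSpace X] [CompactSpace X] {ε : ℝ} (hε : 0 < ε) :
    ∃ S : Finset (X → ℝ), (∀ g ∈ S, LipschitzWith 1 g) ∧
      ∀ f : X → ℝ, LipschitzWith 1 f → ∃ g ∈ S, ∃ c : ℝ, ∀ t, |f t - c - g t| ≤ ε := by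
  classical
  rcases isEmpty_or_nonempty X with hX | ⟨⟨x0⟩⟩
  · refine ⟨{fun _ => 0}, by simpa using LipschitzWith.const' 0, fun f _ => ⟨fun _ => 0, by simp, 0,
      fun t => hX.elim t⟩⟩
  set A : Set (BoundedContinuousFunction X ℝ) := {f | LipschitzWith 1 f ∧ f x0 = 0} with hA
  have hA1 : IsCompact (closure A) := by
    refine BoundedContinuousFunction.arzela_ascoli (Metric.closedBall (0 : ℝ) (Metric.diam (Set.univ : Set X)))
      (isCompact_closedBall _ _) A ?_ ?_
    · intro f x hf
      rw [mem_closedBall_zero_iff, Real.norm_eq_abs]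
      have h1 := hf.1.dist_le_mul x x0
      rw [Real.dist_eq, hf.2, sub_zero] at h1
      refine h1.trans ?_
      simp only [NNReal.coe_one, one_mul]
      exact Metric.dist_le_diam_of_mem isCompact_univ.isBounded (Set.mem_univ _) (Set.mem_univ _)
    · refine Metric.equicontinuous_of_continuity_modulus (fun t => t) (by exact tendsto_id) _ ?_
      intro x y f
      have := f.2.1.dist_le_mul x y
      simpa using this
  have hA2 : TotallyBounded A := hA1.totallyBounded.subset subset_closure
  obtain ⟨t, htA, htf, htc⟩ := Metric.finite_approx_of_totallyBounded hA2 ε hε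
  refine ⟨htf.toFinset.image (fun f : BoundedContinuousFunction X ℝ => (⇑f : X → ℝ)), ?_, ?_⟩
  · intro g hg
    rw [Finset.mem_image] at hg
    obtain ⟨f, hf, rfl⟩ := hg
    exact (htA (htf.mem_toFinset.mp hf)).1
  · intro f hf
    set f' : BoundedContinuousFunction X ℝ := BoundedContinuousFunction.mkOfCompact
      ⟨fun x => f x - f x0, by
        have := hf.continuous
        fun_prop⟩ with hf'
    have hf'A : f' ∈ A := by
      refine ⟨?_, by simp [hf']⟩
      refine LipschitzWith.of_dist_le_mul fun x y => ?_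
      have := hf.dist_le_mul x y
      rw [Real.dist_eq] at this ⊢
      simpa [hf'] using this
    have := htc hf'A
    rw [Set.mem_iUnion₂] at this
    obtain ⟨g, hgt, hg⟩ := this
    refine ⟨g, ?_, f x0, fun x => ?_⟩
    · rw [Finset.mem_image]
      exact ⟨g, htf.mem_toFinset.mpr hgt, rfl⟩
    · have h1 := BoundedContinuousFunction.dist_coe_le_dist (f := f') (g := g) x
      rw [Real.dist_eq] at h1
      have h2 : f' x = f x - f x0 := rfl
      rw [h2] at h1
      exact h1.trans (le_of_lt hg)

variable {X ι : Type} [MetricSpace X] [CompactSpace X] [MeasurableSpace X] [BorelSpace X]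

/-- `g` minus its integral against `μ` -/
noncomputable def cen (μ : Measure X) (g : X → ℝ) (t : X) : ℝ := g t - ∫ s, g s ∂μ

omit [BorelSpace X] in
theorem integrable_of_continuous [OpensMeasurableSpace X] (μ : Measure X) [IsFiniteMeasure μ] {g : X → ℝ} (hg : Continuous g) :
    Integrable g μ := by
  rw [← integrableOn_univ]
  exact hg.continuousOn.integrableOn_compact isCompact_univ

omit [MeasurableSpace X] [BorelSpace X] in
theorem lip_le {g : X → ℝ} (hg : LipschitzWith 1 g) (s t : X) :
    |g s - g t| ≤ Metric.diam (Set.univ : Set X) := by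
  have := hg.dist_le_mul s t
  rw [Real.dist_eq] at this
  refine this.trans ?_
  simp only [NNReal.coe_one, one_mul]
  exact Metric.dist_le_diam_of_mem isCompact_univ.isBounded (Set.mem_univ _) (Set.mem_univ _)

theorem cen_le (μ : Measure X) [IsProbabilityMeasure μ] {g : X → ℝ} (hg : LipschitzWith 1 g) (t : X) :
    |cen μ g t| ≤ Metric.diam (Set.univ : Set X) := by
  have h1 : cen μ g t = ∫ s, (g t - g s) ∂μ := by
    unfold cen
    rw [integral_sub (integrable_const _) (integrable_of_continuous μ hg.continuous)]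
    simp
  rw [h1, ← Real.norm_eq_abs]
  refine (norm_integral_le_of_norm_le_const (C := Metric.diam (Set.univ : Set X))
    (Eventually.of_forall fun s => ?_)).trans ?_
  · rw [Real.norm_eq_abs]
    exact lip_le hg t s
  · simp

theorem integral_cen (μ : Measure X) [IsProbabilityMeasure μ] {g : X → ℝ} (hg : Continuous g) :
    ∫ t, cen μ g t ∂μ = 0 := by
  unfold cen
  rw [integral_sub (integrable_of_continuous μ hg) (integrable_const _)]
  simp

/-- the mean over `i ∈ s` of the deviations of `g` -/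
noncomputable def dev (μ : ι → Measure X) (s : Finset ι) (g : X → ℝ) (y : ι → X) : ℝ :=
  (∑ i ∈ s, cen (μ i) g (y i)) / s.card

/-- the sum of the squares of the deviations over a finite set `S` of functions -/
noncomputable def T (μ : ι → Measure X) (S : Finset (X → ℝ)) (s : Finset ι) (y : ι → X) : ℝ :=
  ∑ g ∈ S, dev μ s g y ^ 2

theorem dev_le (μ : ι → Measure X) [∀ i, IsProbabilityMeasure (μ i)] (s : Finset ι) {g : X → ℝ}
    (hg : LipschitzWith 1 g) (y : ι → X) : |dev μ s g y| ≤ Metric.diam (Set.univ : Set X) := by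
  unfold dev
  rw [abs_div, Nat.abs_cast]
  refine div_le_of_le_mul₀ (Nat.cast_nonneg _) Metric.diam_nonneg ?_
  refine (Finset.abs_sum_le_sum_abs _ _).trans ?_
  refine (Finset.sum_le_sum fun i _ => cen_le (μ i) hg (y i)).trans ?_
  rw [Finset.sum_const, nsmul_eq_mul, mul_comm]

/-- if `g` is near to `f - c`, then the deviations are near -/
theorem dev_near (μ : ι → Measure X) [∀ i, IsProbabilityMeasure (μ i)] (s : Finset ι) {f g : X → ℝ}
    (hf : Continuous f) (hg : Continuous g) {c e : ℝ} (he : 0 ≤ e) (h : ∀ t, |f t - c - g t| ≤ e)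
    (y : ι → X) : |dev μ s f y| ≤ |dev μ s g y| + 2 * e := by
  have h1 : ∀ i t, |cen (μ i) f t - cen (μ i) g t| ≤ 2 * e := by
    intro i t
    have e1 : cen (μ i) f t - cen (μ i) g t =
        (f t - c - g t) - ∫ s, (f s - c - g s) ∂(μ i) := by
      have e2 : ∫ s, (f s - c - g s) ∂(μ i) = ∫ s, f s ∂(μ i) - c - ∫ s, g s ∂(μ i) := by
        have e3 : Integrable (fun s => f s - c) (μ i) :=
          (integrable_of_continuous _ hf).sub (integrable_const _)
        rw [integral_sub e3 (integrable_of_continuous _ hg),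
          integral_sub (integrable_of_continuous _ hf) (integrable_const _)]
        simp
      rw [e2]
      unfold cen
      ring
    rw [e1]
    have h2 : |∫ s, (f s - c - g s) ∂(μ i)| ≤ e := by
      rw [← Real.norm_eq_abs]
      refine (norm_integral_le_of_norm_le_const (C := e) (Eventually.of_forall fun s => ?_)).trans ?_
      · rw [Real.norm_eq_abs]
        exact h s
      · simp
    have h3 := h t
    rw [abs_le] at h2 h3 ⊢
    constructor <;> linarith
  have h4 : |dev μ s f y - dev μ s g y| ≤ 2 * e := by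
    unfold dev
    rw [← sub_div, ← Finset.sum_sub_distrib, abs_div, Nat.abs_cast]
    refine div_le_of_le_mul₀ (Nat.cast_nonneg _) (by linarith) ?_
    refine (Finset.abs_sum_le_sum_abs _ _).trans ?_
    refine (Finset.sum_le_sum fun i _ => h1 i (y i)).trans ?_
    rw [Finset.sum_const, nsmul_eq_mul, mul_comm]
  have h5 := abs_sub_abs_le_abs_sub (dev μ s f y) (dev μ s g y)
  linarith

/-- small `T` for a net gives small deviations for all functions -/
theorem dev_of_T (μ : ι → Measure X) [∀ i, IsProbabilityMeasure (μ i)] (s : Finset ι)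
    {S : Finset (X → ℝ)} {e η : ℝ} (he : 0 ≤ e) (hη : 0 ≤ η)
    (hS1 : ∀ g ∈ S, LipschitzWith 1 g)
    (hS : ∀ f : X → ℝ, LipschitzWith 1 f → ∃ g ∈ S, ∃ c : ℝ, ∀ t, |f t - c - g t| ≤ e)
    {y : ι → X} (hT : T μ S s y ≤ η ^ 2) {f : X → ℝ} (hf : LipschitzWith 1 f) :
    |dev μ s f y| ≤ η + 2 * e := by
  obtain ⟨g, hg, c, hc⟩ := hS f hf
  refine (dev_near μ s hf.continuous (hS1 g hg).continuous he hc y).trans ?_
  have h1 : dev μ s g y ^ 2 ≤ η ^ 2 :=
    (Finset.single_le_sum (f := fun g => dev μ s g y ^ 2) (fun g _ => sq_nonneg _) hg).trans hT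
  have h2 : |dev μ s g y| ≤ η := abs_le_of_sq_le_sq h1 hη
  linarith

omit [MetricSpace X] [CompactSpace X] [BorelSpace X] in
theorem T_expand (μ : ι → Measure X) (S : Finset (X → ℝ)) (s : Finset ι) (y : ι → X) :
    T μ S s y = ∑ g ∈ S, ∑ i ∈ s, ∑ j ∈ s,
      (1 / (s.card : ℝ) ^ 2) * (cen (μ i) g (y i) * cen (μ j) g (y j)) := by
  unfold T dev
  refine Finset.sum_congr rfl fun g _ => ?_
  rw [div_pow, sq (∑ i ∈ s, _), Finset.sum_mul_sum, div_eq_inv_mul, one_div, Finset.mul_sum]
  refine Finset.sum_congr rfl fun i _ => ?_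
  rw [Finset.mul_sum]

/-- the value of the mean of `T` for pairwise independent variables -/
noncomputable def V (μ : ι → Measure X) (S : Finset (X → ℝ)) (s : Finset ι) : ℝ :=
  ∑ g ∈ S, ∑ i ∈ s, (1 / (s.card : ℝ) ^ 2) * ∫ t, cen (μ i) g t * cen (μ i) g t ∂(μ i)

theorem V_le (μ : ι → Measure X) [∀ i, IsProbabilityMeasure (μ i)] (S : Finset (X → ℝ))
    (hS1 : ∀ g ∈ S, LipschitzWith 1 g) (s : Finset ι) (hs : 0 < s.card) :
    V μ S s ≤ S.card * Metric.diam (Set.univ : Set X) ^ 2 / s.card := by
  unfold V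
  have hs' : (0 : ℝ) < s.card := by exact_mod_cast hs
  have h1 : ∀ g ∈ S, ∑ i ∈ s, (1 / (s.card : ℝ) ^ 2) * ∫ t, cen (μ i) g t * cen (μ i) g t ∂(μ i) ≤
      Metric.diam (Set.univ : Set X) ^ 2 / s.card := by
    intro g hg
    have h2 : ∀ i ∈ s, (1 / (s.card : ℝ) ^ 2) * ∫ t, cen (μ i) g t * cen (μ i) g t ∂(μ i) ≤
        (1 / (s.card : ℝ) ^ 2) * Metric.diam (Set.univ : Set X) ^ 2 := by
      intro i _
      refine mul_le_mul_of_nonneg_left ?_ (by positivity)
      refine (le_abs_self _).trans ?_
      rw [← Real.norm_eq_abs]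
      refine (norm_integral_le_of_norm_le_const (C := Metric.diam (Set.univ : Set X) ^ 2)
        (Eventually.of_forall fun s => ?_)).trans ?_
      · rw [Real.norm_eq_abs, abs_mul, ← sq]
        exact pow_le_pow_left₀ (abs_nonneg _) (cen_le (μ i) (hS1 g hg) s) 2
      · simp
    refine (Finset.sum_le_sum h2).trans ?_
    rw [Finset.sum_const, nsmul_eq_mul]
    refine le_of_eq ?_
    field_simp
  refine (Finset.sum_le_sum h1).trans ?_
  rw [Finset.sum_const, nsmul_eq_mul]
  refine le_of_eq ?_
  ring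

/-- the integral of `T` against the product measure -/
theorem integral_T {r : ℕ} (μ : Fin r → Measure X) [∀ i, IsProbabilityMeasure (μ i)]
    (S : Finset (X → ℝ)) (hS1 : ∀ g ∈ S, LipschitzWith 1 g) :
    ∫ y, T μ S Finset.univ y ∂(Measure.pi μ) = V μ S Finset.univ := by
  classical
  have hcen : ∀ i, ∀ g ∈ S, Continuous (cen (μ i) g) := fun i g hg => by
    unfold cen
    have := (hS1 g hg).continuous
    fun_prop
  have hpair : ∀ i j, ∀ g ∈ S, ∫ y, cen (μ i) g (y i) * cen (μ j) g (y j) ∂(Measure.pi μ) =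
      if i = j then ∫ t, cen (μ i) g t * cen (μ i) g t ∂(μ i) else 0 := by
    intro i j g hg
    by_cases hij : i = j
    · subst hij
      rw [if_pos rfl]
      have h1 : ∀ y : Fin r → X, cen (μ i) g (y i) * cen (μ i) g (y i) =
          ∏ k, (if k = i then (fun t => cen (μ i) g t * cen (μ i) g t) else fun _ => 1) (y k) := by
        intro y
        rw [Finset.prod_eq_single i]
        · simp
        · intro k _ hk
          simp [hk]
        · simp
      simp_rw [h1]
      rw [integral_fintype_prod_eq_prod (μ := μ) (f := fun k => (if k = i then (fun t => cen (μ i) g t * cen (μ i) g t) else fun _ => 1)), Finset.prod_eq_single i]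
      · simp
      · intro k _ hk
        simp [hk]
      · simp
    · rw [if_neg hij]
      have h1 : ∀ y : Fin r → X, cen (μ i) g (y i) * cen (μ j) g (y j) =
          ∏ k, (if k = i then cen (μ i) g else if k = j then cen (μ j) g else fun _ => 1) (y k) := by
        intro y
        rw [← Finset.prod_erase_mul _ _ (Finset.mem_univ i)]
        simp only [if_true]
        rw [mul_comm]
        congr 1
        rw [Finset.prod_eq_single j]
        · simp [Ne.symm hij]
        · intro k hk hkj
          rw [Finset.mem_erase] at hk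
          simp [hk.1, hkj]
        · intro h
          exact absurd (Finset.mem_erase.mpr ⟨Ne.symm hij, Finset.mem_univ j⟩) h
      simp_rw [h1]
      rw [integral_fintype_prod_eq_prod (μ := μ) (f := fun k => (if k = i then cen (μ i) g else if k = j then cen (μ j) g else fun _ => 1))]
      refine Finset.prod_eq_zero (Finset.mem_univ i) ?_
      simp only [if_true]
      exact integral_cen (μ i) (hS1 g hg).continuous
  have hint : ∀ g ∈ S, ∀ i j, Integrable (fun y : Fin r → X =>
      (1 / ((Finset.univ : Finset (Fin r)).card : ℝ) ^ 2) * (cen (μ i) g (y i) * cen (μ j) g (y j)))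
      (Measure.pi μ) := by
    intro g hg i j
    have hc : Continuous fun y : Fin r → X =>
      (1 / ((Finset.univ : Finset (Fin r)).card : ℝ) ^ 2) * (cen (μ i) g (y i) * cen (μ j) g (y j)) := by
      have h1 := hcen i g hg
      have h2 := hcen j g hg
      fun_prop
    exact integrable_of_continuous _ hc
  simp_rw [T_expand]
  unfold V
  rw [integral_finsetSum]
  · refine Finset.sum_congr rfl fun g hg => ?_
    rw [integral_finsetSum]
    · refine Finset.sum_congr rfl fun i _ => ?_
      rw [integral_finsetSum]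
      · simp_rw [integral_const_mul, hpair i _ g hg]
        rw [Finset.sum_eq_single i]
        · simp
        · intro j _ hj
          simp [Ne.symm hj]
        · simp
      · intro j _
        exact hint g hg i j
    · intro i _
      exact integrable_finsetSum _ fun j _ => hint g hg i j
  · intro g hg
    exact integrable_finsetSum _ fun i _ => integrable_finsetSum _ fun j _ => hint g hg i j

section
variable {K : Type} [Field K] [NumberField K]

/-! ### averages -/

theorem finite_le (N : ℕ) :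
    Finite {v : HeightOneSpectrum (𝓞 K) // Ideal.absNorm v.asIdeal ≤ N} := by
  have h : {I : Ideal (𝓞 K) | Ideal.absNorm I ≤ N}.Finite := Ideal.finite_setOfPred_absNorm_le N
  have h' : Finite {I : Ideal (𝓞 K) // Ideal.absNorm I ≤ N} := h
  exact Finite.of_injective
    (fun v : {v : HeightOneSpectrum (𝓞 K) // Ideal.absNorm v.asIdeal ≤ N} =>
      (⟨v.1.asIdeal, v.2⟩ : {I : Ideal (𝓞 K) // Ideal.absNorm I ≤ N}))
    (fun v w hvw => Subtype.ext (HeightOneSpectrum.ext (congrArg Subtype.val hvw)))

theorem avg_add (g h : HeightOneSpectrum (𝓞 K) → ℝ) (N : ℕ) :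
    avg (fun v => g v + h v) N = avg g N + avg h N := by
  have := finite_le (K := K) N
  unfold avg
  rw [finsum_add_distrib (Set.toFinite _) (Set.toFinite _), add_div]

theorem avg_mul (c : ℝ) (g : HeightOneSpectrum (𝓞 K) → ℝ) (N : ℕ) :
    avg (fun v => c * g v) N = c * avg g N := by
  have := finite_le (K := K) N
  unfold avg
  rw [← mul_div_assoc, mul_finsum]

theorem avg_mono {g h : HeightOneSpectrum (𝓞 K) → ℝ} (hgh : ∀ v, g v ≤ h v) (N : ℕ) :
    avg g N ≤ avg h N := by
  have := finite_le (K := K) N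
  unfold avg
  exact div_le_div_of_nonneg_right (finsum_le_finsum' (Set.toFinite _) (Set.toFinite _)
    (fun v => hgh v.1)) (Nat.cast_nonneg _)

section
variable {A : Set (HeightOneSpectrum (𝓞 K))} {δ : ℝ}

theorem Mean.add {g h : HeightOneSpectrum (𝓞 K) → ℝ} {L M : ℝ} (hg : Mean A g L)
    (hh : Mean A h M) : Mean A (fun v => g v + h v) (L + M) := by
  unfold Mean at *
  have : avg (A.indicator fun v => g v + h v) =
      fun N => avg (A.indicator g) N + avg (A.indicator h) N := funext fun N => by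
    rw [← avg_add]
    congr 1
    funext v
    by_cases hv : v ∈ A <;> simp [hv]
  rw [this]
  exact hg.add hh

theorem Mean.mul {g : HeightOneSpectrum (𝓞 K) → ℝ} {L : ℝ} (c : ℝ) (hg : Mean A g L) :
    Mean A (fun v => c * g v) (c * L) := by
  unfold Mean at *
  have : avg (A.indicator fun v => c * g v) = fun N => c * avg (A.indicator g) N :=
    funext fun N => by
      rw [← avg_mul]
      congr 1
      funext v
      by_cases hv : v ∈ A <;> simp [hv]
  rw [this]
  exact hg.const_mul c

theorem Mean.congr {g h : HeightOneSpectrum (𝓞 K) → ℝ} {L M : ℝ} (hg : Mean A g L)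
    (h1 : ∀ v, h v = g v) (h2 : M = L) : Mean A h M := by
  rw [funext h1, h2]
  exact hg

theorem Mean.zero : Mean A (fun _ => (0 : ℝ)) 0 := by
  unfold Mean
  have : avg (A.indicator fun _ => (0 : ℝ)) = fun _ => (0 : ℝ) := funext fun N => by
    unfold avg
    simp
  rw [this]
  exact tendsto_const_nhds

theorem Mean.sum {κ : Type} (s : Finset κ) {g : κ → HeightOneSpectrum (𝓞 K) → ℝ} {L : κ → ℝ}
    (h : ∀ i ∈ s, Mean A (g i) (L i)) : Mean A (fun v => ∑ i ∈ s, g i v) (∑ i ∈ s, L i) := by
  classical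
  induction s using Finset.induction_on with
  | empty => simpa using (Mean.zero (A := A))
  | insert i s hi ih =>
    simp_rw [Finset.sum_insert hi]
    exact (h i (Finset.mem_insert_self _ _)).add
      (ih fun j hj => h j (Finset.mem_insert_of_mem hj))


end

end

/-! ### the mean value of `T` over the primes -/

section
variable {K : Type} [Field K] [NumberField K] {A : Set (HeightOneSpectrum (𝓞 K))} {δ : ℝ}
  {μ : ι → Measure X} [∀ i, IsProbabilityMeasure (μ i)] {x : ι → HeightOneSpectrum (𝓞 K) → X}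

theorem mean_T (h : PairsEquidistributed A δ μ x) {S : Finset (X → ℝ)}
    (hS1 : ∀ g ∈ S, LipschitzWith 1 g) (s : Finset ι) :
    Mean A (fun v => T μ S s (fun i => x i v)) (δ * V μ S s) := by
  classical
  have hcen : ∀ i, ∀ g ∈ S, Continuous (cen (μ i) g) := fun i g hg => by
    unfold cen
    have := (hS1 g hg).continuous
    fun_prop
  have h1 : Mean A (fun v => ∑ g ∈ S, ∑ i ∈ s, ∑ j ∈ s,
      (1 / (s.card : ℝ) ^ 2) * (cen (μ i) g (x i v) * cen (μ j) g (x j v)))
      (∑ g ∈ S, ∑ i ∈ s, ∑ j ∈ s, (1 / (s.card : ℝ) ^ 2) *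
        (if i = j then δ * ∫ t, cen (μ i) g t * cen (μ i) g t ∂(μ i) else 0)) := by
    refine Mean.sum _ fun g hg => Mean.sum _ fun i _ => Mean.sum _ fun j _ => Mean.mul _ ?_
    by_cases hij : i = j
    · subst hij
      rw [if_pos rfl]
      exact h.single i (fun t => cen (μ i) g t * cen (μ i) g t) ((hcen i g hg).mul (hcen i g hg))
    · rw [if_neg hij]
      have := h.pair i j hij _ _ (hcen i g hg) (hcen j g hg)
      rw [integral_cen (μ i) (hS1 g hg).continuous, zero_mul, mul_zero] at this
      exact this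
  refine h1.congr (fun v => T_expand μ S s _) ?_
  unfold V
  rw [Finset.mul_sum]
  refine Finset.sum_congr rfl fun g _ => ?_
  rw [Finset.mul_sum]
  refine Finset.sum_congr rfl fun i hi => ?_
  rw [Finset.sum_eq_single i]
  · rw [if_pos rfl]
    ring
  · intro j _ hj
    rw [if_neg (Ne.symm hj), mul_zero]
  · intro h
    exact absurd hi h

end

/-! ### symmetric functions -/

section
variable {r : ℕ} {F : (Fin r → X) → ℝ} (hF : SymmetricLipschitz F)
include hF

omit [CompactSpace X] [MeasurableSpace X] [BorelSpace X] in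
theorem F_continuous : Continuous F := by
  have : LipschitzWith 1 F := by
    refine LipschitzWith.of_dist_le_mul fun y z => ?_
    rw [Real.dist_eq]
    refine (hF.lipschitz y z).trans ?_
    simp only [NNReal.coe_one, one_mul]
    refine div_le_of_le_mul₀ (Nat.cast_nonneg _) dist_nonneg ?_
    refine (Finset.sum_le_sum fun i _ => dist_le_pi_dist y z i).trans ?_
    rw [Finset.sum_const, Finset.card_univ, Fintype.card_fin, nsmul_eq_mul, mul_comm]
  exact this.continuous

omit [MeasurableSpace X] [BorelSpace X] in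
theorem F_diam (y z : Fin r → X) : |F y - F z| ≤ Metric.diam (Set.univ : Set X) := by
  refine (hF.lipschitz y z).trans ?_
  refine div_le_of_le_mul₀ (Nat.cast_nonneg _) Metric.diam_nonneg ?_
  refine (Finset.sum_le_sum fun i _ =>
    Metric.dist_le_diam_of_mem isCompact_univ.isBounded (Set.mem_univ (y i))
      (Set.mem_univ (z i))).trans ?_
  rw [Finset.sum_const, Finset.card_univ, Fintype.card_fin, nsmul_eq_mul, mul_comm]

/-- `F` is nearly constant where `T` is small -/
theorem F_near (hr : 0 < r) (μ : Fin r → Measure X) [∀ i, IsProbabilityMeasure (μ i)]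
    {S : Finset (X → ℝ)} {e η : ℝ} (he : 0 ≤ e) (hη : 0 < η)
    (hS1 : ∀ g ∈ S, LipschitzWith 1 g)
    (hS : ∀ f : X → ℝ, LipschitzWith 1 f → ∃ g ∈ S, ∃ c : ℝ, ∀ t, |f t - c - g t| ≤ e)
    {y z : Fin r → X} (hz : T μ S Finset.univ z ≤ η ^ 2) :
    |F y - F z| ≤ 2 * (η + 2 * e) +
      Metric.diam (Set.univ : Set X) / η ^ 2 * T μ S Finset.univ y := by
  have hT0 : 0 ≤ T μ S Finset.univ y := Finset.sum_nonneg fun g _ => sq_nonneg _
  have hD0 : 0 ≤ Metric.diam (Set.univ : Set X) := Metric.diam_nonneg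
  have hr' : (0 : ℝ) < r := by exact_mod_cast hr
  by_cases hy : T μ S Finset.univ y ≤ η ^ 2
  · have h1 : ∀ f : X → ℝ, LipschitzWith 1 f →
        ∑ i, (f (y i) - f (z i)) ≤ 2 * (η + 2 * e) * r := by
      intro f hf
      have h2 := dev_of_T μ Finset.univ he hη.le hS1 hS hy hf
      have h3 := dev_of_T μ Finset.univ he hη.le hS1 hS hz hf
      have h4 : (∑ i, (f (y i) - f (z i))) / r = dev μ Finset.univ f y - dev μ Finset.univ f z := by
        unfold dev
        rw [← sub_div, ← Finset.sum_sub_distrib, Finset.card_univ, Fintype.card_fin]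
        congr 1
        refine Finset.sum_congr rfl fun i _ => ?_
        unfold cen
        ring
      rw [abs_le] at h2 h3
      have h5 : (∑ i, (f (y i) - f (z i))) / r ≤ 2 * (η + 2 * e) := by
        rw [h4]
        linarith [h2.1, h2.2, h3.1, h3.2]
      rwa [div_le_iff₀ hr'] at h5
    obtain ⟨σ, hσ⟩ := matching y z _ h1
    have h6 : |F y - F z| ≤ 2 * (η + 2 * e) := by
      rw [← hF.symm σ z]
      refine (hF.lipschitz y _).trans ?_
      rw [div_le_iff₀ hr']
      exact hσ
    have h7 : 0 ≤ Metric.diam (Set.univ : Set X) / η ^ 2 * T μ S Finset.univ y := by positivity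
    linarith
  · push Not at hy
    refine (F_diam hF y z).trans ?_
    have h8 : Metric.diam (Set.univ : Set X) ≤
        Metric.diam (Set.univ : Set X) / η ^ 2 * T μ S Finset.univ y := by
      rw [div_mul_eq_mul_div, le_div_iff₀ (by positivity)]
      exact mul_le_mul_of_nonneg_left hy.le hD0
    have h9 : 0 ≤ 2 * (η + 2 * e) := by positivity
    linarith

end

theorem symmetric_average (X : Type) [MetricSpace X] [CompactSpace X] [MeasurableSpace X]
    [BorelSpace X] {ε : ℝ} (hε : 0 < ε) : ∃ r₀ : ℕ, ∀ r : ℕ, r₀ ≤ r →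
    ∀ (K : Type) [Field K] [NumberField K] (A : Set (HeightOneSpectrum (𝓞 K))) (δ : ℝ)
      (μ : Fin r → Measure X) [∀ i, IsProbabilityMeasure (μ i)]
      (x : Fin r → HeightOneSpectrum (𝓞 K) → X), PairsEquidistributed A δ μ x →
      ∀ F : (Fin r → X) → ℝ, SymmetricLipschitz F →
        ∀ᶠ N in atTop, |avg (A.indicator fun v => F fun i => x i v) N -
          δ * ∫ y, F y ∂(Measure.pi μ)| ≤ ε * δ := by
  classical
  set D : ℝ := Metric.diam (Set.univ : Set X) with hD
  have hD0 : 0 ≤ D := Metric.diam_nonneg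
  obtain ⟨S, hS1, hS⟩ := net X (ε := ε / 32) (by positivity)
  set η : ℝ := ε / 16 with hη
  have hη0 : 0 < η := by positivity
  set κ : ℝ := min (η ^ 2) (ε * η ^ 2 / (8 * (D + 1))) with hκ
  have hκ0 : 0 < κ := lt_min (by positivity) (by positivity)
  refine ⟨⌈(S.card * D ^ 2) / κ⌉₊ + 1, ?_⟩
  intro r hr K _ _ A δ μ _ x hx F hF
  have hδ := hx.pos
  have hr0 : 0 < r := by omega
  have hr' : (0 : ℝ) < r := by exact_mod_cast hr0
  have hV : V μ S Finset.univ < κ := by
    have h1 := V_le μ S hS1 Finset.univ (by rw [Finset.card_univ, Fintype.card_fin]; exact hr0)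
    rw [Finset.card_univ, Fintype.card_fin] at h1
    refine h1.trans_lt ?_
    rw [div_lt_iff₀ hr']
    have h2 : (S.card * D ^ 2) / κ < r := by
      refine (Nat.le_ceil _).trans_lt ?_
      exact_mod_cast hr
    rw [div_lt_iff₀ hκ0] at h2
    linarith
  have hV1 : V μ S Finset.univ < η ^ 2 := hV.trans_le (min_le_left _ _)
  have hV2 : V μ S Finset.univ < ε * η ^ 2 / (8 * (D + 1)) := hV.trans_le (min_le_right _ _)
  have hTc : Continuous fun y : Fin r → X => T μ S Finset.univ y := by
    unfold T dev cen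
    refine continuous_finsetSum _ fun g hg => ?_
    have := (hS1 g hg).continuous
    fun_prop
  have hTi : Integrable (fun y : Fin r → X => T μ S Finset.univ y) (Measure.pi μ) :=
    integrable_of_continuous _ hTc
  have hFi : Integrable F (Measure.pi μ) := integrable_of_continuous _ (F_continuous hF)
  obtain ⟨z, hz⟩ : ∃ z : Fin r → X, T μ S Finset.univ z ≤ η ^ 2 := by
    by_contra hcon
    push Not at hcon
    have h1 : ∫ _y : Fin r → X, η ^ 2 ∂(Measure.pi μ) ≤
        ∫ y, T μ S Finset.univ y ∂(Measure.pi μ) :=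
      integral_mono (integrable_const _) hTi fun y => (hcon y).le
    rw [integral_T μ S hS1] at h1
    simp at h1
    linarith
  set c : ℝ := D / η ^ 2 with hc
  have hc0 : 0 ≤ c := by positivity
  set a : ℝ := 2 * (η + 2 * (ε / 32)) with ha
  have hpt : ∀ y, |F y - F z| ≤ a + c * T μ S Finset.univ y := fun y =>
    F_near hF hr0 μ (by positivity) hη0 hS1 hS hz
  have hcV : c * V μ S Finset.univ ≤ ε / 8 := by
    have h1 : c * V μ S Finset.univ ≤ c * (ε * η ^ 2 / (8 * (D + 1))) :=
      mul_le_mul_of_nonneg_left hV2.le hc0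
    refine h1.trans ?_
    have h2 : c * (ε * η ^ 2 / (8 * (D + 1))) = ε / 8 * (D / (D + 1)) := by
      rw [hc]
      field_simp
    rw [h2]
    have h3 : D / (D + 1) ≤ 1 := by
      rw [div_le_one (by linarith)]
      linarith
    nlinarith
  have hae : a = ε / 4 := by
    rw [ha, hη]
    ring
  clear_value a
  -- the integral
  have hint : |∫ y, F y ∂(Measure.pi μ) - F z| ≤ ε / 4 + ε / 8 := by
    have h1 : ∫ y, F y ∂(Measure.pi μ) - F z = ∫ y, (F y - F z) ∂(Measure.pi μ) := by
      rw [integral_sub hFi (integrable_const _)]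
      simp
    rw [h1]
    refine (abs_integral_le_integral_abs).trans ?_
    refine (integral_mono (g := fun y => a + c * T μ S Finset.univ y)
      (hFi.sub (integrable_const _)).abs
      ((integrable_const a).add (hTi.const_mul c)) hpt).trans ?_
    have h2 : ∫ y, (a + c * T μ S Finset.univ y) ∂(Measure.pi μ) = a + c * V μ S Finset.univ := by
      rw [integral_add (integrable_const a) (hTi.const_mul c), integral_const_mul,
        integral_T μ S hS1]
      simp
    rw [h2]
    linarith
  -- the averages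
  have hm : Mean A (fun v => a + c * T μ S Finset.univ fun i => x i v)
      (δ * (a + c * V μ S Finset.univ)) := by
    refine ((hx.density.mul a).add ((mean_T hx hS1 Finset.univ).mul c)).congr (fun v => ?_) ?_
    · simp
    · ring
  have h1 : ∀ᶠ N in atTop, avg (A.indicator fun v => a + c * T μ S Finset.univ fun i => x i v) N <
      δ * (a + c * V μ S Finset.univ) + δ * (ε / 8) :=
    (tendsto_order.1 hm).2 _ (by
      have : 0 < δ * (ε / 8) := by positivity
      linarith)
  have hmz : Mean A (fun _ => F z) (F z * δ) := by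
    refine (hx.density.mul (F z)).congr (fun v => ?_) rfl
    simp
  have h2 : ∀ᶠ N in atTop, |avg (A.indicator fun _ => F z) N - F z * δ| < δ * (ε / 8) := by
    have := (Metric.tendsto_nhds.1 hmz) (δ * (ε / 8)) (by positivity)
    simpa [Real.dist_eq] using this
  filter_upwards [h1, h2] with N hN1 hN2
  have h3 : |avg (A.indicator fun v => F fun i => x i v) N - avg (A.indicator fun _ => F z) N| ≤
      avg (A.indicator fun v => a + c * T μ S Finset.univ fun i => x i v) N := by
    rw [abs_le]
    constructor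
    · have h4 : avg (A.indicator fun _ => F z) N ≤
          avg (fun v => A.indicator (fun v => F fun i => x i v) v +
            A.indicator (fun v => a + c * T μ S Finset.univ fun i => x i v) v) N := by
        refine avg_mono (fun v => ?_) N
        by_cases hv : v ∈ A
        · simp only [Set.indicator_of_mem hv]
          have := hpt fun i => x i v
          rw [abs_le] at this
          linarith [this.1]
        · simp [Set.indicator_of_notMem hv]
      rw [avg_add] at h4
      linarith
    · have h4 : avg (A.indicator fun v => F fun i => x i v) N ≤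
          avg (fun v => A.indicator (fun _ => F z) v +
            A.indicator (fun v => a + c * T μ S Finset.univ fun i => x i v) v) N := by
        refine avg_mono (fun v => ?_) N
        by_cases hv : v ∈ A
        · simp only [Set.indicator_of_mem hv]
          have := hpt fun i => x i v
          rw [abs_le] at this
          linarith [this.2]
        · simp [Set.indicator_of_notMem hv]
      rw [avg_add] at h4
      linarith
  have h5 : |δ * ∫ y, F y ∂(Measure.pi μ) - F z * δ| ≤ δ * (ε / 4 + ε / 8) := by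
    have : δ * ∫ y, F y ∂(Measure.pi μ) - F z * δ = δ * (∫ y, F y ∂(Measure.pi μ) - F z) := by ring
    rw [this, abs_mul, abs_of_pos hδ]
    exact mul_le_mul_of_nonneg_left hint hδ.le
  have h6 : δ * (a + c * V μ S Finset.univ) ≤ δ * (ε / 4 + ε / 8) :=
    mul_le_mul_of_nonneg_left (by linarith) hδ.le
  rw [abs_le] at h3 h5 ⊢
  rw [abs_lt] at hN2
  constructor <;> nlinarith [h3.1, h3.2, h5.1, h5.2, hN2.1, hN2.2]

/-! ### the strong law -/

theorem interpolate (h : ℕ → ℝ) {D : ℝ} (hD : 0 ≤ D) (hh : ∀ i, |h i| ≤ D) {r s q M : ℕ}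
    (hs : 0 < s) (hsr : s ≤ r) (hrq : r < s + q) (hM : 0 < M) (hqM : M * q ≤ s) :
    |(∑ i ∈ Finset.range r, h i) / r| ≤ |(∑ i ∈ Finset.range s, h i) / s| + D / M := by
  have hs' : (0 : ℝ) < s := by exact_mod_cast hs
  have hr' : (0 : ℝ) < r := by exact_mod_cast hs.trans_le hsr
  have hM' : (0 : ℝ) < M := by exact_mod_cast hM
  have hsr' : (s : ℝ) ≤ r := by exact_mod_cast hsr
  have hrq' : (r : ℝ) ≤ s + q := by exact_mod_cast hrq.le
  have hqM' : (M : ℝ) * q ≤ s := by exact_mod_cast hqM
  rw [← Finset.sum_range_add_sum_Ico _ hsr, add_div]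
  refine (abs_add_le _ _).trans (add_le_add ?_ ?_)
  · rw [abs_div, abs_div, abs_of_pos hr', abs_of_pos hs']
    exact div_le_div_of_nonneg_left (abs_nonneg _) hs' hsr'
  · rw [abs_div, abs_of_pos hr', div_le_div_iff₀ hr' hM']
    have h1 : |∑ i ∈ Finset.Ico s r, h i| ≤ D * (r - s) := by
      refine (Finset.abs_sum_le_sum_abs _ _).trans ?_
      refine (Finset.sum_le_sum fun i _ => hh i).trans ?_
      rw [Finset.sum_const, Nat.card_Ico, nsmul_eq_mul, Nat.cast_sub hsr, mul_comm]
    have h2 : D * ((r : ℝ) - s) ≤ D * q := mul_le_mul_of_nonneg_left (by linarith) hD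
    have h3 : |∑ i ∈ Finset.Ico s r, h i| * M ≤ D * q * M :=
      mul_le_mul_of_nonneg_right (h1.trans h2) hM'.le
    refine h3.trans ?_
    have h4 : D * q * M = D * (M * q) := by ring
    rw [h4]
    exact mul_le_mul_of_nonneg_left (by linarith) hD

theorem geom_le (k : ℕ) (n : ℕ) : ∑ j ∈ Finset.Ico k n, ((1 : ℝ) / 2) ^ j ≤ 2 * (1 / 2) ^ k := by
  rcases le_or_gt k n with h | h
  · rw [Finset.sum_Ico_eq_sum_range]
    have h1 : ∀ m : ℕ, ∑ i ∈ Finset.range m, ((1 : ℝ) / 2) ^ (k + i) =
        (2 - 2 * (1 / 2) ^ m) * (1 / 2) ^ k := by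
      intro m
      induction m with
      | zero => simp
      | succ m ih =>
        rw [Finset.sum_range_succ, ih, pow_succ, pow_add]
        ring
    rw [h1]
    refine mul_le_mul_of_nonneg_right ?_ (by positivity)
    have : (0 : ℝ) ≤ 2 * (1 / 2) ^ (n - k) := by positivity
    linarith
  · rw [Finset.Ico_eq_empty (by omega)]
    simp only [Finset.sum_empty]
    positivity

section
variable {K : Type} [Field K] [NumberField K] {A : Set (HeightOneSpectrum (𝓞 K))} {δ : ℝ}

/-- Chebyshev's inequality for averages over primes. -/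
theorem upperDensity_of {F : HeightOneSpectrum (𝓞 K) → ℝ} {M : ℝ} (hF : Mean A F M)
    {E : Set (HeightOneSpectrum (𝓞 K))} (h0 : ∀ v, 0 ≤ F v) (h1 : ∀ v ∈ A, v ∈ E → 1 ≤ F v) :
    UpperDensityLE {v | v ∈ A ∧ v ∈ E} M := by
  intro ε hε
  have h2 : ∀ᶠ N in atTop, avg (A.indicator F) N < M + ε :=
    (tendsto_order.1 hF).2 _ (by linarith)
  filter_upwards [h2] with N hN
  refine le_trans (avg_mono (fun v => ?_) N) hN.le
  by_cases hv : v ∈ A
  · by_cases hE : v ∈ E
    · have : v ∈ {v | v ∈ A ∧ v ∈ E} := ⟨hv, hE⟩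
      rw [Set.indicator_of_mem this, Set.indicator_of_mem hv]
      exact h1 v hv hE
    · have : v ∉ {v | v ∈ A ∧ v ∈ E} := fun h => hE h.2
      rw [Set.indicator_of_notMem this, Set.indicator_of_mem hv]
      exact h0 v
  · have : v ∉ {v | v ∈ A ∧ v ∈ E} := fun h => hv h.1
    rw [Set.indicator_of_notMem this, Set.indicator_of_notMem hv]

theorem UpperDensityLE.mono {E : Set (HeightOneSpectrum (𝓞 K))} {a b : ℝ}
    (h : UpperDensityLE E a) (hab : a ≤ b) : UpperDensityLE E b := fun ε hε => by
  filter_upwards [h ε hε] with N hN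
  linarith

/-- The primes at which one of the deviations with `r₀ ≤ r ≤ R` is larger than `ε`. -/
def Bad (A : Set (HeightOneSpectrum (𝓞 K))) (μ : ℕ → Measure X)
    (x : ℕ → HeightOneSpectrum (𝓞 K) → X) (ε : ℝ) (r₀ R : ℕ) : Set (HeightOneSpectrum (𝓞 K)) :=
  {v | v ∈ A ∧ ∃ r, r₀ ≤ r ∧ r ≤ R ∧ ∃ f : X → ℝ, LipschitzWith 1 f ∧
    ε < |dev μ (Finset.range r) f fun i => x i v|}

end

theorem strong_bound (X : Type) [MetricSpace X] [CompactSpace X] [MeasurableSpace X]
    [BorelSpace X] {ε : ℝ} (hε : 0 < ε) : ∃ C : ℝ, 0 ≤ C ∧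
    ∀ (K : Type) [Field K] [NumberField K] (A : Set (HeightOneSpectrum (𝓞 K))) (δ : ℝ)
      (μ : ℕ → Measure X) [∀ i, IsProbabilityMeasure (μ i)]
      (x : ℕ → HeightOneSpectrum (𝓞 K) → X), PairsEquidistributed A δ μ x →
      ∀ r₀ : ℕ, 0 < r₀ → ∀ R : ℕ, UpperDensityLE (Bad A μ x ε r₀ R) (C * δ / r₀) := by
  classical
  set D : ℝ := Metric.diam (Set.univ : Set X) with hD
  have hD0 : 0 ≤ D := Metric.diam_nonneg
  obtain ⟨S, hS1, hS⟩ := net X (ε := ε / 8) (by positivity)
  set η : ℝ := ε / 4 with hη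
  have hη0 : 0 < η := by positivity
  set M : ℕ := ⌈2 * D / ε⌉₊ + 1 with hM
  have hM0 : 0 < M := by omega
  have hM' : (0 : ℝ) < M := by exact_mod_cast hM0
  have hDM : D / M ≤ ε / 2 := by
    rw [div_le_iff₀ hM']
    have h1 : 2 * D / ε ≤ M := (Nat.le_ceil _).trans (by rw [hM]; push_cast; linarith)
    rw [div_le_iff₀ hε] at h1
    linarith
  set Q : ℝ := S.card * D ^ 2 with hQ
  have hQ0 : 0 ≤ Q := by positivity
  refine ⟨M + 4 * M * Q / η ^ 2, by positivity, ?_⟩
  intro K _ _ A δ μ _ x hx r₀ hr₀ R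
  have hδ := hx.pos
  have hr₀' : (0 : ℝ) < r₀ := by exact_mod_cast hr₀
  rcases lt_or_ge r₀ M with hlt | hge
  · -- trivial bound
    have h1 : UpperDensityLE (Bad A μ x ε r₀ R) δ :=
      upperDensity_of (E := {v | ∃ r, r₀ ≤ r ∧ r ≤ R ∧ ∃ f : X → ℝ, LipschitzWith 1 f ∧
        ε < |dev μ (Finset.range r) f fun i => x i v|}) hx.density (fun _ => zero_le_one)
        fun _ _ _ => le_refl _
    refine h1.mono ?_
    rw [le_div_iff₀ hr₀']
    have h2 : (r₀ : ℝ) ≤ M := by exact_mod_cast hlt.le
    have h3 : 0 ≤ 4 * M * Q / η ^ 2 := by positivity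
    nlinarith
  · set k₀ : ℕ := Nat.log 2 (r₀ / M) with hk₀
    set k₁ : ℕ := Nat.log 2 (R / M) with hk₁
    -- the scales
    have hF : Mean A (fun v => ∑ k ∈ Finset.Ico k₀ (k₁ + 1), ∑ m ∈ Finset.Ico M (2 * M),
        (1 / η ^ 2) * T μ S (Finset.range (m * 2 ^ k)) (fun i => x i v))
        (∑ k ∈ Finset.Ico k₀ (k₁ + 1), ∑ m ∈ Finset.Ico M (2 * M),
        (1 / η ^ 2) * (δ * V μ S (Finset.range (m * 2 ^ k)))) :=
      Mean.sum _ fun k _ => Mean.sum _ fun m _ => (mean_T hx hS1 _).mul _
    have hle : (∑ k ∈ Finset.Ico k₀ (k₁ + 1), ∑ m ∈ Finset.Ico M (2 * M),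
        (1 / η ^ 2) * (δ * V μ S (Finset.range (m * 2 ^ k)))) ≤
        (M + 4 * M * Q / η ^ 2) * δ / r₀ := by
      have h1 : ∀ k ∈ Finset.Ico k₀ (k₁ + 1), ∑ m ∈ Finset.Ico M (2 * M),
          (1 / η ^ 2) * (δ * V μ S (Finset.range (m * 2 ^ k))) ≤
          (1 / η ^ 2) * δ * Q * (1 / 2) ^ k := by
        intro k _
        have h2 : ∀ m ∈ Finset.Ico M (2 * M),
            (1 / η ^ 2) * (δ * V μ S (Finset.range (m * 2 ^ k))) ≤
            (1 / η ^ 2) * δ * Q * (1 / 2) ^ k / M := by
          intro m hm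
          rw [Finset.mem_Ico] at hm
          have hm' : (M : ℝ) ≤ m := by exact_mod_cast hm.1
          have hpos : 0 < m * 2 ^ k := Nat.mul_pos (hM0.trans_le hm.1) (by positivity)
          have h3 := V_le μ S hS1 (Finset.range (m * 2 ^ k)) (by rw [Finset.card_range]; exact hpos)
          rw [Finset.card_range] at h3
          push_cast at h3
          have h4 : S.card * D ^ 2 / ((m : ℝ) * 2 ^ k) ≤ Q * (1 / 2) ^ k / M := by
            rw [← hQ, one_div, inv_pow, ← div_eq_mul_inv, div_div]
            refine div_le_div_of_nonneg_left hQ0 (by positivity) ?_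
            rw [mul_comm]
            exact mul_le_mul_of_nonneg_right hm' (by positivity)
          have h5 : V μ S (Finset.range (m * 2 ^ k)) ≤ Q * (1 / 2) ^ k / M := h3.trans h4
          have h6 : (1 / η ^ 2) * δ * Q * (1 / 2) ^ k / M =
              (1 / η ^ 2) * (δ * (Q * (1 / 2) ^ k / M)) := by ring
          rw [h6]
          exact mul_le_mul_of_nonneg_left (mul_le_mul_of_nonneg_left h5 hδ.le) (by positivity)
        refine (Finset.sum_le_sum h2).trans ?_
        rw [Finset.sum_const, Nat.card_Ico, nsmul_eq_mul]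
        have h7 : ((2 * M - M : ℕ) : ℝ) = M := by
          congr 1
          omega
        rw [h7]
        refine le_of_eq ?_
        field_simp
      refine (Finset.sum_le_sum h1).trans ?_
      rw [← Finset.mul_sum]
      have h8 : (1 / η ^ 2) * δ * Q * ∑ k ∈ Finset.Ico k₀ (k₁ + 1), ((1 : ℝ) / 2) ^ k ≤
          (1 / η ^ 2) * δ * Q * (2 * (1 / 2) ^ k₀) :=
        mul_le_mul_of_nonneg_left (geom_le _ _) (by positivity)
      refine h8.trans ?_
      have h9 : ((1 : ℝ) / 2) ^ k₀ ≤ 2 * M / r₀ := by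
        have h10 : r₀ / M < 2 ^ (k₀ + 1) := Nat.lt_pow_succ_log_self (by norm_num) _
        rw [Nat.div_lt_iff_lt_mul hM0] at h10
        have h11 : (r₀ : ℝ) ≤ 2 ^ (k₀ + 1) * M := by exact_mod_cast h10.le
        rw [le_div_iff₀ hr₀', one_div, inv_pow, inv_mul_le_iff₀ (by positivity)]
        rw [pow_succ] at h11
        linarith
      have h12 : (1 / η ^ 2) * δ * Q * (2 * (1 / 2) ^ k₀) ≤
          (1 / η ^ 2) * δ * Q * (2 * (2 * M / r₀)) :=
        mul_le_mul_of_nonneg_left (by linarith) (by positivity)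
      refine h12.trans ?_
      have h13 : (M + 4 * M * Q / η ^ 2) * δ / r₀ = M * δ / r₀ +
          (1 / η ^ 2) * δ * Q * (2 * (2 * M / r₀)) := by
        field_simp
        ring
      rw [h13]
      have : 0 ≤ M * δ / r₀ := by positivity
      linarith
    refine UpperDensityLE.mono ?_ hle
    refine upperDensity_of (E := {v | ∃ r, r₀ ≤ r ∧ r ≤ R ∧ ∃ f : X → ℝ, LipschitzWith 1 f ∧
        ε < |dev μ (Finset.range r) f fun i => x i v|}) hF (fun v => ?_) fun v _ hv => ?_
    · refine Finset.sum_nonneg fun k _ => Finset.sum_nonneg fun m _ => mul_nonneg (by positivity) ?_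
      exact Finset.sum_nonneg fun g _ => sq_nonneg _
    · obtain ⟨r, hr1, hr2, f, hf, hfr⟩ := hv
      set k : ℕ := Nat.log 2 (r / M) with hk
      set m : ℕ := r / 2 ^ k with hm
      have hrM : r / M ≠ 0 := by
        have : 0 < r / M := Nat.div_pos (hge.trans hr1) hM0
        omega
      have hpk : 0 < 2 ^ k := by positivity
      have h1 : 2 ^ k ≤ r / M := Nat.pow_log_le_self 2 hrM
      have h2 : r / M < 2 ^ (k + 1) := Nat.lt_pow_succ_log_self (by norm_num) _
      rw [Nat.le_div_iff_mul_le hM0] at h1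
      rw [Nat.div_lt_iff_lt_mul hM0] at h2
      have hkm : k ∈ Finset.Ico k₀ (k₁ + 1) := by
        rw [Finset.mem_Ico]
        refine ⟨Nat.log_mono_right (Nat.div_le_div_right hr1), Nat.lt_succ_of_le
          (Nat.log_mono_right (Nat.div_le_div_right hr2))⟩
      have hmm : m ∈ Finset.Ico M (2 * M) := by
        rw [Finset.mem_Ico]
        constructor
        · rw [hm, Nat.le_div_iff_mul_le hpk]
          linarith [mul_comm M (2 ^ k)]
        · rw [hm, Nat.div_lt_iff_lt_mul hpk]
          rw [pow_succ] at h2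
          linarith [mul_comm M (2 ^ k)]
      have hs1 : m * 2 ^ k ≤ r := Nat.div_mul_le_self r (2 ^ k)
      have hs2 : r < m * 2 ^ k + 2 ^ k := by
        have := Nat.lt_div_mul_add (a := r) hpk
        rw [hm]
        exact this
      have hmM : M ≤ m := (Finset.mem_Ico.1 hmm).1
      have hs0 : 0 < m * 2 ^ k := Nat.mul_pos (hM0.trans_le hmM) hpk
      have hint := interpolate (fun i => cen (μ i) f (x i v)) hD0 (fun i => cen_le (μ i) hf _) hs0
        hs1 hs2 hM0 (Nat.mul_le_mul_right _ hmM)
      have h3 : ε / 2 < |dev μ (Finset.range (m * 2 ^ k)) f fun i => x i v| := by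
        unfold dev at hfr ⊢
        rw [Finset.card_range] at hfr ⊢
        linarith
      have h4 : η ^ 2 < T μ S (Finset.range (m * 2 ^ k)) fun i => x i v := by
        by_contra hcon
        push Not at hcon
        have := dev_of_T μ (Finset.range (m * 2 ^ k)) (by positivity) hη0.le hS1 hS hcon hf
        rw [hη] at this
        linarith
      have h5 : 1 ≤ (1 / η ^ 2) * T μ S (Finset.range (m * 2 ^ k)) fun i => x i v := by
        rw [one_div, inv_mul_eq_div, le_div_iff₀ (by positivity), one_mul]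
        exact h4.le
      have hnn : ∀ k m : ℕ, 0 ≤ (1 / η ^ 2) * T μ S (Finset.range (m * 2 ^ k)) fun i => x i v :=
        fun k m => mul_nonneg (by positivity) (Finset.sum_nonneg fun g _ => sq_nonneg _)
      refine h5.trans ?_
      refine le_trans ?_ (Finset.single_le_sum (f := fun k => ∑ m ∈ Finset.Ico M (2 * M),
        (1 / η ^ 2) * T μ S (Finset.range (m * 2 ^ k)) fun i => x i v)
        (fun k _ => Finset.sum_nonneg fun m _ => hnn k m) hkm)
      exact Finset.single_le_sum (f := fun m =>
        (1 / η ^ 2) * T μ S (Finset.range (m * 2 ^ k)) fun i => x i v) (fun m _ => hnn k m) hmm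

/-- a sequence of statements which hold eventually can be made to hold along a slowly growing function -/
theorem diagonal (P : ℕ → ℕ → Prop) (h : ∀ R, ∀ᶠ N in atTop, P R N) :
    ∃ R : ℕ → ℕ, Monotone R ∧ Tendsto R atTop atTop ∧ ∀ᶠ N in atTop, P (R N) N := by
  classical
  choose n hn using fun R => eventually_atTop.1 (h R)
  refine ⟨fun N => Nat.findGreatest (fun R => n R ≤ N) N, ?_, ?_, ?_⟩
  · intro N N' hNN
    exact Nat.findGreatest_mono (fun R hR => le_trans hR hNN) hNN
  · rw [tendsto_atTop]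
    intro b
    filter_upwards [eventually_ge_atTop (max b (n b))] with N hN
    exact Nat.le_findGreatest (le_trans (le_max_left _ _) hN) (le_trans (le_max_right _ _) hN)
  · filter_upwards [eventually_ge_atTop (n 0)] with N hN
    exact hn _ _ (Nat.findGreatest_spec (P := fun R => n R ≤ N) (Nat.zero_le N) hN)

section
variable {K : Type} [Field K] [NumberField K]

theorem avg_mono_le {g h : HeightOneSpectrum (𝓞 K) → ℝ} (N : ℕ)
    (hgh : ∀ v : HeightOneSpectrum (𝓞 K), Ideal.absNorm v.asIdeal ≤ N → g v ≤ h v) :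
    avg g N ≤ avg h N := by
  have := finite_le (K := K) N
  unfold avg
  exact div_le_div_of_nonneg_right (finsum_le_finsum' (Set.toFinite _) (Set.toFinite _)
    (fun v => hgh v.1 v.2)) (Nat.cast_nonneg _)

end

theorem strong_law (X : Type) [MetricSpace X] [CompactSpace X] [MeasurableSpace X]
    [BorelSpace X] : ∃ C : ℝ → ℝ,
    ∀ (K : Type) [Field K] [NumberField K] (A : Set (HeightOneSpectrum (𝓞 K))) (δ : ℝ)
      (μ : ℕ → Measure X) [∀ i, IsProbabilityMeasure (μ i)]
      (x : ℕ → HeightOneSpectrum (𝓞 K) → X), PairsEquidistributed A δ μ x →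
      (∀ ε : ℝ, 0 < ε → ∀ r₀ : ℕ, 0 < r₀ → ∀ R : ℕ,
        UpperDensityLE (Bad A μ x ε r₀ R) (C ε * δ / r₀)) ∧
      ∃ R : ℕ → ℕ, Monotone R ∧ Tendsto R atTop atTop ∧ ∀ ε : ℝ, 0 < ε → ∀ r₀ : ℕ, 0 < r₀ →
        UpperDensityLE {v | v ∈ Bad A μ x ε r₀ (R (Ideal.absNorm v.asIdeal))} (C ε * δ / r₀) := by
  classical
  choose C hC0 hC using fun n : ℕ => strong_bound X (ε := 1 / ((n : ℝ) + 1)) (by positivity)
  refine ⟨fun ε => C ⌈1 / ε⌉₊, ?_⟩
  intro K _ _ A δ μ _ x hx
  have hdown : ∀ ε : ℝ, 0 < ε → 1 / ((⌈1 / ε⌉₊ : ℝ) + 1) ≤ ε := by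
    intro ε hε
    rw [div_le_iff₀ (by positivity)]
    have h1 := Nat.le_ceil (1 / ε)
    rw [div_le_iff₀ hε] at h1
    nlinarith
  have hsub : ∀ {a b : ℝ} (r₀ : ℕ) {R R' : ℕ}, a ≤ b → R ≤ R' →
      Bad A μ x b r₀ R ⊆ Bad A μ x a r₀ R' := by
    intro a b r₀ R R' hab hR v hv
    obtain ⟨h1, r, h2, h3, f, h4, h5⟩ := hv
    exact ⟨h1, r, h2, h3.trans hR, f, h4, hab.trans_lt h5⟩
  refine ⟨fun ε hε r₀ hr₀ R => ?_, ?_⟩
  · intro η hη
    filter_upwards [hC ⌈1 / ε⌉₊ K A δ μ x hx r₀ hr₀ R η hη] with N hN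
    refine le_trans (avg_mono (fun v => ?_) N) hN
    exact Set.indicator_le_indicator_of_subset (hsub r₀ (hdown ε hε) le_rfl)
      (fun _ => zero_le_one) v
  · obtain ⟨R, hRm, hRt, hR⟩ := diagonal (fun R N => ∀ n ∈ Finset.range (R + 1),
      ∀ r₀ ∈ Finset.Icc 1 R, avg ((Bad A μ x (1 / ((n : ℝ) + 1)) r₀ R).indicator fun _ => 1) N ≤
        C n * δ / r₀ + 1 / ((R : ℝ) + 1)) (by
      intro R
      rw [Filter.eventually_all_finset]
      intro n _
      rw [Filter.eventually_all_finset]
      intro r₀ hr₀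
      rw [Finset.mem_Icc] at hr₀
      exact hC n K A δ μ x hx r₀ hr₀.1 R _ (by positivity))
    refine ⟨R, hRm, hRt, fun ε hε r₀ hr₀ η hη => ?_⟩
    set n : ℕ := ⌈1 / ε⌉₊ with hn
    filter_upwards [hR, hRt.eventually_ge_atTop n, hRt.eventually_ge_atTop r₀,
      hRt.eventually_ge_atTop ⌈1 / η⌉₊] with N hN hNn hNr hNη
    have h1 := hN n (by rw [Finset.mem_range]; omega) r₀ (by rw [Finset.mem_Icc]; omega)
    have h2 : 1 / ((R N : ℝ) + 1) ≤ η := by
      rw [div_le_iff₀ (by positivity)]
      have h3 := Nat.le_ceil (1 / η)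
      rw [div_le_iff₀ hη] at h3
      have h4 : (⌈1 / η⌉₊ : ℝ) ≤ R N := by exact_mod_cast hNη
      nlinarith
    refine le_trans (avg_mono_le N fun v hv => ?_) (h1.trans (by linarith))
    by_cases hvb : v ∈ {v | v ∈ Bad A μ x ε r₀ (R (Ideal.absNorm v.asIdeal))}
    · rw [Set.indicator_of_mem hvb, Set.indicator_of_mem]
      exact hsub r₀ (hdown ε hε) (hRm hv) hvb
    · rw [Set.indicator_of_notMem hvb]
      exact Set.indicator_nonneg (fun _ _ => zero_le_one) v

/-- Let `X` be a compact metric space and, for `i` in a set of indices, `x_i(v) ∈ X` (`v` a prime of a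
number field `K`) such that for the `v ∈ A` the pairs `(x_i(v), x_j(v))`, `i ≠ j`, are equidistributed for
the products `μ_i × μ_j` of probability measures.

1. For every `ε > 0` there is an `r₀`, depending only on `X` and `ε`, such that for all `r ≥ r₀`, all `K`,
`A`, `μ` and `x` and all symmetric `F : X ^ r → ℝ` with `|F y - F z| ≤ (1 / r) ∑ d(y_i, z_i)`, the
average of `F (x_1(v), ..., x_r(v))` over the `v ∈ A` of norm at most `N` is within `ε` of
`∫ F d(μ_1 × ... × μ_r)`, for all large `N` (the average and `δ` are normalised by all primes).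

2. There is `C(ε)`, depending only on `X` and `ε`, such that for every sequence `x_0, x_1, ...`, all
`ε > 0` and `r₀ ≥ 1` and all `R` the `v ∈ A` at which for some `r₀ ≤ r ≤ R` and some `f` with Lipschitz
constant one `|(1 / r) ∑_{i < r} (f (x_i(v)) - ∫ f dμ_i)| > ε` have upper density at most `C(ε) δ / r₀`.

3. For every sequence there is a function `R` with `R(N) → ∞` such that this holds with `R` replaced by
`R(N v)`. -/
theorem result (X : Type) [MetricSpace X] [CompactSpace X] [MeasurableSpace X] [BorelSpace X] :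
    (∀ ε : ℝ, 0 < ε → ∃ r₀ : ℕ, ∀ r : ℕ, r₀ ≤ r →
      ∀ (K : Type) [Field K] [NumberField K] (A : Set (HeightOneSpectrum (𝓞 K))) (δ : ℝ)
        (μ : Fin r → Measure X) [∀ i, IsProbabilityMeasure (μ i)]
        (x : Fin r → HeightOneSpectrum (𝓞 K) → X), PairsEquidistributed A δ μ x →
        ∀ F : (Fin r → X) → ℝ, SymmetricLipschitz F →
          ∀ᶠ N in atTop, |avg (A.indicator fun v => F fun i => x i v) N -
            δ * ∫ y, F y ∂(Measure.pi μ)| ≤ ε * δ) ∧
    ∃ C : ℝ → ℝ, ∀ (K : Type) [Field K] [NumberField K] (A : Set (HeightOneSpectrum (𝓞 K))) (δ : ℝ)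
      (μ : ℕ → Measure X) [∀ i, IsProbabilityMeasure (μ i)]
      (x : ℕ → HeightOneSpectrum (𝓞 K) → X), PairsEquidistributed A δ μ x →
      (∀ ε : ℝ, 0 < ε → ∀ r₀ : ℕ, 0 < r₀ → ∀ R : ℕ,
        UpperDensityLE {v | v ∈ A ∧ ∃ r, r₀ ≤ r ∧ r ≤ R ∧ ∃ f : X → ℝ, LipschitzWith 1 f ∧
          ε < |(∑ i ∈ Finset.range r, (f (x i v) - ∫ t, f t ∂(μ i))) / r|} (C ε * δ / r₀)) ∧
      ∃ R : ℕ → ℕ, Tendsto R atTop atTop ∧ ∀ ε : ℝ, 0 < ε → ∀ r₀ : ℕ, 0 < r₀ →
        UpperDensityLE {v | v ∈ A ∧ ∃ r, r₀ ≤ r ∧ r ≤ R (Ideal.absNorm v.asIdeal) ∧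
          ∃ f : X → ℝ, LipschitzWith 1 f ∧
          ε < |(∑ i ∈ Finset.range r, (f (x i v) - ∫ t, f t ∂(μ i))) / r|} (C ε * δ / r₀) := by
  refine ⟨fun ε hε => symmetric_average X hε, ?_⟩
  obtain ⟨C, hC⟩ := strong_law X
  refine ⟨C, ?_⟩
  intro K _ _ A δ μ _ x hx
  obtain ⟨h1, R, -, hRt, h2⟩ := hC K A δ μ x hx
  have e : ∀ (r : ℕ) (f : X → ℝ) (v : HeightOneSpectrum (𝓞 K)),
      (∑ i ∈ Finset.range r, (f (x i v) - ∫ t, f t ∂(μ i))) / r =
        dev μ (Finset.range r) f fun i => x i v := by
    intro r f v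
    unfold dev cen
    rw [Finset.card_range]
  simp only [e]
  exact ⟨h1, R, hRt, h2⟩

end Pool.Agent.Results.MP_4c4ce6_nt.LawOfLargeNumbers
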