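import Mathlib

/-!
# Sums of families of odd weight: the trace is positive for more than 1/6 of the primes

`K` is any number field and `x_i(v)`, `i ∈ ι`, are the normalised traces of Frobenius
`tr Frob_v / (N v) ^ (w/2)` of the families of two-dimensional representations of odd weight `w` attached
to elliptic curves without complex multiplication over `K` (`w = 1`, modular), pairwise not isogenous over
extensions of `K`, or to newforms without complex multiplication of one even weight `w + 1`, no two of them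
twists of each other.  For `V = ⊕ V_i ^ c_i` the normalised trace of Frobenius is `∑ c_i x_i(v)`.
`A` is the set of all primes, or the set of the primes in a ray class, or the primes with a given Frobenius
class in a solvable extension; `δ` is its density.

What is used of the `x_i` is `DegreeFour`: if the exponents `a_i` have sum at most four, and are not all
zero, then the average over `A` of the product of the traces of the `a_i`-th symmetric powers is zero.
These are the cases in which `L(s, ⊗ Sym^(a_i) V_i ⊗ χ)` is known, over every number field, to have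
no zeros and poles on the edge (symmetric powers: Gelbart and Jacquet, Kim and Shahidi, Kim;
`V_i ⊠ V_j`: Ramakrishnan; Rankin-Selberg `L`-functions: Jacquet, Piatetski-Shapiro, Shalika, Shahidi).
-/

set_option autoImplicit false

namespace Pool.Agent.Results.MP_4c4ce6_nt.LinearCombinations

open NumberField IsDedekindDomain Filter Topology

section
variable {K : Type} [Field K] [NumberField K]

/-- The average of `g` over the primes of `K` of norm at most `N`. -/
noncomputable def avg (g : HeightOneSpectrum (𝓞 K) → ℝ) (N : ℕ) : ℝ :=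
  (∑ᶠ v : {v : HeightOneSpectrum (𝓞 K) // Ideal.absNorm v.asIdeal ≤ N}, g v.1) /
    (Nat.card {v : HeightOneSpectrum (𝓞 K) // Ideal.absNorm v.asIdeal ≤ N} : ℝ)

/-- `U a (2 cos θ) = sin ((a + 1) θ) / sin θ`: the trace of the `a`-th symmetric power of an element of
`SU(2)` with trace `2 cos θ`. -/
noncomputable def U (a : ℕ) (x : ℝ) : ℝ := (Polynomial.Chebyshev.S ℝ a).eval x

/-- The set `A` of primes of `K` has density `δ`. -/
def HasDensity (A : Set (HeightOneSpectrum (𝓞 K))) (δ : ℝ) : Prop :=
  Tendsto (avg (A.indicator fun _ => 1)) atTop (𝓝 δ)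

/-- All products of symmetric power traces of total degree at most four (and not of degree zero) have
average zero over the primes of `A`. -/
def DegreeFour {ι : Type} (A : Set (HeightOneSpectrum (𝓞 K)))
    (x : ι → HeightOneSpectrum (𝓞 K) → ℝ) : Prop :=
  ∀ (s : Finset ι) (a : ι → ℕ), s.Nonempty → (∀ i ∈ s, 1 ≤ a i) → ∑ i ∈ s, a i ≤ 4 →
    Tendsto (avg (A.indicator fun v => ∏ i ∈ s, U (a i) (x i v))) atTop (𝓝 0)

/-- The set `A` of primes of `K` has lower density at least `δ`. -/
def LowerDensity (A : Set (HeightOneSpectrum (𝓞 K))) (δ : ℝ) : Prop :=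
  ∀ ε : ℝ, 0 < ε → ∀ᶠ N in atTop, δ - ε ≤ avg (A.indicator fun _ => 1) N

/-! ### averages -/

theorem finite_le (N : ℕ) :
    Finite {v : HeightOneSpectrum (𝓞 K) // Ideal.absNorm v.asIdeal ≤ N} := by
  have h : {I : Ideal (𝓞 K) | Ideal.absNorm I ≤ N}.Finite := Ideal.finite_setOfPred_absNorm_le N
  have h' : Finite {I : Ideal (𝓞 K) // Ideal.absNorm I ≤ N} := h
  exact Finite.of_injective
    (fun v : {v : HeightOneSpectrum (𝓞 K) // Ideal.absNorm v.asIdeal ≤ N} =>
      (⟨v.1.asIdeal, v.2⟩ : {I : Ideal (𝓞 K) // Ideal.absNorm I ≤ N}))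
    (fun v w hvw => Subtype.ext (HeightOneSpectrum.ext (congrArg Subtype.val hvw)))

theorem avg_add (g h : HeightOneSpectrum (𝓞 K) → ℝ) (N : ℕ) :
    avg (fun v => g v + h v) N = avg g N + avg h N := by
  have := finite_le (K := K) N
  unfold avg
  rw [finsum_add_distrib (Set.toFinite _) (Set.toFinite _), add_div]

theorem avg_mul (c : ℝ) (g : HeightOneSpectrum (𝓞 K) → ℝ) (N : ℕ) :
    avg (fun v => c * g v) N = c * avg g N := by
  have := finite_le (K := K) N
  unfold avg
  rw [← mul_div_assoc, mul_finsum]

theorem avg_mono {g h : HeightOneSpectrum (𝓞 K) → ℝ} (hgh : ∀ v, g v ≤ h v) (N : ℕ) :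
    avg g N ≤ avg h N := by
  have := finite_le (K := K) N
  unfold avg
  exact div_le_div_of_nonneg_right (finsum_le_finsum' (Set.toFinite _) (Set.toFinite _)
    (fun v => hgh v.1)) (Nat.cast_nonneg _)

section
variable {A : Set (HeightOneSpectrum (𝓞 K))} {δ : ℝ}

/-- the average of `g` over `A` tends to `L` -/
def Mean (A : Set (HeightOneSpectrum (𝓞 K))) (δ : ℝ) (g : HeightOneSpectrum (𝓞 K) → ℝ)
    (L : ℝ) : Prop := Tendsto (avg (A.indicator g)) atTop (𝓝 (δ * L))

theorem Mean.add {g h : HeightOneSpectrum (𝓞 K) → ℝ} {L M : ℝ} (hg : Mean A δ g L)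
    (hh : Mean A δ h M) : Mean A δ (fun v => g v + h v) (L + M) := by
  unfold Mean at *
  have : avg (A.indicator fun v => g v + h v) =
      fun N => avg (A.indicator g) N + avg (A.indicator h) N := funext fun N => by
    rw [← avg_add]
    congr 1
    funext v
    by_cases hv : v ∈ A <;> simp [hv]
  rw [this, mul_add]
  exact hg.add hh

theorem Mean.mul {g : HeightOneSpectrum (𝓞 K) → ℝ} {L : ℝ} (c : ℝ) (hg : Mean A δ g L) :
    Mean A δ (fun v => c * g v) (c * L) := by
  unfold Mean at *
  have : avg (A.indicator fun v => c * g v) = fun N => c * avg (A.indicator g) N :=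
    funext fun N => by
      rw [← avg_mul]
      congr 1
      funext v
      by_cases hv : v ∈ A <;> simp [hv]
  have h2 : δ * (c * L) = c * (δ * L) := by ring
  rw [this, h2]
  exact hg.const_mul c

theorem Mean.congr {g h : HeightOneSpectrum (𝓞 K) → ℝ} {L M : ℝ} (hg : Mean A δ g L)
    (h1 : ∀ v, h v = g v) (h2 : M = L) : Mean A δ h M := by
  rw [funext h1, h2]
  exact hg

theorem mean_one (hA : HasDensity A δ) : Mean A δ (fun _ => (1 : ℝ)) 1 := by
  unfold Mean
  rw [mul_one]
  exact hA

theorem Mean.sum (hA : HasDensity A δ) {κ : Type} (T : Finset κ)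
    {g : κ → HeightOneSpectrum (𝓞 K) → ℝ} {L : κ → ℝ} (h : ∀ k ∈ T, Mean A δ (g k) (L k)) :
    Mean A δ (fun v => ∑ k ∈ T, g k v) (∑ k ∈ T, L k) := by
  classical
  induction T using Finset.induction_on with
  | empty => exact ((mean_one hA).mul 0).congr (fun v => by simp) (by simp)
  | insert k T hk ih =>
    refine ((h k (Finset.mem_insert_self _ _)).add
      (ih fun j hj => h j (Finset.mem_insert_of_mem hj))).congr (fun v => ?_) ?_
    · rw [Finset.sum_insert hk]
    · rw [Finset.sum_insert hk]

/-! ### moments of total degree at most four -/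

theorem U_one (y : ℝ) : U 1 y = y := by simp [U]

theorem U_two (y : ℝ) : U 2 y = y ^ 2 - 1 := by
  have : ((2 : ℕ) : ℤ) = 2 := rfl
  simp [U, Polynomial.Chebyshev.S_two]

theorem U_three (y : ℝ) : U 3 y = y ^ 3 - 2 * y := by
  have h : ((3 : ℕ) : ℤ) = 1 + 2 := rfl
  unfold U
  rw [h, Polynomial.Chebyshev.S_add_two]
  have h' : (1 : ℤ) + 1 = 2 := rfl
  rw [h', Polynomial.Chebyshev.S_two, Polynomial.Chebyshev.S_one]
  simp
  ring

theorem U_four (y : ℝ) : U 4 y = y ^ 4 - 3 * y ^ 2 + 1 := by
  have h : ((4 : ℕ) : ℤ) = 2 + 2 := rfl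
  unfold U
  rw [h, Polynomial.Chebyshev.S_add_two]
  have h3 : (2 : ℤ) + 1 = 1 + 2 := rfl
  rw [h3, Polynomial.Chebyshev.S_add_two]
  have h' : (1 : ℤ) + 1 = 2 := rfl
  rw [h', Polynomial.Chebyshev.S_two, Polynomial.Chebyshev.S_one]
  simp
  ring

section
variable {ι : Type} {x : ι → HeightOneSpectrum (𝓞 K) → ℝ}

theorem DegreeFour.one (hx : DegreeFour A x) (i : ι) {a : ℕ} (ha : 1 ≤ a) (h4 : a ≤ 4) :
    Mean A δ (fun v => U a (x i v)) 0 := by
  have h := hx {i} (fun _ => a) (by simp) (by simpa using ha) (by simpa using h4)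
  simp only [Finset.prod_singleton] at h
  unfold Mean
  rw [mul_zero]
  exact h

theorem DegreeFour.two (hx : DegreeFour A x) {i j : ι} (hij : i ≠ j) {a b : ℕ} (ha : 1 ≤ a)
    (hb : 1 ≤ b) (h4 : a + b ≤ 4) : Mean A δ (fun v => U a (x i v) * U b (x j v)) 0 := by
  classical
  have hji : j ≠ i := hij.symm
  have h := hx {i, j} (fun k => if k = i then a else b) (by simp)
    (by simp [hij.symm, ha, hb]) (by
      rw [Finset.sum_pair hij]; simpa [hji] using h4)
  unfold Mean
  rw [mul_zero]
  convert h using 4 with v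
  rw [Finset.prod_pair hij]
  simp [hji]

theorem DegreeFour.three (hx : DegreeFour A x) {i j k : ι} (hij : i ≠ j) (hik : i ≠ k)
    (hjk : j ≠ k) {a b c : ℕ} (ha : 1 ≤ a) (hb : 1 ≤ b) (hc : 1 ≤ c) (h4 : a + b + c ≤ 4) :
    Mean A δ (fun v => U a (x i v) * U b (x j v) * U c (x k v)) 0 := by
  classical
  have h := hx {i, j, k} (fun m => if m = i then a else if m = j then b else c) (by simp)
    (by simp [hij.symm, hik.symm, hjk.symm, ha, hb, hc]) (by
      rw [Finset.sum_insert (by simp [hij, hik]), Finset.sum_pair hjk]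
      simp only [hij.symm, hik.symm, hjk.symm, if_true, if_false]; omega)
  unfold Mean
  rw [mul_zero]
  convert h using 4 with v
  rw [Finset.prod_insert (by simp [hij, hik]), Finset.prod_pair hjk]
  simp only [hij.symm, hik.symm, hjk.symm, if_true, if_false]
  ring

theorem DegreeFour.four (hx : DegreeFour A x) {i j k l : ι} (hij : i ≠ j) (hik : i ≠ k)
    (hil : i ≠ l) (hjk : j ≠ k) (hjl : j ≠ l) (hkl : k ≠ l) :
    Mean A δ (fun v => x i v * x j v * x k v * x l v) 0 := by
  classical
  have h := hx {i, j, k, l} (fun _ => 1) (by simp) (by simp) (by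
    rw [Finset.sum_const, smul_eq_mul, mul_one]
    exact Finset.card_le_four)
  unfold Mean
  rw [mul_zero]
  convert h using 4 with v
  rw [Finset.prod_insert (by simp [hij, hik, hil]), Finset.prod_insert (by simp [hjk, hjl]),
    Finset.prod_pair hkl]
  simp only [U_one]
  ring

theorem DegreeFour.m1 (hx : DegreeFour A x) (i : ι) : Mean A δ (x i) 0 :=
  (hx.one i le_rfl (by norm_num)).congr (fun v => (U_one _).symm) rfl

theorem DegreeFour.m2 (hx : DegreeFour A x) (hA : HasDensity A δ) [DecidableEq ι] (i j : ι) :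
    Mean A δ (fun v => x i v * x j v) (if i = j then 1 else 0) := by
  by_cases hij : i = j
  · subst hij
    refine ((hx.one i (a := 2) (by norm_num) (by norm_num)).add (mean_one hA)).congr (fun v => ?_)
      (by simp)
    rw [U_two]; ring
  · refine (hx.two hij (a := 1) (b := 1) le_rfl le_rfl (by norm_num)).congr (fun v => ?_)
      (by simp [hij])
    simp only [U_one]

theorem DegreeFour.m3 (hx : DegreeFour A x) (i j k : ι) :
    Mean A δ (fun v => x i v * x j v * x k v) 0 := by
  classical
  have h21 : ∀ i j : ι, i ≠ j → Mean A δ (fun v => x i v * x i v * x j v) 0 := fun i j hij => by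
    refine ((hx.two hij (a := 2) (b := 1) (by norm_num) le_rfl (by norm_num)).add
      (hx.m1 j)).congr (fun v => ?_) (by simp)
    rw [U_two, U_one]; ring
  by_cases hij : i = j
  · subst hij
    by_cases hik : i = k
    · subst hik
      refine ((hx.one i (a := 3) (by norm_num) (by norm_num)).add
        ((hx.m1 i).mul 2)).congr (fun v => ?_) (by simp)
      rw [U_three]; ring
    · exact h21 i k hik
  · by_cases hik : i = k
    · subst hik
      exact (h21 i j hij).congr (fun v => by ring) rfl
    · by_cases hjk : j = k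
      · subst hjk
        exact (h21 j i (Ne.symm hij)).congr (fun v => by ring) rfl
      · refine (hx.three hij hik hjk (a := 1) (b := 1) (c := 1) le_rfl le_rfl le_rfl
          (by norm_num)).congr (fun v => ?_) rfl
        simp only [U_one]

theorem DegreeFour.m4 (hx : DegreeFour A x) (hA : HasDensity A δ) [DecidableEq ι] (i j k l : ι) :
    Mean A δ (fun v => x i v * x j v * (x k v * x l v))
      ((if i = j then 1 else 0) * (if k = l then 1 else 0) +
        (if i = k then 1 else 0) * (if j = l then 1 else 0) +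
        (if i = l then 1 else 0) * (if j = k then 1 else 0) -
        (if i = j then 1 else 0) * (if j = k then 1 else 0) * (if k = l then 1 else 0)) := by
  have h4 : ∀ i : ι, Mean A δ (fun v => x i v ^ 4) 2 := fun i => by
    refine (((hx.one i (a := 4) (by norm_num) le_rfl).add
      ((hx.one i (a := 2) (by norm_num) (by norm_num)).mul 3)).add ((mean_one hA).mul 2)).congr
      (fun v => ?_) (by norm_num)
    rw [U_four, U_two]; ring
  have h31 : ∀ i j : ι, i ≠ j → Mean A δ (fun v => x i v ^ 3 * x j v) 0 := fun i j hij => by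
    refine ((hx.two hij (a := 3) (b := 1) (by norm_num) le_rfl le_rfl).add
      ((hx.two hij (a := 1) (b := 1) le_rfl le_rfl (by norm_num)).mul 2)).congr (fun v => ?_)
      (by norm_num)
    rw [U_three, U_one, U_one]; ring
  have h22 : ∀ i j : ι, i ≠ j → Mean A δ (fun v => x i v ^ 2 * x j v ^ 2) 1 := fun i j hij => by
    refine ((((hx.two hij (a := 2) (b := 2) (by norm_num) (by norm_num) le_rfl).add
      (hx.one i (a := 2) (by norm_num) (by norm_num))).add
      (hx.one j (a := 2) (by norm_num) (by norm_num))).add (mean_one hA)).congr (fun v => ?_)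
      (by norm_num)
    rw [U_two, U_two]; ring
  have h211 : ∀ i j k : ι, i ≠ j → i ≠ k → j ≠ k →
      Mean A δ (fun v => x i v ^ 2 * x j v * x k v) 0 := fun i j k hij hik hjk => by
    refine ((hx.three hij hik hjk (a := 2) (b := 1) (c := 1) (by norm_num) le_rfl le_rfl
      le_rfl).add (hx.two hjk (a := 1) (b := 1) le_rfl le_rfl (by norm_num))).congr
      (fun v => ?_) (by norm_num)
    rw [U_two, U_one, U_one]; ring
  by_cases hij : i = j
  · subst hij
    by_cases hik : i = k
    · subst hik
      by_cases hil : i = l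
      · subst hil
        exact (h4 i).congr (fun v => by ring) (by simp; norm_num)
      · exact (h31 i l hil).congr (fun v => by ring) (by simp [hil])
    · by_cases hil : i = l
      · subst hil
        exact (h31 i k hik).congr (fun v => by ring) (by simp [hik, Ne.symm hik])
      · by_cases hkl : k = l
        · subst hkl
          exact (h22 i k hik).congr (fun v => by ring) (by simp [hik])
        · exact (h211 i k l hik hil hkl).congr (fun v => by ring) (by simp [hik, hil, hkl])
  · by_cases hik : i = k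
    · subst hik
      by_cases hil : i = l
      · subst hil
        exact (h31 i j hij).congr (fun v => by ring) (by simp [hij, Ne.symm hij])
      · by_cases hjl : j = l
        · subst hjl
          exact (h22 i j hij).congr (fun v => by ring) (by simp [hij])
        · exact (h211 i j l hij hil hjl).congr (fun v => by ring) (by simp [hij, hil, hjl])
    · by_cases hil : i = l
      · subst hil
        by_cases hjk : j = k
        · subst hjk
          exact (h22 i j hij).congr (fun v => by ring) (by simp [hij, Ne.symm hij])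
        · exact (h211 i j k hij hik hjk).congr (fun v => by ring)
            (by simp [hij, hik, hjk, Ne.symm hik])
      · by_cases hjk : j = k
        · subst hjk
          by_cases hjl : j = l
          · subst hjl
            exact (h31 j i (Ne.symm hij)).congr (fun v => by ring) (by simp [hij])
          · exact (h211 j i l (Ne.symm hij) hjl hil).congr (fun v => by ring)
              (by simp [hij, hil, hjl])
        · by_cases hjl : j = l
          · subst hjl
            exact (h211 j i k (Ne.symm hij) hjk hik).congr (fun v => by ring)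
              (by simp [hij, hik, hjk, Ne.symm hjk])
          · by_cases hkl : k = l
            · subst hkl
              exact (h211 k i j (Ne.symm hik) (Ne.symm hjk) hij).congr (fun v => by ring)
                (by simp [hij, hik, hjk])
            · refine (hx.four hij hik hil hjk hjl hkl).congr (fun v => by ring)
                (by simp [hij, hik, hil, hjk, hjl, hkl])

/-- the linear combination `∑ c_i x_i(v)` -/
noncomputable def comb [Fintype ι] (x : ι → HeightOneSpectrum (𝓞 K) → ℝ) (c : ι → ℝ)
    (v : HeightOneSpectrum (𝓞 K)) : ℝ := ∑ i, c i * x i v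

theorem DegreeFour.t1 [Fintype ι] (hx : DegreeFour A x) (hA : HasDensity A δ) (c : ι → ℝ) : Mean A δ (comb x c) 0 :=
  (Mean.sum hA Finset.univ fun i _ => (hx.m1 i).mul (c i)).congr (fun v => rfl) (by simp)

theorem DegreeFour.t2 [Fintype ι] (hx : DegreeFour A x) (hA : HasDensity A δ) (c : ι → ℝ) :
    Mean A δ (fun v => comb x c v ^ 2) (∑ i, c i ^ 2) := by
  classical
  refine (Mean.sum hA Finset.univ fun i _ => Mean.sum hA Finset.univ fun j _ =>
    (hx.m2 hA i j).mul (c i * c j)).congr (fun v => ?_) ?_
  · rw [comb, sq, Finset.sum_mul_sum]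
    exact Finset.sum_congr rfl fun i _ => Finset.sum_congr rfl fun j _ => by ring
  · simp [sq]

theorem DegreeFour.t3 [Fintype ι] (hx : DegreeFour A x) (hA : HasDensity A δ) (c : ι → ℝ) :
    Mean A δ (fun v => comb x c v ^ 3) 0 := by
  classical
  refine (Mean.sum hA Finset.univ fun i _ => Mean.sum hA Finset.univ fun j _ =>
    Mean.sum hA Finset.univ fun k _ => (hx.m3 i j k).mul (c i * c j * c k)).congr (fun v => ?_) ?_
  · rw [comb, pow_succ, sq, Finset.sum_mul_sum, Finset.sum_mul]
    refine Finset.sum_congr rfl fun i _ => ?_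
    rw [Finset.sum_mul]
    refine Finset.sum_congr rfl fun j _ => ?_
    rw [Finset.mul_sum]
    exact Finset.sum_congr rfl fun k _ => by ring
  · simp

theorem DegreeFour.t4 [Fintype ι] (hx : DegreeFour A x) (hA : HasDensity A δ) (c : ι → ℝ) :
    Mean A δ (fun v => comb x c v ^ 4) (3 * (∑ i, c i ^ 2) ^ 2 - ∑ i, c i ^ 4) := by
  classical
  refine (Mean.sum hA Finset.univ fun i _ => Mean.sum hA Finset.univ fun j _ =>
    Mean.sum hA Finset.univ fun k _ => Mean.sum hA Finset.univ fun l _ =>
      (hx.m4 hA i j k l).mul (c i * c j * (c k * c l))).congr (fun v => ?_) ?_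
  · have h : comb x c v ^ 4 = (∑ i, c i * x i v) * (∑ i, c i * x i v) *
        ((∑ i, c i * x i v) * (∑ i, c i * x i v)) := by rw [comb]; ring
    rw [h, Finset.sum_mul_sum, Finset.sum_mul]
    refine Finset.sum_congr rfl fun i _ => ?_
    rw [Finset.sum_mul]
    refine Finset.sum_congr rfl fun j _ => ?_
    rw [Finset.mul_sum]
    refine Finset.sum_congr rfl fun k _ => ?_
    rw [Finset.mul_sum]
    exact Finset.sum_congr rfl fun l _ => by ring
  · simp only [mul_add, mul_sub, Finset.sum_add_distrib, Finset.sum_sub_distrib]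
    have e1 : ∑ i, ∑ j, ∑ k, ∑ l, c i * c j * (c k * c l) *
        ((if i = j then 1 else 0) * (if k = l then 1 else 0)) = (∑ i, c i ^ 2) ^ 2 := by
      simp only [← mul_assoc, mul_ite, mul_one, mul_zero, Finset.sum_ite_eq, Finset.mem_univ,
        if_true]
      rw [sq, Finset.sum_mul_sum]
      refine Finset.sum_congr rfl fun i _ => ?_
      rw [Finset.sum_comm]
      refine Finset.sum_congr rfl fun k _ => ?_
      simp
      ring
    have e2 : ∑ i, ∑ j, ∑ k, ∑ l, c i * c j * (c k * c l) *
        ((if i = k then 1 else 0) * (if j = l then 1 else 0)) = (∑ i, c i ^ 2) ^ 2 := by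
      simp only [← mul_assoc, mul_ite, mul_one, mul_zero, Finset.sum_ite_eq, Finset.mem_univ,
        if_true]
      rw [sq, Finset.sum_mul_sum]
      exact Finset.sum_congr rfl fun i _ => Finset.sum_congr rfl fun k _ => by ring
    have e3 : ∑ i, ∑ j, ∑ k, ∑ l, c i * c j * (c k * c l) *
        ((if i = l then 1 else 0) * (if j = k then 1 else 0)) = (∑ i, c i ^ 2) ^ 2 := by
      rw [sq, Finset.sum_mul_sum]
      refine Finset.sum_congr rfl fun i _ => Finset.sum_congr rfl fun j _ => ?_
      rw [Finset.sum_eq_single j, Finset.sum_eq_single i]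
      · rw [if_pos rfl, if_pos rfl]; ring
      · intro l _ hl
        rw [if_neg (Ne.symm hl)]; ring
      · intro h; exact absurd (Finset.mem_univ _) h
      · intro k _ hk
        refine Finset.sum_eq_zero fun l _ => ?_
        rw [if_neg (Ne.symm hk)]; ring
      · intro h; exact absurd (Finset.mem_univ _) h
    have e4 : ∑ i, ∑ j, ∑ k, ∑ l, c i * c j * (c k * c l) *
        ((if i = j then 1 else 0) * (if j = k then 1 else 0) * (if k = l then 1 else 0)) =
        ∑ i, c i ^ 4 := by
      refine Finset.sum_congr rfl fun i _ => ?_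
      simp only [← mul_assoc, mul_ite, mul_one, mul_zero, Finset.sum_ite_eq, Finset.mem_univ,
        if_true]
      ring
    rw [e1, e2, e3, e4]
    ring

end

/-- The quartic polynomial that minorises the indicator function of `y > 0`. -/
theorem quartic_le {s : ℝ} (hs : 0 < s) (y : ℝ) :
    (-2 * y ^ 4 - s * y ^ 3 + 4 * s ^ 2 * y ^ 2 + 3 * s ^ 3 * y) / (4 * s ^ 4) ≤
      if 0 < y then 1 else 0 := by
  split_ifs with hy
  · rw [div_le_one (by positivity)]
    have h : 4 * s ^ 4 - (-2 * y ^ 4 - s * y ^ 3 + 4 * s ^ 2 * y ^ 2 + 3 * s ^ 3 * y) =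
        (y - s) ^ 2 * (2 * y ^ 2 + 5 * s * y + 4 * s ^ 2) := by ring
    have : 0 ≤ (y - s) ^ 2 * (2 * y ^ 2 + 5 * s * y + 4 * s ^ 2) := by positivity
    linarith
  · push Not at hy
    refine div_nonpos_of_nonpos_of_nonneg ?_ (by positivity)
    have h : -2 * y ^ 4 - s * y ^ 3 + 4 * s ^ 2 * y ^ 2 + 3 * s ^ 3 * y =
        y * ((y + s) ^ 2 * (3 * s - 2 * y)) := by ring
    rw [h]
    exact mul_nonpos_of_nonpos_of_nonneg hy (mul_nonneg (sq_nonneg _) (by linarith))

theorem DegreeFour.pos {ι : Type} [Fintype ι] {x : ι → HeightOneSpectrum (𝓞 K) → ℝ}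
    (hx : DegreeFour A x) (hA : HasDensity A δ) {c : ι → ℝ} (hc : c ≠ 0) :
    LowerDensity {v | v ∈ A ∧ 0 < ∑ i, c i * x i v}
      (δ * (1 / (2 * (3 - (∑ i, c i ^ 4) / (∑ i, c i ^ 2) ^ 2)))) := by
  obtain ⟨i₀, hi₀⟩ := Function.ne_iff.1 hc
  set S := ∑ i, c i ^ 2 with hS
  set F := ∑ i, c i ^ 4 with hF
  have hSpos : 0 < S := Finset.sum_pos' (fun i _ => sq_nonneg _)
    ⟨i₀, Finset.mem_univ _, by have := hi₀; simp at this; positivity⟩
  have hFS : F ≤ S ^ 2 := by
    rw [hF, hS, sq, Finset.sum_mul_sum]
    refine Finset.sum_le_sum fun i _ => ?_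
    have h1 : c i ^ 4 = c i ^ 2 * c i ^ 2 := by ring
    rw [h1]
    exact Finset.single_le_sum (f := fun j => c i ^ 2 * c j ^ 2)
      (fun j _ => by positivity) (Finset.mem_univ i)
  set B := 3 - F / S ^ 2 with hB
  have hB2 : 2 ≤ B := by
    have : F / S ^ 2 ≤ 1 := by rw [div_le_one (by positivity)]; exact hFS
    rw [hB]; linarith
  have hBpos : 0 < B := by linarith
  set s := Real.sqrt (B * S) with hs
  have hspos : 0 < s := Real.sqrt_pos.2 (by positivity)
  have hs2 : s ^ 2 = B * S := Real.sq_sqrt (by positivity)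
  have hm := (((((hx.t4 hA c).mul (-2)).add ((hx.t3 hA c).mul (-s))).add
    ((hx.t2 hA c).mul (4 * s ^ 2))).add ((hx.t1 hA c).mul (3 * s ^ 3))).mul (1 / (4 * s ^ 4))
  have hval : 1 / (4 * s ^ 4) * (-2 * (3 * S ^ 2 - F) + -s * 0 + 4 * s ^ 2 * S +
      3 * s ^ 3 * 0) = 1 / (2 * B) := by
    have hF' : F = (3 - B) * S ^ 2 := by rw [hB]; field_simp; ring
    have h4 : s ^ 4 = (B * S) ^ 2 := by rw [← hs2]; ring
    rw [hs2, h4, hF']
    field_simp
    ring
  have hmean : Mean A δ (fun v => (-2 * comb x c v ^ 4 - s * comb x c v ^ 3 +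
      4 * s ^ 2 * comb x c v ^ 2 + 3 * s ^ 3 * comb x c v) / (4 * s ^ 4)) (1 / (2 * B)) :=
    hm.congr (fun v => by ring) hval.symm
  intro ε hε
  have hev : ∀ᶠ N in atTop, δ * (1 / (2 * B)) - ε < avg (A.indicator fun v =>
      (-2 * comb x c v ^ 4 - s * comb x c v ^ 3 + 4 * s ^ 2 * comb x c v ^ 2 +
      3 * s ^ 3 * comb x c v) / (4 * s ^ 4)) N := hmean.eventually (lt_mem_nhds (by linarith))
  filter_upwards [hev] with N hN
  refine hN.le.trans (avg_mono (fun v => ?_) N)
  by_cases hv : v ∈ A
  · rw [Set.indicator_of_mem hv]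
    refine (quartic_le hspos _).trans ?_
    by_cases h0 : 0 < comb x c v
    · rw [if_pos h0, Set.indicator_of_mem (show v ∈ {v | v ∈ A ∧ 0 < ∑ i, c i * x i v} from
        ⟨hv, h0⟩)]
    · rw [if_neg h0]
      exact Set.indicator_nonneg (fun _ _ => zero_le_one) _
  · rw [Set.indicator_of_notMem hv]
    exact Set.indicator_nonneg (fun _ _ => zero_le_one) _

end

end

/-- Let `A` be a set of primes of the number field `K` of density `δ` and `x_i`, `i ∈ ι`, real functions
on the primes such that all products of symmetric power traces of total degree at most four have average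
zero over `A`; for instance the normalised traces of Frobenius of newforms of one even weight without
complex multiplication, no two of them twists of each other.  For all real `c ≠ 0` the
primes `v` of `A` with `∑ c_i x_i(v) > 0` have lower density at least `δ b`,
`b = 1 / (2 (3 - ∑ c_i⁴ / (∑ c_i²)²)) > 1/6`; so have the primes of `A` with `∑ c_i x_i(v) < 0`. -/
theorem result (K : Type) [Field K] [NumberField K] (A : Set (HeightOneSpectrum (𝓞 K))) (δ : ℝ)
    (hA : HasDensity A δ) (ι : Type) [Fintype ι] (x : ι → HeightOneSpectrum (𝓞 K) → ℝ)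
    (hx : DegreeFour A x) (c : ι → ℝ) (hc : c ≠ 0) :
    1 / 6 < 1 / (2 * (3 - (∑ i, c i ^ 4) / (∑ i, c i ^ 2) ^ 2)) ∧
    LowerDensity {v | v ∈ A ∧ 0 < ∑ i, c i * x i v}
      (δ * (1 / (2 * (3 - (∑ i, c i ^ 4) / (∑ i, c i ^ 2) ^ 2)))) ∧
    LowerDensity {v | v ∈ A ∧ ∑ i, c i * x i v < 0}
      (δ * (1 / (2 * (3 - (∑ i, c i ^ 4) / (∑ i, c i ^ 2) ^ 2)))) := by
  refine ⟨?_, hx.pos hA hc, ?_⟩
  · obtain ⟨i₀, hi₀⟩ := Function.ne_iff.1 hc
    simp only [Pi.zero_apply] at hi₀
    have hSpos : 0 < ∑ i, c i ^ 2 := Finset.sum_pos' (fun i _ => sq_nonneg _)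
      ⟨i₀, Finset.mem_univ _, by positivity⟩
    have hFpos : 0 < ∑ i, c i ^ 4 := Finset.sum_pos' (fun i _ => by positivity)
      ⟨i₀, Finset.mem_univ _, by positivity⟩
    have hFS : ∑ i, c i ^ 4 ≤ (∑ i, c i ^ 2) ^ 2 := by
      rw [sq, Finset.sum_mul_sum]
      refine Finset.sum_le_sum fun i _ => ?_
      have h1 : c i ^ 4 = c i ^ 2 * c i ^ 2 := by ring
      rw [h1]
      exact Finset.single_le_sum (f := fun j => c i ^ 2 * c j ^ 2)
        (fun j _ => by positivity) (Finset.mem_univ i)
    have h1 : (∑ i, c i ^ 4) / (∑ i, c i ^ 2) ^ 2 ≤ 1 := by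
      rw [div_le_one (by positivity)]; exact hFS
    have h2 : 0 < (∑ i, c i ^ 4) / (∑ i, c i ^ 2) ^ 2 := by positivity
    exact one_div_lt_one_div_of_lt (by linarith) (by linarith)
  · have hc' : (fun i => -c i) ≠ 0 := fun h => hc (funext fun i => by
      have := congrFun h i
      simpa using this)
    have h := hx.pos hA hc'
    have e : {v | v ∈ A ∧ 0 < ∑ i, -c i * x i v} = {v | v ∈ A ∧ ∑ i, c i * x i v < 0} := by
      ext v
      simp only [Set.mem_ofPred_eq, neg_mul, Finset.sum_neg_distrib, neg_pos]
    have e2 : ∀ i, (-c i) ^ 2 = c i ^ 2 := fun i => by ring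
    have e4 : ∀ i, (-c i) ^ 4 = c i ^ 4 := fun i => by ring
    simp only [e2, e4] at h
    rw [e] at h
    exact h

end Pool.Agent.Results.MP_4c4ce6_nt.LinearCombinations
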