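import Mathlib

/-!
# Three modular forms: each of the eight sign patterns has lower density at least 1/15

`K` is a number field, `x_i(v)`, `i ∈ ι`, are the normalised traces of Frobenius of newforms (or of
elliptic curves) over `K`, no two of them related by a twist, and `A` is a set of primes of `K` of density
`δ`, for instance all primes or a ray class.  The distribution of a single `x_i` and of the pairs
`(x_i, x_j)` is known when all symmetric powers are automorphic; nothing beyond
`x_i x_j Sym^c(x_k)` (that is the Rankin-Selberg product of Ramakrishnan's `f_i ⊠ f_j` on `GL(4)` with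
`Sym^c f_k`) is known about the joint distribution of three of them.

From this we prove: for distinct `i, j, k` and all signs `σ, τ, υ` the primes `v ∈ A` with `σ x_i(v) > 0`,
`τ x_j(v) > 0` and `υ x_k(v) > 0` have lower density at least `δ / 15`; equidistribution predicts the
density `δ / 8`.
-/

set_option autoImplicit false

namespace Pool.Agent.Results.MP_4c4ce6_nt.TripleCorrelations

open NumberField IsDedekindDomain Filter Topology

section
variable {K : Type} [Field K] [NumberField K]

/-- The average of `g` over the primes of `K` of norm at most `N`. -/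
noncomputable def avg (g : HeightOneSpectrum (𝓞 K) → ℝ) (N : ℕ) : ℝ :=
  (∑ᶠ v : {v : HeightOneSpectrum (𝓞 K) // Ideal.absNorm v.asIdeal ≤ N}, g v.1) /
    (Nat.card {v : HeightOneSpectrum (𝓞 K) // Ideal.absNorm v.asIdeal ≤ N} : ℝ)

/-- `U a (2 cos θ) = sin ((a + 1) θ) / sin θ`: the trace of the `a`-th symmetric power of an element of
`SU(2)` with trace `2 cos θ`. -/
noncomputable def U (a : ℕ) (x : ℝ) : ℝ := (Polynomial.Chebyshev.S ℝ a).eval x

/-- The set `A` of primes of `K` has density `δ`. -/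
def HasDensity (A : Set (HeightOneSpectrum (𝓞 K))) (δ : ℝ) : Prop :=
  Tendsto (avg (A.indicator fun _ => 1)) atTop (𝓝 δ)

/-- The set `A` of primes of `K` has lower density at least `δ`. -/
def LowerDensity (A : Set (HeightOneSpectrum (𝓞 K))) (δ : ℝ) : Prop :=
  ∀ ε : ℝ, 0 < ε → ∀ᶠ N in atTop, δ - ε ≤ avg (A.indicator fun _ => 1) N

/-- For `i ≠ j` and `(a, b) ≠ (0, 0)` the trace of `Sym^a ⊗ Sym^b` at `(x_i, x_j)` has average zero over
the primes of `A`: the pairs `(x_i, x_j)` are equidistributed for the product of the Sato-Tate measures. -/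
def PairMoments {ι : Type} (A : Set (HeightOneSpectrum (𝓞 K)))
    (x : ι → HeightOneSpectrum (𝓞 K) → ℝ) : Prop :=
  ∀ i j : ι, i ≠ j → ∀ a b : ℕ, (a, b) ≠ (0, 0) →
    Tendsto (avg (A.indicator fun v => U a (x i v) * U b (x j v))) atTop (𝓝 0)

/-- For distinct `i, j, k` and all `c` the function `x_i x_j U_c(x_k)` has average zero over the primes of
`A`. -/
def TripleMoments {ι : Type} (A : Set (HeightOneSpectrum (𝓞 K)))
    (x : ι → HeightOneSpectrum (𝓞 K) → ℝ) : Prop :=
  ∀ i j k : ι, i ≠ j → i ≠ k → j ≠ k → ∀ c : ℕ,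
    Tendsto (avg (A.indicator fun v => x i v * x j v * U c (x k v))) atTop (𝓝 0)

/-! ### averages -/

theorem finite_le (N : ℕ) :
    Finite {v : HeightOneSpectrum (𝓞 K) // Ideal.absNorm v.asIdeal ≤ N} := by
  have h : {I : Ideal (𝓞 K) | Ideal.absNorm I ≤ N}.Finite := Ideal.finite_setOfPred_absNorm_le N
  have h' : Finite {I : Ideal (𝓞 K) // Ideal.absNorm I ≤ N} := h
  exact Finite.of_injective
    (fun v : {v : HeightOneSpectrum (𝓞 K) // Ideal.absNorm v.asIdeal ≤ N} =>
      (⟨v.1.asIdeal, v.2⟩ : {I : Ideal (𝓞 K) // Ideal.absNorm I ≤ N}))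
    (fun v w hvw => Subtype.ext (HeightOneSpectrum.ext (congrArg Subtype.val hvw)))

theorem avg_add (g h : HeightOneSpectrum (𝓞 K) → ℝ) (N : ℕ) :
    avg (fun v => g v + h v) N = avg g N + avg h N := by
  have := finite_le (K := K) N
  unfold avg
  rw [finsum_add_distrib (Set.toFinite _) (Set.toFinite _), add_div]

theorem avg_mul (c : ℝ) (g : HeightOneSpectrum (𝓞 K) → ℝ) (N : ℕ) :
    avg (fun v => c * g v) N = c * avg g N := by
  have := finite_le (K := K) N
  unfold avg
  rw [← mul_div_assoc, mul_finsum]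

theorem avg_mono {g h : HeightOneSpectrum (𝓞 K) → ℝ} (hgh : ∀ v, g v ≤ h v) (N : ℕ) :
    avg g N ≤ avg h N := by
  have := finite_le (K := K) N
  unfold avg
  exact div_le_div_of_nonneg_right (finsum_le_finsum' (Set.toFinite _) (Set.toFinite _)
    (fun v => hgh v.1)) (Nat.cast_nonneg _)

theorem avg_const_le (c : ℝ) (hc : 0 ≤ c) (N : ℕ) :
    avg (fun _ : HeightOneSpectrum (𝓞 K) => c) N ≤ c := by
  have := finite_le (K := K) N
  have := Fintype.ofFinite {v : HeightOneSpectrum (𝓞 K) // Ideal.absNorm v.asIdeal ≤ N}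
  unfold avg
  have h : (∑ᶠ _ : {v : HeightOneSpectrum (𝓞 K) // Ideal.absNorm v.asIdeal ≤ N}, c) =
      (Nat.card {v : HeightOneSpectrum (𝓞 K) // Ideal.absNorm v.asIdeal ≤ N} : ℝ) * c := by
    rw [finsum_eq_sum_of_fintype, Finset.sum_const, nsmul_eq_mul, Finset.card_univ,
      Nat.card_eq_fintype_card]
  rw [h]
  refine div_le_of_le_mul₀ (Nat.cast_nonneg _) hc ?_
  rw [mul_comm]

section
variable {A : Set (HeightOneSpectrum (𝓞 K))} {δ : ℝ}

/-- the average of `g` over `A` tends to `L` -/
def Mean (A : Set (HeightOneSpectrum (𝓞 K))) (δ : ℝ) (g : HeightOneSpectrum (𝓞 K) → ℝ)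
    (L : ℝ) : Prop := Tendsto (avg (A.indicator g)) atTop (𝓝 (δ * L))

theorem Mean.add {g h : HeightOneSpectrum (𝓞 K) → ℝ} {L M : ℝ} (hg : Mean A δ g L)
    (hh : Mean A δ h M) : Mean A δ (fun v => g v + h v) (L + M) := by
  unfold Mean at *
  have : avg (A.indicator fun v => g v + h v) =
      fun N => avg (A.indicator g) N + avg (A.indicator h) N := funext fun N => by
    rw [← avg_add]
    congr 1
    funext v
    by_cases hv : v ∈ A <;> simp [hv]
  rw [this, mul_add]
  exact hg.add hh

theorem Mean.mul {g : HeightOneSpectrum (𝓞 K) → ℝ} {L : ℝ} (c : ℝ) (hg : Mean A δ g L) :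
    Mean A δ (fun v => c * g v) (c * L) := by
  unfold Mean at *
  have : avg (A.indicator fun v => c * g v) = fun N => c * avg (A.indicator g) N :=
    funext fun N => by
      rw [← avg_mul]
      congr 1
      funext v
      by_cases hv : v ∈ A <;> simp [hv]
  have h2 : δ * (c * L) = c * (δ * L) := by ring
  rw [this, h2]
  exact hg.const_mul c

theorem Mean.congr {g h : HeightOneSpectrum (𝓞 K) → ℝ} {L M : ℝ} (hg : Mean A δ g L)
    (h1 : ∀ v, h v = g v) (h2 : M = L) : Mean A δ h M := by
  rw [funext h1, h2]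
  exact hg

theorem mean_one (hA : HasDensity A δ) : Mean A δ (fun _ => (1 : ℝ)) 1 := by
  unfold Mean
  rw [mul_one]
  exact hA

/-- a mean can be computed by uniform approximation -/
theorem Mean.of_approx {g : HeightOneSpectrum (𝓞 K) → ℝ} {L : ℝ}
    (h : ∀ η : ℝ, 0 < η → ∃ (g' : HeightOneSpectrum (𝓞 K) → ℝ) (L' : ℝ), (∀ v, |g v - g' v| ≤ η) ∧
      |L' - L| ≤ η ∧ Mean A δ g' L') : Mean A δ g L := by
  unfold Mean at *
  rw [Metric.tendsto_atTop]
  intro ε hε
  have hpos : 0 < 3 + |δ| := by positivity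
  obtain ⟨g', L', h1, h2, h3⟩ := h (ε / (3 + |δ|)) (by positivity)
  set η := ε / (3 + |δ|) with hη
  have hηpos : 0 < η := by positivity
  rw [Metric.tendsto_atTop] at h3
  obtain ⟨N₀, hN₀⟩ := h3 η hηpos
  refine ⟨N₀, fun N hN => ?_⟩
  have h3' := hN₀ N hN
  rw [Real.dist_eq] at h3' ⊢
  have hup : avg (A.indicator g) N ≤ avg (A.indicator g') N + η := by
    have e : avg (A.indicator g) N ≤ avg (fun v => A.indicator g' v + η) N := by
      refine avg_mono (fun v => ?_) N
      have := abs_le.1 (h1 v)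
      by_cases hv : v ∈ A
      · simp only [Set.indicator_of_mem hv]; linarith [this.2]
      · simp only [Set.indicator_of_notMem hv]; linarith
    rw [avg_add] at e
    linarith [avg_const_le (K := K) η hηpos.le N]
  have hlo : avg (A.indicator g') N ≤ avg (A.indicator g) N + η := by
    have e : avg (A.indicator g') N ≤ avg (fun v => A.indicator g v + η) N := by
      refine avg_mono (fun v => ?_) N
      have := abs_le.1 (h1 v)
      by_cases hv : v ∈ A
      · simp only [Set.indicator_of_mem hv]; linarith [this.1]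
      · simp only [Set.indicator_of_notMem hv]; linarith
    rw [avg_add] at e
    linarith [avg_const_le (K := K) η hηpos.le N]
  have hd : |δ * L' - δ * L| ≤ |δ| * η := by
    rw [← mul_sub, abs_mul]
    exact mul_le_mul_of_nonneg_left h2 (abs_nonneg _)
  have hη3 : (3 + |δ|) * η = ε := by rw [hη]; field_simp
  have e1 : |avg (A.indicator g) N - avg (A.indicator g') N| ≤ η := abs_le.2 ⟨by linarith, by linarith⟩
  calc |avg (A.indicator g) N - δ * L|
      = |(avg (A.indicator g) N - avg (A.indicator g') N) +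
          (avg (A.indicator g') N - δ * L') + (δ * L' - δ * L)| := by ring_nf
    _ ≤ |avg (A.indicator g) N - avg (A.indicator g') N| + |avg (A.indicator g') N - δ * L'| +
        |δ * L' - δ * L| := abs_add_three _ _ _
    _ < η + η + |δ| * η + η := by linarith
    _ = ε := by rw [← hη3]; ring

end

end

/-! ### the Sato-Tate measure -/

/-- The expectation of `f(2 cos θ)` for the Sato-Tate measure `(2/π) sin² θ dθ`. -/
noncomputable def I (f : ℝ → ℝ) : ℝ :=
  2 / Real.pi * ∫ θ in (0 : ℝ)..Real.pi, f (2 * Real.cos θ) * Real.sin θ ^ 2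

theorem integrable_aux {f : ℝ → ℝ} (hf : Continuous f) :
    IntervalIntegrable (fun θ : ℝ => f (2 * Real.cos θ) * Real.sin θ ^ 2) MeasureTheory.volume
      0 Real.pi := by
  apply Continuous.intervalIntegrable
  fun_prop

theorem I_add {f g : ℝ → ℝ} (hf : Continuous f) (hg : Continuous g) :
    I (fun x => f x + g x) = I f + I g := by
  unfold I
  rw [← mul_add, ← intervalIntegral.integral_add (integrable_aux hf) (integrable_aux hg)]
  congr 2
  funext θ
  ring

theorem I_mul (c : ℝ) (f : ℝ → ℝ) : I (fun x => c * f x) = c * I f := by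
  unfold I
  have h : ∫ θ in (0 : ℝ)..Real.pi, c * f (2 * Real.cos θ) * Real.sin θ ^ 2 =
      c * ∫ θ in (0 : ℝ)..Real.pi, f (2 * Real.cos θ) * Real.sin θ ^ 2 := by
    rw [← intervalIntegral.integral_const_mul]
    congr 1
    funext θ
    ring
  rw [h]
  ring

theorem I_neg (f : ℝ → ℝ) : I (fun x => f (-x)) = I f := by
  unfold I
  congr 1
  have h := intervalIntegral.integral_comp_sub_left
    (a := 0) (b := Real.pi) (fun θ : ℝ => f (2 * Real.cos θ) * Real.sin θ ^ 2) Real.pi
  rw [sub_self, sub_zero] at h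
  rw [← h]
  congr 1
  funext θ
  rw [Real.cos_pi_sub, Real.sin_pi_sub, mul_neg]

theorem integral_cos_mul (m : ℕ) (hm : m ≠ 0) :
    ∫ θ in (0 : ℝ)..Real.pi, Real.cos (m * θ) = 0 := by
  have hm' : (m : ℝ) ≠ 0 := Nat.cast_ne_zero.2 hm
  rw [intervalIntegral.integral_comp_mul_left (fun x => Real.cos x) hm', integral_cos, mul_zero,
    Real.sin_zero, Real.sin_nat_mul_pi]
  simp

theorem integral_sin_sq' : ∫ θ in (0 : ℝ)..Real.pi, Real.sin θ ^ 2 = Real.pi / 2 := by
  rw [integral_sin_sq]
  simp

theorem I_one : I (fun _ => 1) = 1 := by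
  unfold I
  simp only [one_mul]
  rw [integral_sin_sq']
  field_simp

theorem I_U {a : ℕ} (ha : a ≠ 0) : I (U a) = 0 := by
  unfold I
  have h : ∀ θ : ℝ, U a (2 * Real.cos θ) * Real.sin θ ^ 2 =
      1 / 2 * (Real.cos (a * θ) - Real.cos ((a + 2 : ℕ) * θ)) := fun θ => by
    have h1 := Polynomial.Chebyshev.S_two_mul_real_cos θ a
    have h2 : U a (2 * Real.cos θ) * Real.sin θ ^ 2 =
        ((Polynomial.Chebyshev.S ℝ a).eval (2 * Real.cos θ) * Real.sin θ) * Real.sin θ := by
      unfold U; ring
    rw [h2, h1]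
    have e1 : ((a : ℕ) : ℝ) * θ = (((a : ℤ) : ℝ) + 1) * θ - θ := by push_cast; ring
    have e2 : ((a + 2 : ℕ) : ℝ) * θ = (((a : ℤ) : ℝ) + 1) * θ + θ := by push_cast; ring
    rw [e1, e2, Real.cos_sub, Real.cos_add]
    ring
  simp_rw [h]
  rw [intervalIntegral.integral_const_mul, intervalIntegral.integral_sub, integral_cos_mul a ha,
    integral_cos_mul (a + 2) (by omega)]
  · simp
  · apply Continuous.intervalIntegrable; fun_prop
  · apply Continuous.intervalIntegrable; fun_prop

theorem I_abs : I (fun x => |x|) = 8 / (3 * Real.pi) := by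
  unfold I
  have h1 : ∫ θ in (0 : ℝ)..(Real.pi / 2), |2 * Real.cos θ| * Real.sin θ ^ 2 = 2 / 3 := by
    have e : ∫ θ in (0 : ℝ)..(Real.pi / 2), |2 * Real.cos θ| * Real.sin θ ^ 2 =
        ∫ θ in (0 : ℝ)..(Real.pi / 2), 2 * Real.cos θ * Real.sin θ ^ 2 := by
      refine intervalIntegral.integral_congr fun θ hθ => ?_
      rw [Set.uIcc_of_le (by positivity)] at hθ
      have : 0 ≤ Real.cos θ := Real.cos_nonneg_of_mem_Icc ⟨by linarith [hθ.1, Real.pi_pos], hθ.2⟩
      change |2 * Real.cos θ| * Real.sin θ ^ 2 = 2 * Real.cos θ * Real.sin θ ^ 2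
      rw [abs_of_nonneg (by positivity)]
    rw [e, intervalIntegral.integral_eq_sub_of_hasDerivAt
      (f := fun θ => 2 / 3 * Real.sin θ ^ 3)]
    · simp
    · intro θ _
      exact (((Real.hasDerivAt_sin θ).pow 3).const_mul (2 / 3 : ℝ)).congr_deriv
        (by push_cast; ring)
    · apply Continuous.intervalIntegrable; fun_prop
  have h2 : ∫ θ in (Real.pi / 2)..Real.pi, |2 * Real.cos θ| * Real.sin θ ^ 2 = 2 / 3 := by
    have e : ∫ θ in (Real.pi / 2)..Real.pi, |2 * Real.cos θ| * Real.sin θ ^ 2 =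
        ∫ θ in (Real.pi / 2)..Real.pi, -(2 * Real.cos θ * Real.sin θ ^ 2) := by
      refine intervalIntegral.integral_congr fun θ hθ => ?_
      rw [Set.uIcc_of_le (by linarith [Real.pi_pos])] at hθ
      have : Real.cos θ ≤ 0 := Real.cos_nonpos_of_pi_div_two_le_of_le hθ.1
        (by linarith [hθ.2, Real.pi_pos])
      change |2 * Real.cos θ| * Real.sin θ ^ 2 = -(2 * Real.cos θ * Real.sin θ ^ 2)
      rw [abs_of_nonpos (by linarith)]
      ring
    rw [e, intervalIntegral.integral_eq_sub_of_hasDerivAt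
      (f := fun θ => -(2 / 3 * Real.sin θ ^ 3))]
    · simp
    · intro θ _
      exact (((Real.hasDerivAt_sin θ).pow 3).const_mul (2 / 3 : ℝ)).neg.congr_deriv
        (by push_cast; ring)
    · apply Continuous.intervalIntegrable; fun_prop
  rw [← intervalIntegral.integral_add_adjacent_intervals (b := Real.pi / 2), h1, h2]
  · have := Real.pi_pos
    field_simp
    norm_num
  · apply Continuous.intervalIntegrable; fun_prop
  · apply Continuous.intervalIntegrable; fun_prop

theorem U_one (y : ℝ) : U 1 y = y := by simp [U]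

theorem U_zero (y : ℝ) : U 0 y = 1 := by simp [U]

theorem U_two (y : ℝ) : U 2 y = y ^ 2 - 1 := by
  have : ((2 : ℕ) : ℤ) = 2 := rfl
  simp [U, Polynomial.Chebyshev.S_two]

theorem continuous_U (a : ℕ) : Continuous (U a) := Polynomial.continuous _

theorem I_sq : I (fun x => x ^ 2) = 1 := by
  have h : (fun x : ℝ => x ^ 2) = fun x => U 2 x + 1 := funext fun x => by rw [U_two]; ring
  rw [h, I_add (continuous_U 2) continuous_const, I_U two_ne_zero, I_one, zero_add]

theorem I_odd {f : ℝ → ℝ} (h : ∀ x, f (-x) = -f x) : I f = 0 := by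
  have h1 := I_neg f
  have h2 : (fun x => f (-x)) = fun x => (-1) * f x := funext fun x => by rw [h]; ring
  rw [h2, I_mul] at h1
  linarith

theorem I_sub_le {f g : ℝ → ℝ} (hf : Continuous f) (hg : Continuous g) {η : ℝ}
    (h : ∀ x, |x| ≤ 2 → |f x - g x| ≤ η) : |I f - I g| ≤ η := by
  have hmono : ∀ f g : ℝ → ℝ, Continuous f → Continuous g → (∀ x, |x| ≤ 2 → f x ≤ g x) →
      I f ≤ I g := fun f g hf hg hfg => by
    unfold I
    refine mul_le_mul_of_nonneg_left ?_ (by positivity)
    refine intervalIntegral.integral_mono_on Real.pi_pos.le (integrable_aux hf)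
      (integrable_aux hg) fun θ _ => ?_
    refine mul_le_mul_of_nonneg_right (hfg _ ?_) (sq_nonneg _)
    rw [abs_mul, abs_two]
    linarith [Real.abs_cos_le_one θ]
  have hconst : I (fun _ => η) = η := by
    have := I_mul η (fun _ => 1)
    simp only [mul_one] at this
    rw [this, I_one, mul_one]
  rw [abs_le]
  constructor
  · have := hmono g (fun x => f x + η) hg (by fun_prop) fun x hx => by
      have := abs_le.1 (h x hx); linarith [this.1]
    rw [I_add hf continuous_const, hconst] at this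
    linarith
  · have := hmono f (fun x => g x + η) hf (by fun_prop) fun x hx => by
      have := abs_le.1 (h x hx); linarith [this.2]
    rw [I_add hg continuous_const, hconst] at this
    linarith

/-- the bump function at `0` -/
noncomputable def bump (ε x : ℝ) : ℝ := max 0 (2 - |x| / ε)

theorem continuous_bump (ε : ℝ) : Continuous (bump ε) := by
  unfold bump
  fun_prop

theorem tendsto_bump : Tendsto (fun n : ℕ => I (bump (1 / ((n : ℝ) + 1)))) atTop (𝓝 0) := by
  suffices key : Tendsto (fun n : ℕ => ∫ θ in (0 : ℝ)..Real.pi,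
      bump (1 / ((n : ℝ) + 1)) (2 * Real.cos θ) * Real.sin θ ^ 2) atTop
      (𝓝 (∫ _θ in (0 : ℝ)..Real.pi, (0 : ℝ))) by
    have := key.const_mul (2 / Real.pi)
    simpa [I] using this
  refine intervalIntegral.tendsto_integral_filter_of_dominated_convergence
    (l := (atTop : Filter ℕ)) (f := fun _ => (0 : ℝ))
    (F := fun n θ => bump (1 / ((n : ℝ) + 1)) (2 * Real.cos θ) * Real.sin θ ^ 2)
    (fun _ => (2 : ℝ)) ?_ ?_ ?_ ?_
  · refine Eventually.of_forall fun n => ?_
    apply Continuous.aestronglyMeasurable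
    have := continuous_bump (1 / ((n : ℝ) + 1))
    fun_prop
  · refine Eventually.of_forall fun n => Eventually.of_forall fun θ _ => ?_
    have h1 : |bump (1 / ((n : ℝ) + 1)) (2 * Real.cos θ)| ≤ 2 := by
      unfold bump
      rw [abs_of_nonneg (le_max_left _ _)]
      refine max_le (by norm_num) ?_
      have : 0 ≤ |2 * Real.cos θ| / (1 / ((n : ℝ) + 1)) := by positivity
      linarith
    have h2 : |Real.sin θ ^ 2| ≤ 1 := by
      rw [abs_of_nonneg (sq_nonneg _)]
      exact Real.sin_sq_le_one θ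
    rw [Real.norm_eq_abs, abs_mul]
    calc _ ≤ 2 * 1 := mul_le_mul h1 h2 (abs_nonneg _) (by norm_num)
      _ = 2 := by norm_num
  · exact intervalIntegrable_const
  · have hae : ∀ᵐ θ : ℝ, θ ≠ Real.pi / 2 := by
      rw [MeasureTheory.ae_iff]
      simp
    filter_upwards [hae] with θ hθ hmem
    rw [Set.uIoc_of_le Real.pi_pos.le] at hmem
    have hcos : Real.cos θ ≠ 0 := by
      intro hc
      rw [Real.cos_eq_zero_iff] at hc
      obtain ⟨k, hk⟩ := hc
      have hpi := Real.pi_pos
      rcases lt_trichotomy k 0 with h | h | h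
      · have : (k : ℝ) ≤ -1 := by exact_mod_cast (by omega : k ≤ -1)
        have := hmem.1
        nlinarith
      · rw [h] at hk; apply hθ; rw [hk]; simp
      · have : (1 : ℝ) ≤ k := by exact_mod_cast (by omega : 1 ≤ k)
        have := hmem.2
        nlinarith
    have hpos : 0 < |2 * Real.cos θ| := by positivity
    refine tendsto_const_nhds.congr' ?_
    obtain ⟨n₀, hn₀⟩ := exists_nat_gt (2 / |2 * Real.cos θ|)
    filter_upwards [eventually_ge_atTop n₀] with n hn
    have h1 : 2 - |2 * Real.cos θ| / (1 / ((n : ℝ) + 1)) ≤ 0 := by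
      have h2 : (n₀ : ℝ) ≤ n := by exact_mod_cast hn
      have h3 : 2 < |2 * Real.cos θ| * ((n : ℝ) + 1) := by
        rw [div_lt_iff₀ hpos] at hn₀
        nlinarith
      rw [div_div_eq_mul_div, div_one]
      linarith
    unfold bump
    rw [max_eq_left h1, zero_mul]

/-! ### the polynomials `U a` span all polynomials -/

theorem S_span (p : Polynomial ℝ) :
    p ∈ Submodule.span ℝ (Set.range fun a : ℕ => Polynomial.Chebyshev.S ℝ a) := by
  set W := Submodule.span ℝ (Set.range fun a : ℕ => Polynomial.Chebyshev.S ℝ a) with hW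
  have hX : ∀ q ∈ W, Polynomial.X * q ∈ W := by
    intro q hq
    induction hq using Submodule.span_induction with
    | mem q hq =>
      obtain ⟨a, rfl⟩ := hq
      rcases Nat.eq_zero_or_pos a with h | h
      · subst h
        refine Submodule.subset_span ⟨1, ?_⟩
        simp
      · have e : Polynomial.X * Polynomial.Chebyshev.S ℝ (a : ℤ) =
            Polynomial.Chebyshev.S ℝ ((a + 1 : ℕ) : ℤ) +
              Polynomial.Chebyshev.S ℝ ((a - 1 : ℕ) : ℤ) := by
          have h1 := Polynomial.Chebyshev.S_add_one ℝ (a : ℤ)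
          have h2 : ((a - 1 : ℕ) : ℤ) = (a : ℤ) - 1 := by omega
          rw [h2]
          push_cast
          rw [h1]
          ring
        simp only
        rw [e]
        exact W.add_mem (Submodule.subset_span ⟨_, rfl⟩) (Submodule.subset_span ⟨_, rfl⟩)
    | zero => rw [mul_zero]; exact W.zero_mem
    | add q r _ _ hq hr => rw [mul_add]; exact W.add_mem hq hr
    | smul c q _ hq => rw [mul_smul_comm]; exact W.smul_mem c hq
  have hpow : ∀ n : ℕ, (Polynomial.X : Polynomial ℝ) ^ n ∈ W := by
    intro n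
    induction n with
    | zero => exact Submodule.subset_span ⟨0, by simp⟩
    | succ n ih => rw [pow_succ']; exact hX _ ih
  induction p using Polynomial.induction_on' with
  | add p q hp hq => exact W.add_mem hp hq
  | monomial n c =>
    rw [← Polynomial.C_mul_X_pow_eq_monomial, ← Polynomial.smul_eq_C_mul]
    exact W.smul_mem c (hpow n)

/-! ### from moments to continuous functions -/

section
variable {K : Type} [Field K] [NumberField K] {A : Set (HeightOneSpectrum (𝓞 K))} {δ : ℝ}

theorem extend_poly {y w : HeightOneSpectrum (𝓞 K) → ℝ} {M : ℝ} (h0 : Mean A δ w M)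
    (h : ∀ a : ℕ, a ≠ 0 → Mean A δ (fun v => U a (y v) * w v) 0) (p : Polynomial ℝ) :
    Mean A δ (fun v => p.eval (y v) * w v) (I (fun t => p.eval t) * M) := by
  have hp := S_span p
  induction hp using Submodule.span_induction with
  | mem q hq =>
    obtain ⟨a, rfl⟩ := hq
    by_cases ha : a = 0
    · subst ha
      have e : I (fun t => (Polynomial.Chebyshev.S ℝ ((0 : ℕ) : ℤ)).eval t) = 1 := by
        simpa using I_one
      exact h0.congr (fun v => by simp) (by rw [e, one_mul])
    · have e : I (fun t => (Polynomial.Chebyshev.S ℝ (a : ℤ)).eval t) = 0 := I_U ha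
      exact (h a ha).congr (fun v => rfl) (by rw [e, zero_mul])
  | zero =>
    have e : I (fun t => (0 : Polynomial ℝ).eval t) = 0 := by simp [I]
    exact (h0.mul 0).congr (fun v => by simp) (by rw [e])
  | add q r _ _ hq hr =>
    refine (hq.add hr).congr (fun v => by rw [Polynomial.eval_add]; ring) ?_
    have e : I (fun t => (q + r).eval t) = I (fun t => q.eval t) + I (fun t => r.eval t) := by
      rw [← I_add q.continuous r.continuous]
      simp only [Polynomial.eval_add]
    rw [e, add_mul]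
  | smul c q _ hq =>
    refine (hq.mul c).congr (fun v => by rw [Polynomial.eval_smul, smul_eq_mul]; ring) ?_
    have e : I (fun t => (c • q).eval t) = c * I (fun t => q.eval t) := by
      rw [← I_mul]
      simp only [Polynomial.eval_smul, smul_eq_mul]
    rw [e, mul_assoc]

theorem extend {y w : HeightOneSpectrum (𝓞 K) → ℝ} {M W : ℝ} (hy : ∀ v, |y v| ≤ 2)
    (hw : ∀ v, |w v| ≤ W) (h0 : Mean A δ w M)
    (h : ∀ a : ℕ, a ≠ 0 → Mean A δ (fun v => U a (y v) * w v) 0) {f : ℝ → ℝ}
    (hf : Continuous f) : Mean A δ (fun v => f (y v) * w v) (I f * M) := by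
  refine Mean.of_approx fun η hη => ?_
  have hB : 0 < |W| + |M| + 1 := by positivity
  obtain ⟨p, hp⟩ := exists_polynomial_near_of_continuousOn (-2) 2 f hf.continuousOn
    (η / (|W| + |M| + 1)) (by positivity)
  have hp' : ∀ t : ℝ, |t| ≤ 2 → |p.eval t - f t| ≤ η / (|W| + |M| + 1) := fun t ht =>
    (hp t (abs_le.1 ht)).le
  have hηB : η / (|W| + |M| + 1) * (|W| + |M| + 1) = η := by field_simp
  have hq : 0 < η / (|W| + |M| + 1) := by positivity
  refine ⟨fun v => p.eval (y v) * w v, I (fun t => p.eval t) * M, fun v => ?_, ?_,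
    extend_poly h0 h p⟩
  · rw [← sub_mul, abs_mul, abs_sub_comm]
    calc |p.eval (y v) - f (y v)| * |w v| ≤ η / (|W| + |M| + 1) * |W| :=
          mul_le_mul (hp' _ (hy v)) ((hw v).trans (le_abs_self W)) (abs_nonneg _) hq.le
      _ ≤ η := by nlinarith [abs_nonneg W, abs_nonneg M]
  · rw [← sub_mul, abs_mul]
    calc |I (fun t => p.eval t) - I f| * |M| ≤ η / (|W| + |M| + 1) * |M| :=
          mul_le_mul_of_nonneg_right (I_sub_le p.continuous hf hp') (abs_nonneg _)
      _ ≤ η := by nlinarith [abs_nonneg W, abs_nonneg M]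

omit [NumberField K] in
theorem exists_bound {y : HeightOneSpectrum (𝓞 K) → ℝ} (hy : ∀ v, |y v| ≤ 2) {f : ℝ → ℝ}
    (hf : Continuous f) : ∃ W : ℝ, ∀ v, |f (y v)| ≤ W := by
  obtain ⟨W, hW⟩ := (isCompact_Icc (a := (-2 : ℝ)) (b := 2)).exists_bound_of_continuousOn
    (f := f) hf.continuousOn
  exact ⟨W, fun v => by simpa using hW (y v) (abs_le.1 (hy v))⟩

theorem pair_mean {y z : HeightOneSpectrum (𝓞 K) → ℝ} (hA : HasDensity A δ)
    (hy : ∀ v, |y v| ≤ 2) (hz : ∀ v, |z v| ≤ 2)
    (h : ∀ a b : ℕ, (a, b) ≠ (0, 0) → Mean A δ (fun v => U a (y v) * U b (z v)) 0)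
    {f g : ℝ → ℝ} (hf : Continuous f) (hg : Continuous g) :
    Mean A δ (fun v => f (y v) * g (z v)) (I f * I g) := by
  have step : ∀ b : ℕ, Mean A δ (fun v => f (y v) * U b (z v)) (I f * if b = 0 then 1 else 0) := by
    intro b
    obtain ⟨W, hW⟩ := exists_bound hz (continuous_U b)
    refine extend hy hW ?_ (fun a ha => h a b (by simp [ha])) hf
    by_cases hb : b = 0
    · subst hb
      exact (mean_one hA).congr (fun v => U_zero _) (by simp)
    · exact (h 0 b (by simp [hb])).congr (fun v => by rw [U_zero, one_mul]) (by simp [hb])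
  obtain ⟨W, hW⟩ := exists_bound hy hf
  have h2 := extend (f := g) (y := z) (w := fun v => f (y v)) (M := I f) hz hW
    ((step 0).congr (fun v => by rw [U_zero, mul_one]) (by simp))
    (fun b hb => (step b).congr (fun v => by ring) (by simp [hb])) hg
  exact h2.congr (fun v => by ring) (by ring)

theorem triple_mean {y z w : HeightOneSpectrum (𝓞 K) → ℝ}
    (hy : ∀ v, |y v| ≤ 2) (hz : ∀ v, |z v| ≤ 2) (hw : ∀ v, |w v| ≤ 2)
    (h : ∀ c : ℕ, Mean A δ (fun v => y v * z v * U c (w v)) 0)
    {g : ℝ → ℝ} (hg : Continuous g) :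
    Mean A δ (fun v => y v * z v * g (w v)) 0 := by
  have hb : ∀ v, |y v * z v| ≤ 4 := fun v => by
    rw [abs_mul]
    calc |y v| * |z v| ≤ 2 * 2 := mul_le_mul (hy v) (hz v) (abs_nonneg _) (by norm_num)
      _ = 4 := by norm_num
  have := extend (f := g) (y := w) (w := fun v => y v * z v) (M := 0) hw hb
    ((h 0).congr (fun v => by rw [U_zero, mul_one]) rfl)
    (fun c _ => (h c).congr (fun v => by ring) rfl) hg
  exact this.congr (fun v => by ring) (by ring)

end

/-! ### the certificate -/

/-- the function of the pairs in the minorant -/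
noncomputable def hh (t u : ℝ) : ℝ :=
  569/1000 - 1077/1000 * ((t + u)/2) + 422/1000 * ((t^2 + u^2)/2) + 779/1000 * (t*u) -
    994/1000 * ((t*u^2 + t^2*u)/2) + 361/1000 * (t^2*u^2)

theorem cert_plus {a b c : ℝ} (ha : 0 ≤ a * (2 - a)) (hb : 0 ≤ b * (2 - b)) (hc : 0 ≤ c * (2 - c))
      :
    0 ≤ hh a b + hh a c + hh b c + (1 - 614/1000 * (a*b + a*c + b*c) + 3 * (339/1000) * (a*b*c))
      := by
  have hab := mul_nonneg ha hb
  have hac := mul_nonneg ha hc
  have hbc := mul_nonneg hb hc
  have habc := mul_nonneg hab hc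
  unfold hh
  linear_combination
    (13534503/5000000) * sq_nonneg ((1:ℝ) - 185441/500000*a - 185441/500000*b + 5353/100000*a*b -
      185441/500000*c + 5353/100000*a*c + 5353/100000*b*c + 74683/500000*a*b*c) +
    (205999/400000) * sq_nonneg (a + 3116/3125*b - 1074037/1000000*a*b + 3116/3125*c -
      1074037/1000000*a*c - 268031/250000*b*c + 528333/1000000*a*b*c) +
    (29619/10000000) * sq_nonneg (b - 537793/1000000*a*b + 499279/1000000*c - 205119/1000000*a*c -
      86951/100000*b*c + 66137/250000*a*b*c) +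
    (8141/10000000) * sq_nonneg (a*b + 369/1600*c + 90489/125000*a*c + 90489/125000*b*c -
      193723/62500*a*b*c) +
    (10901/5000000) * sq_nonneg (c - 65381/100000*a*c - 65381/100000*b*c + 446877/1000000*a*b*c) +
    (3/16000) * sq_nonneg (a*c + 23329/50000*b*c - 854173/500000*a*b*c) +
    (1467/10000000) * sq_nonneg (b*c - 23297/20000*a*b*c) +
    (701/2500000) * sq_nonneg (a*b*c) +
    (290901/625000) * mul_nonneg ha (sq_nonneg ((1:ℝ) - 519153/1000000*b - 519153/1000000*c +
      278221/1000000*b*c)) +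
    (1069/2500000) * mul_nonneg ha (sq_nonneg (b + 262531/1000000*c - 323057/500000*b*c)) +
    (1991/5000000) * mul_nonneg ha (sq_nonneg (c - 511761/1000000*b*c)) +
    (347/1250000) * mul_nonneg ha (sq_nonneg (b*c)) +
    (290901/625000) * mul_nonneg hb (sq_nonneg ((1:ℝ) - 519153/1000000*a - 519153/1000000*c +
      278221/1000000*a*c)) +
    (1069/2500000) * mul_nonneg hb (sq_nonneg (a + 262531/1000000*c - 323057/500000*a*c)) +
    (1991/5000000) * mul_nonneg hb (sq_nonneg (c - 511761/1000000*a*c)) +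
    (347/1250000) * mul_nonneg hb (sq_nonneg (a*c)) +
    (45703/5000000) * mul_nonneg hab (sq_nonneg ((1:ℝ) - 246871/500000*c)) +
    (317/1250000) * mul_nonneg hab (sq_nonneg (c)) +
    (290901/625000) * mul_nonneg hc (sq_nonneg ((1:ℝ) - 519153/1000000*a - 519153/1000000*b +
      278221/1000000*a*b)) +
    (1069/2500000) * mul_nonneg hc (sq_nonneg (a + 262531/1000000*b - 323057/500000*a*b)) +
    (1991/5000000) * mul_nonneg hc (sq_nonneg (b - 511761/1000000*a*b)) +
    (347/1250000) * mul_nonneg hc (sq_nonneg (a*b)) +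
    (45703/5000000) * mul_nonneg hac (sq_nonneg ((1:ℝ) - 246871/500000*b)) +
    (317/1250000) * mul_nonneg hac (sq_nonneg (b)) +
    (45703/5000000) * mul_nonneg hbc (sq_nonneg ((1:ℝ) - 246871/500000*a)) +
    (317/1250000) * mul_nonneg hbc (sq_nonneg (a)) +
    (1114159/10000000) * habc +
    (2229177/2500000000000) * sq_nonneg (c - (1:ℝ)) +
    (2229177/2500000000000) * sq_nonneg (b - (1:ℝ)) +
    (2855611607057/1250000000000000000) * sq_nonneg (b*c + (1:ℝ)) +
    (894641124711/1000000000000000000) * sq_nonneg (b*c - c) +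
    (428856965431/500000000000000000) * sq_nonneg (b*c - b) +
    (2229177/2500000000000) * sq_nonneg (a - (1:ℝ)) +
    (2722193312057/1250000000000000000) * sq_nonneg (a*c + (1:ℝ)) +
    (10527960553201/10000000000000000000) * sq_nonneg (a*c - c) +
    (2722193312057/1250000000000000000) * sq_nonneg (a*b + (1:ℝ)) +
    (12813558713691/10000000000000000000) * sq_nonneg (a*b*c - (1:ℝ)) +
    (1242768000177/5000000000000000000) * sq_nonneg (a*b*c + c) +
    (1182693070423/1250000000000000000) * sq_nonneg (a*b - b) +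
    (651930729389/5000000000000000000) * sq_nonneg (a*b*c + b) +
    (235213899073/5000000000000000000) * sq_nonneg (a*b*c + b*c) +
    (1039119778423/1250000000000000000) * sq_nonneg (a*c - a) +
    (1039119778423/1250000000000000000) * sq_nonneg (a*b - a) +
    (432011486633/2500000000000000000) * sq_nonneg (a*b*c + a) +
    (224227393087/10000000000000000000) * sq_nonneg (a*b*c - a*c) +
    (449609230189/10000000000000000000) * sq_nonneg (a*b*c + a*b) +
    (888036331436941/10000000000000000000) * sq_nonneg ((1:ℝ)) +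
    (244587866023789/2500000000000000000) * sq_nonneg (a) +
    (489751464262837/5000000000000000000) * sq_nonneg (b) +
    (966391584861169/10000000000000000000) * sq_nonneg (a*b) +
    (977472850307087/10000000000000000000) * sq_nonneg (c) +
    (483299483018729/5000000000000000000) * sq_nonneg (a*c) +
    (15057984451241/156250000000000000) * sq_nonneg (b*c) +
    (61409714163929/625000000000000000) * sq_nonneg (a*b*c)

theorem cert_minus {a b c : ℝ} (ha : 0 ≤ a * (2 - a)) (hb : 0 ≤ b * (2 - b)) (hc : 0 ≤ c * (2 -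
      c)) :
    0 ≤ hh a b + hh a c + hh b c - (1 - 614/1000 * (a*b + a*c + b*c) + 3 * (339/1000) * (a*b*c))
      := by
  have hab := mul_nonneg ha hb
  have hac := mul_nonneg ha hc
  have hbc := mul_nonneg hb hc
  have habc := mul_nonneg hab hc
  unfold hh
  linear_combination
    (3534503/5000000) * sq_nonneg ((1:ℝ) - 762053/1000000*a - 762053/1000000*b +
      412713/1000000*a*b - 762053/1000000*c + 412713/1000000*a*c + 412713/1000000*b*c -
      31/100000*a*b*c) +
    (115813/10000000) * sq_nonneg (a - 494171/1000000*b - 1138673/500000*a*b - 494171/1000000*c -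
      1138673/500000*a*c + 2269033/500000*b*c + 331/40000*a*b*c) +
    (87531/10000000) * sq_nonneg (b - 4502207/1000000*a*b - 488477/500000*c + 564417/125000*a*c -
      11499/250000*b*c + 16359/1000000*a*b*c) +
    (33883/10000000) * sq_nonneg (a*b + 301957/1000000*c - 689859/1000000*a*c - 689859/1000000*b*c
      + 574/3125*a*b*c) +
    (899/10000000) * sq_nonneg (c - 1002921/1000000*a*c - 1002921/1000000*b*c + 66187/62500*a*b*c)
      +
    (6491/10000000) * sq_nonneg (a*c - 315687/500000*b*c - 111007/500000*a*b*c) +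
    (61/156250) * sq_nonneg (b*c - 602273/1000000*a*b*c) +
    (739/10000000) * sq_nonneg (a*b*c) +
    (979/5000000) * mul_nonneg ha (sq_nonneg ((1:ℝ) - 218473/500000*b - 218473/500000*c +
      30573/62500*b*c)) +
    (2303/10000000) * mul_nonneg ha (sq_nonneg (b + 33069/200000*c - 428137/1000000*b*c)) +
    (7/31250) * mul_nonneg ha (sq_nonneg (c - 367391/1000000*b*c)) +
    (2081/10000000) * mul_nonneg ha (sq_nonneg (b*c)) +
    (979/5000000) * mul_nonneg hb (sq_nonneg ((1:ℝ) - 218473/500000*a - 218473/500000*c +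
      30573/62500*a*c)) +
    (2303/10000000) * mul_nonneg hb (sq_nonneg (a + 33069/200000*c - 428137/1000000*a*c)) +
    (7/31250) * mul_nonneg hb (sq_nonneg (c - 367391/1000000*a*c)) +
    (2081/10000000) * mul_nonneg hb (sq_nonneg (a*c)) +
    (759/5000000) * mul_nonneg hab (sq_nonneg ((1:ℝ) - 268333/1000000*c)) +
    (211/1250000) * mul_nonneg hab (sq_nonneg (c)) +
    (979/5000000) * mul_nonneg hc (sq_nonneg ((1:ℝ) - 218473/500000*a - 218473/500000*b +
      30573/62500*a*b)) +
    (2303/10000000) * mul_nonneg hc (sq_nonneg (a + 33069/200000*b - 428137/1000000*a*b)) +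
    (7/31250) * mul_nonneg hc (sq_nonneg (b - 367391/1000000*a*b)) +
    (2081/10000000) * mul_nonneg hc (sq_nonneg (a*b)) +
    (759/5000000) * mul_nonneg hac (sq_nonneg ((1:ℝ) - 268333/1000000*b)) +
    (211/1250000) * mul_nonneg hac (sq_nonneg (b)) +
    (759/5000000) * mul_nonneg hbc (sq_nonneg ((1:ℝ) - 268333/1000000*a)) +
    (211/1250000) * mul_nonneg hbc (sq_nonneg (a)) +
    (307/2500000) * habc +
    (385341/5000000000000) * sq_nonneg (c - (1:ℝ)) +
    (385341/5000000000000) * sq_nonneg (b - (1:ℝ)) +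
    (219865318213/10000000000000000000) * sq_nonneg (b*c + (1:ℝ)) +
    (316291519963/5000000000000000000) * sq_nonneg (b*c - c) +
    (983385594851/10000000000000000000) * sq_nonneg (b*c - b) +
    (385341/5000000000000) * sq_nonneg (a - (1:ℝ)) +
    (1828234927/5000000000000000000) * sq_nonneg (a*c - (1:ℝ)) +
    (136134609083/5000000000000000000) * sq_nonneg (a*c + c) +
    (1828234927/5000000000000000000) * sq_nonneg (a*b - (1:ℝ)) +
    (75413362267/100000000000000000) * sq_nonneg (a*b*c - (1:ℝ)) +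
    (1580839609739/10000000000000000000) * sq_nonneg (a*b*c + c) +
    (10274574797/625000000000000000) * sq_nonneg (a*b - b) +
    (2366225781077/10000000000000000000) * sq_nonneg (a*b*c + b) +
    (1799507876293/10000000000000000000) * sq_nonneg (a*b*c + b*c) +
    (406942210897/5000000000000000000) * sq_nonneg (a*c - a) +
    (406942210897/5000000000000000000) * sq_nonneg (a*b - a) +
    (480433059283/1000000000000000000) * sq_nonneg (a*b*c + a) +
    (98774684471/625000000000000000) * sq_nonneg (a*b*c + a*c) +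
    (3999382189/40000000000000000) * sq_nonneg (a*b*c + a*b) +
    (983919439515379/10000000000000000000) * sq_nonneg ((1:ℝ)) +
    (30964992034179/312500000000000000) * sq_nonneg (a) +
    (993686810745533/10000000000000000000) * sq_nonneg (b) +
    (197854239923853/2000000000000000000) * sq_nonneg (a*b) +
    (994319490265119/10000000000000000000) * sq_nonneg (c) +
    (988269961789601/10000000000000000000) * sq_nonneg (a*c) +
    (989884781302087/10000000000000000000) * sq_nonneg (b*c) +
    (489509811238731/5000000000000000000) * sq_nonneg (a*b*c)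

/-- truncation of `x / ε` to `[-1, 1]` -/
noncomputable def clamp (ε x : ℝ) : ℝ := max (-1) (min 1 (x / ε))

theorem continuous_clamp (ε : ℝ) : Continuous (clamp ε) := by
  unfold clamp
  fun_prop

theorem clamp_neg (ε x : ℝ) : clamp ε (-x) = -clamp ε x := by
  unfold clamp
  rw [neg_div, max_def, min_def, max_def, min_def]
  split_ifs <;> linarith

theorem abs_clamp_le (ε x : ℝ) : |clamp ε x| ≤ 1 := by
  unfold clamp
  rw [abs_le]
  exact ⟨le_max_left _ _, max_le (by norm_num) (min_le_left _ _)⟩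

theorem clamp_eq_one {ε x : ℝ} (hε : 0 < ε) (h : ε ≤ x) : clamp ε x = 1 := by
  unfold clamp
  have : 1 ≤ x / ε := by rwa [le_div_iff₀ hε, one_mul]
  rw [min_eq_left this, max_eq_right (by norm_num)]

theorem bump_nonneg (ε x : ℝ) : 0 ≤ bump ε x := le_max_left _ _

theorem one_le_bump {ε x : ℝ} (hε : 0 < ε) (h : |x| ≤ ε) : 1 ≤ bump ε x := by
  unfold bump
  have : |x| / ε ≤ 1 := by rwa [div_le_one hε]
  exact le_max_of_le_right (by linarith)

/-- the minorant, eight times -/
noncomputable def F (ε a b c : ℝ) : ℝ :=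
  1 + (clamp ε a + clamp ε b + clamp ε c) +
    (clamp ε a * clamp ε b + clamp ε a * clamp ε c + clamp ε b * clamp ε c) +
    614/1000 * (a * b * clamp ε c + a * c * clamp ε b + b * c * clamp ε a) -
    3 * (339/1000) * (a * b * c) - (hh |a| |b| + hh |a| |c| + hh |b| |c|) -
    23 * (bump ε a + bump ε b + bump ε c)

theorem F_le {ε a b c : ℝ} (hε : 0 < ε) (ha : |a| ≤ 2) (hb : |b| ≤ 2) (hc : |c| ≤ 2) :
    F ε a b c ≤ if 0 < a ∧ 0 < b ∧ 0 < c then 8 else 0 := by
  have hbox : ∀ t : ℝ, |t| ≤ 2 → 0 ≤ |t| * (2 - |t|) := fun t ht =>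
    mul_nonneg (abs_nonneg _) (by linarith)
  have h1 := cert_plus (hbox a ha) (hbox b hb) (hbox c hc)
  have h2 := cert_minus (hbox a ha) (hbox b hb) (hbox c hc)
  have ba := bump_nonneg ε a
  have bb := bump_nonneg ε b
  have bc := bump_nonneg ε c
  have hR : (0 : ℝ) ≤ if 0 < a ∧ 0 < b ∧ 0 < c then 8 else 0 := by split_ifs <;> norm_num
  by_cases hs : |a| < ε ∨ |b| < ε ∨ |c| < ε
  · have hbump : 1 ≤ bump ε a + bump ε b + bump ε c := by
      rcases hs with h | h | h
      · linarith [one_le_bump hε h.le]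
      · linarith [one_le_bump hε h.le]
      · linarith [one_le_bump hε h.le]
    refine le_trans ?_ hR
    have ga := abs_clamp_le ε a
    have gb := abs_clamp_le ε b
    have gc := abs_clamp_le ε c
    have m2 : ∀ s t : ℝ, |s| ≤ 1 → |t| ≤ 1 → s * t ≤ 1 := fun s t hs ht => by
      calc s * t ≤ |s * t| := le_abs_self _
        _ = |s| * |t| := abs_mul _ _
        _ ≤ 1 * 1 := mul_le_mul hs ht (abs_nonneg _) (by norm_num)
        _ = 1 := by norm_num
    have m3 : ∀ s t u : ℝ, |s| ≤ 2 → |t| ≤ 2 → |u| ≤ 1 → s * t * u ≤ 4 := fun s t u hs ht hu => by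
      calc s * t * u ≤ |s * t * u| := le_abs_self _
        _ = |s| * |t| * |u| := by rw [abs_mul, abs_mul]
        _ ≤ 2 * 2 * 1 := mul_le_mul (mul_le_mul hs ht (abs_nonneg _) (by norm_num)) hu
          (abs_nonneg _) (by norm_num)
        _ = 4 := by norm_num
    have m4 : -8 ≤ a * b * c := by
      have : |a * b * c| ≤ 8 := by
        calc |a * b * c| = |a| * |b| * |c| := by rw [abs_mul, abs_mul]
          _ ≤ 2 * 2 * 2 := mul_le_mul (mul_le_mul ha hb (abs_nonneg _) (by norm_num)) hc
            (abs_nonneg _) (by norm_num)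
          _ = 8 := by norm_num
      linarith [(abs_le.1 this).1]
    have e1 := m2 _ _ ga gb
    have e2 := m2 _ _ ga gc
    have e3 := m2 _ _ gb gc
    have e4 := m3 _ _ _ ha hb gc
    have e5 := m3 _ _ _ ha hc gb
    have e6 := m3 _ _ _ hb hc ga
    have := (abs_le.1 ga).2
    have := (abs_le.1 gb).2
    have := (abs_le.1 gc).2
    unfold F
    linarith
  · push Not at hs
    obtain ⟨sa, sb, sc⟩ := hs
    have split : ∀ t : ℝ, ε ≤ |t| → (0 < t ∧ |t| = t ∧ clamp ε t = 1) ∨
        (t < 0 ∧ |t| = -t ∧ clamp ε t = -1) := fun t ht => by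
      rcases le_or_gt 0 t with h | h
      · rw [abs_of_nonneg h] at ht
        exact Or.inl ⟨by linarith, abs_of_nonneg h, clamp_eq_one hε ht⟩
      · rw [abs_of_neg h] at ht
        refine Or.inr ⟨h, abs_of_neg h, ?_⟩
        have := clamp_eq_one hε ht
        rw [clamp_neg] at this
        linarith
    unfold F
    rcases split a sa with ⟨pa, ta, ca⟩ | ⟨pa, ta, ca⟩ <;>
    rcases split b sb with ⟨pb, tb, cb⟩ | ⟨pb, tb, cb⟩ <;>
    rcases split c sc with ⟨pc, tc, cc⟩ | ⟨pc, tc, cc⟩ <;>
    rw [ta, tb, tc] at h1 h2 ⊢ <;> rw [ca, cb, cc]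
    · rw [if_pos ⟨pa, pb, pc⟩]
      linarith
    · rw [if_neg (fun h => absurd h.2.2 (not_lt.2 pc.le))]
      linarith
    · rw [if_neg (fun h => absurd h.2.1 (not_lt.2 pb.le))]
      linarith
    · rw [if_neg (fun h => absurd h.2.1 (not_lt.2 pb.le))]
      linarith
    · rw [if_neg (fun h => absurd h.1 (not_lt.2 pa.le))]
      linarith
    · rw [if_neg (fun h => absurd h.1 (not_lt.2 pa.le))]
      linarith
    · rw [if_neg (fun h => absurd h.1 (not_lt.2 pa.le))]
      linarith
    · rw [if_neg (fun h => absurd h.1 (not_lt.2 pa.le))]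
      linarith

section
variable {K : Type} [Field K] [NumberField K] {A : Set (HeightOneSpectrum (𝓞 K))} {δ : ℝ}

/-- what is used of three families of traces -/
structure Good (A : Set (HeightOneSpectrum (𝓞 K))) (δ : ℝ)
    (y : Fin 3 → HeightOneSpectrum (𝓞 K) → ℝ) : Prop where
  bound : ∀ i v, |y i v| ≤ 2
  pair : ∀ i j, i ≠ j → ∀ f g : ℝ → ℝ, Continuous f → Continuous g →
    Mean A δ (fun v => f (y i v) * g (y j v)) (I f * I g)
  triple : ∀ i j k, i ≠ j → i ≠ k → j ≠ k → ∀ g : ℝ → ℝ, Continuous g →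
    Mean A δ (fun v => y i v * y j v * g (y k v)) 0

theorem I_hh_bound : 3 * (569/1000 - 1077/1000 * (8 / (3 * Real.pi)) + 422/1000 +
    779/1000 * (8 / (3 * Real.pi)) ^ 2 - 994/1000 * (8 / (3 * Real.pi)) + 361/1000) < 7 / 15 := by
  have h1 := Real.pi_gt_d4
  have h2 := Real.pi_lt_d4
  have hpos := Real.pi_pos
  have e1 : 8488/10000 ≤ 8 / (3 * Real.pi) := by
    rw [le_div_iff₀ (by positivity)]; linarith
  have e2 : 8 / (3 * Real.pi) ≤ 8489/10000 := by
    rw [div_le_iff₀ (by positivity)]; linarith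
  nlinarith

theorem Good.single {y : Fin 3 → HeightOneSpectrum (𝓞 K) → ℝ} (hy : Good A δ y) (i : Fin 3)
    {f : ℝ → ℝ} (hf : Continuous f) : Mean A δ (fun v => f (y i v)) (I f) := by
  have hij : i ≠ i + 1 := by revert i; decide
  exact (hy.pair i (i + 1) hij f (fun _ => 1) hf continuous_const).congr (fun v => by ring)
    (by rw [I_one, mul_one])

theorem Good.mean_hh {y : Fin 3 → HeightOneSpectrum (𝓞 K) → ℝ} (hy : Good A δ y)
    {i j : Fin 3} (hij : i ≠ j) : Mean A δ (fun v => hh |y i v| |y j v|)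
      (569/1000 - 1077/1000 * (8 / (3 * Real.pi)) + 422/1000 +
        779/1000 * (8 / (3 * Real.pi)) ^ 2 - 994/1000 * (8 / (3 * Real.pi)) + 361/1000) := by
  set m := 8 / (3 * Real.pi) with hm
  have c0 : Mean A δ (fun _ => (1 : ℝ)) 1 :=
    (hy.single 0 (f := fun _ => 1) continuous_const).congr (fun v => rfl) I_one.symm
  have hP : ∀ f g : ℝ → ℝ, Continuous f → Continuous g → ∀ L : ℝ, L = I f * I g →
      Mean A δ (fun v => f (y i v) * g (y j v)) L := fun f g hf hg L hL =>
    (hy.pair i j hij f g hf hg).congr (fun v => rfl) hL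
  have hS : ∀ k : Fin 3, ∀ f : ℝ → ℝ, Continuous f → ∀ L : ℝ, L = I f →
      Mean A δ (fun v => f (y k v)) L := fun k f hf L hL =>
    (hy.single k hf).congr (fun v => rfl) hL
  have a1 := hS i (fun x => |x|) (by fun_prop) m I_abs.symm
  have a2 := hS j (fun x => |x|) (by fun_prop) m I_abs.symm
  have a3 := hS i (fun x => x ^ 2) (by fun_prop) 1 I_sq.symm
  have a4 := hS j (fun x => x ^ 2) (by fun_prop) 1 I_sq.symm
  have a5 := hP (fun x => |x|) (fun x => |x|) (by fun_prop) (by fun_prop) (m * m)
    (by rw [I_abs])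
  have a6 := hP (fun x => |x|) (fun x => x ^ 2) (by fun_prop) (by fun_prop) m
    (by rw [I_abs, I_sq, mul_one])
  have a7 := hP (fun x => x ^ 2) (fun x => |x|) (by fun_prop) (by fun_prop) m
    (by rw [I_abs, I_sq, one_mul])
  have a8 := hP (fun x => x ^ 2) (fun x => x ^ 2) (by fun_prop) (by fun_prop) 1
    (by rw [I_sq, one_mul])
  refine ((((((((c0.mul (569/1000)).add (a1.mul (-(1077/2000)))).add
    (a2.mul (-(1077/2000)))).add (a3.mul (422/2000))).add (a4.mul (422/2000))).add
    (a5.mul (779/1000))).add ((a6.add a7).mul (-(994/2000)))).add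
    (a8.mul (361/1000))).congr (fun v => ?_) ?_
  · simp only [hh, sq_abs]
    ring
  · ring

theorem Good.core {y : Fin 3 → HeightOneSpectrum (𝓞 K) → ℝ} (hδ : 0 ≤ δ) (hy : Good A δ y) :
    LowerDensity {v | v ∈ A ∧ 0 < y 0 v ∧ 0 < y 1 v ∧ 0 < y 2 v} (δ / 15) := by
  have n01 : (0 : Fin 3) ≠ 1 := by decide
  have n02 : (0 : Fin 3) ≠ 2 := by decide
  have n12 : (1 : Fin 3) ≠ 2 := by decide
  set T := 569/1000 - 1077/1000 * (8 / (3 * Real.pi)) + 422/1000 +
    779/1000 * (8 / (3 * Real.pi)) ^ 2 - 994/1000 * (8 / (3 * Real.pi)) + 361/1000 with hT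
  have hT15 : 3 * T < 7 / 15 := I_hh_bound
  -- choose the width of the bump function
  obtain ⟨n, hn⟩ := ((tendsto_order.1 tendsto_bump).2 ((7 / 15 - 3 * T) / 69)
    (by linarith)).exists
  set ε := 1 / ((n : ℝ) + 1) with hε
  have hεpos : 0 < ε := by positivity
  have hcl : I (clamp ε) = 0 := I_odd (clamp_neg ε)
  have s0 : ∀ i, Mean A δ (fun v => clamp ε (y i v)) 0 := fun i =>
    (hy.single i (continuous_clamp ε)).congr (fun v => rfl) hcl.symm
  have s1 : ∀ i j, i ≠ j → Mean A δ (fun v => clamp ε (y i v) * clamp ε (y j v)) 0 :=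
    fun i j hij => (hy.pair i j hij _ _ (continuous_clamp ε) (continuous_clamp ε)).congr
      (fun v => rfl) (by rw [hcl, mul_zero])
  have s2 : ∀ i j k, i ≠ j → i ≠ k → j ≠ k →
      Mean A δ (fun v => y i v * y j v * clamp ε (y k v)) 0 := fun i j k hij hik hjk =>
    hy.triple i j k hij hik hjk _ (continuous_clamp ε)
  have s3 : Mean A δ (fun v => y 0 v * y 1 v * y 2 v) 0 :=
    hy.triple 0 1 2 n01 n02 n12 (fun x => x) continuous_id
  have s4 : ∀ i, Mean A δ (fun v => bump ε (y i v)) (I (bump ε)) := fun i =>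
    hy.single i (continuous_bump ε)
  have c0 : Mean A δ (fun _ => (1 : ℝ)) 1 :=
    (hy.single 0 (f := fun _ => 1) continuous_const).congr (fun v => rfl) I_one.symm
  have hF : Mean A δ (fun v => F ε (y 0 v) (y 1 v) (y 2 v)) (1 - 3 * T - 69 * I (bump ε)) := by
    refine (((((((c0.add (((s0 0).add (s0 1)).add (s0 2))).add
      (((s1 0 1 n01).add (s1 0 2 n02)).add (s1 1 2 n12))).add
      ((((s2 0 1 2 n01 n02 n12).add (s2 0 2 1 n02 n01 n12.symm)).add
        (s2 1 2 0 n12 n01.symm n02.symm)).mul (614/1000))).add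
      (s3.mul (-(3 * (339/1000))))).add
      ((((hy.mean_hh n01).add (hy.mean_hh n02)).add (hy.mean_hh n12)).mul (-1))).add
      ((((s4 0).add (s4 1)).add (s4 2)).mul (-23)))).congr (fun v => ?_) ?_
    · unfold F
      ring
    · rw [← hT]
      ring
  have hval : 8 / 15 ≤ 1 - 3 * T - 69 * I (bump ε) := by
    have := (lt_div_iff₀ (by norm_num : (0 : ℝ) < 69)).1 hn
    linarith
  intro ε' hε'
  have hev := hF.eventually (lt_mem_nhds
    (show δ * (1 - 3 * T - 69 * I (bump ε)) - ε' < δ * (1 - 3 * T - 69 * I (bump ε)) by linarith))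
  filter_upwards [hev] with N hN
  have hle : avg (A.indicator fun v => F ε (y 0 v) (y 1 v) (y 2 v)) N ≤
      avg (fun v => 8 * ({v | v ∈ A ∧ 0 < y 0 v ∧ 0 < y 1 v ∧ 0 < y 2 v}.indicator
        (fun _ => (1 : ℝ)) v)) N := by
    refine avg_mono (fun v => ?_) N
    by_cases hv : v ∈ A
    · rw [Set.indicator_of_mem hv]
      refine (F_le hεpos (hy.bound 0 v) (hy.bound 1 v) (hy.bound 2 v)).trans ?_
      by_cases h0 : 0 < y 0 v ∧ 0 < y 1 v ∧ 0 < y 2 v
      · rw [if_pos h0, Set.indicator_of_mem
          (show v ∈ {v | v ∈ A ∧ 0 < y 0 v ∧ 0 < y 1 v ∧ 0 < y 2 v} from ⟨hv, h0⟩)]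
        norm_num
      · rw [if_neg h0]
        exact mul_nonneg (by norm_num) (Set.indicator_nonneg (fun _ _ => zero_le_one) _)
    · rw [Set.indicator_of_notMem hv]
      exact mul_nonneg (by norm_num) (Set.indicator_nonneg (fun _ _ => zero_le_one) _)
  rw [avg_mul] at hle
  have h3 : δ * (8 / 15) ≤ δ * (1 - 3 * T - 69 * I (bump ε)) := mul_le_mul_of_nonneg_left hval hδ
  linarith

/-- the hypotheses do not depend on the signs -/
theorem Good.signs {y : Fin 3 → HeightOneSpectrum (𝓞 K) → ℝ} (hy : Good A δ y)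
    {s : Fin 3 → ℝ} (hs : ∀ i, s i = 1 ∨ s i = -1) : Good A δ (fun i v => s i * y i v) where
  bound i v := by
    rcases hs i with h | h <;> simp [h, hy.bound i v]
  pair i j hij f g hf hg := by
    have hI : ∀ (k : Fin 3) (f : ℝ → ℝ), I (fun x => f (s k * x)) = I f := fun k f => by
      rcases hs k with h | h
      · simp [h]
      · have := I_neg f
        simpa [h] using this
    refine (hy.pair i j hij (fun x => f (s i * x)) (fun x => g (s j * x)) (by fun_prop)
      (by fun_prop)).congr (fun v => rfl) ?_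
    rw [hI i f, hI j g]
  triple i j k hij hik hjk g hg := by
    refine ((hy.triple i j k hij hik hjk (fun x => g (s k * x)) (by fun_prop)).mul
      (s i * s j)).congr (fun v => by ring) (by ring)

theorem good_of_moments {ι : Type} {x : ι → HeightOneSpectrum (𝓞 K) → ℝ} (hA : HasDensity A δ)
    (hb : ∀ i v, |x i v| ≤ 2) (hp : PairMoments A x) (ht : TripleMoments A x) {i j k : ι}
    (hij : i ≠ j) (hik : i ≠ k) (hjk : j ≠ k) : Good A δ (fun m => x (![i, j, k] m)) := by
  have hinj : ∀ m n : Fin 3, m ≠ n → ![i, j, k] m ≠ ![i, j, k] n := by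
    intro m n hmn
    fin_cases m <;> fin_cases n <;> simp_all [Ne.symm]
  refine ⟨fun m v => hb _ v, fun m n hmn f g hf hg => ?_, fun m n p hmn hmp hnp g hg => ?_⟩
  · refine pair_mean hA (fun v => hb _ v) (fun v => hb _ v) (fun a b hab => ?_) hf hg
    unfold Mean
    rw [mul_zero]
    exact hp _ _ (hinj m n hmn) a b hab
  · refine triple_mean (fun v => hb _ v) (fun v => hb _ v) (fun v => hb _ v) (fun c => ?_) hg
    unfold Mean
    rw [mul_zero]
    exact ht _ _ _ (hinj m n hmn) (hinj m p hmp) (hinj n p hnp) c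

end

/-- Let `A` be a set of primes of the number field `K` of density `δ` and let `x_i`, `i ∈ ι`, be functions
on the primes with values in `[-2, 2]` such that the pairs `(x_i, x_j)` are equidistributed over `A` for the
product of the Sato-Tate measures and `x_i x_j U_c(x_k)` has average zero over `A`, for distinct `i, j, k`
and all `c`.  Then for distinct `i, j, k` and all signs the primes `v ∈ A` at which `x_i(v)`, `x_j(v)`,
`x_k(v)` have the prescribed signs (in particular are not zero) have lower density at least `δ / 15`. -/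
theorem result (K : Type) [Field K] [NumberField K] (A : Set (HeightOneSpectrum (𝓞 K))) (δ : ℝ)
    (hA : HasDensity A δ) (ι : Type) (x : ι → HeightOneSpectrum (𝓞 K) → ℝ)
    (hb : ∀ i v, |x i v| ≤ 2) (hp : PairMoments A x) (ht : TripleMoments A x)
    (i j k : ι) (hij : i ≠ j) (hik : i ≠ k) (hjk : j ≠ k)
    (σ τ υ : ℝ) (hσ : σ = 1 ∨ σ = -1) (hτ : τ = 1 ∨ τ = -1) (hυ : υ = 1 ∨ υ = -1) :
    LowerDensity {v | v ∈ A ∧ 0 < σ * x i v ∧ 0 < τ * x j v ∧ 0 < υ * x k v} (δ / 15) := by
  have hδ : 0 ≤ δ := by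
    refine ge_of_tendsto' hA fun N => ?_
    unfold avg
    refine div_nonneg ?_ (Nat.cast_nonneg _)
    exact finsum_nonneg fun v => Set.indicator_nonneg (fun _ _ => zero_le_one) _
  have hg := good_of_moments hA hb hp ht hij hik hjk
  have hs : ∀ m : Fin 3, ![σ, τ, υ] m = 1 ∨ ![σ, τ, υ] m = -1 := by
    intro m
    fin_cases m
    · exact hσ
    · exact hτ
    · exact hυ
  exact (hg.signs hs).core hδ

end Pool.Agent.Results.MP_4c4ce6_nt.TripleCorrelations
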